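import Pool.Agent.R939.PP.MonS

/-!
# Almost all surfaces, all the monic integral base changes at the same time: assembly
-/

set_option autoImplicit false
set_option linter.all false

namespace Pool.Agent.R939.PP

open Polynomial NumberField Pool.Agent.R939.EI Pool.Agent.R939.HI Pool.Agent.W275.UB
open Pool.Agent.TH115.GD Finset Pool.Agent.R939.KM

section main

variable {k k' K F : Type} [Field k] [Field k'] [Algebra k k'] [Field K] [Algebra k[X] K]
    [Field F] [Algebra k'[X] F] [IsFractionRing k'[X] F] [Algebra K F]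

variable {J : Type} [Fintype J] {r s u : ℕ} {m : Fin s → ℕ} {n : Fin u → ℕ}

/-- The Tate conjecture at 2 for all the base changes by monic integral polynomials `g` of odd degree of
the twist by `D` and for their twists by constants. -/
def TateMonic (k' K F : Type) {k : Type} [Field k] [NumberField k] [Field k'] [Field K]
    [Algebra k[X] K] [Field F] [Algebra k'[X] F] [IsFractionRing k'[X] F] [Algebra K F]
    (a b D : k[X]) : Prop :=
  ∀ (c : k) (g : (𝓞 k)[X]), c ≠ 0 → g.Monic → Odd g.natDegree →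
    TateAtTwo (F := F) k' (crvT
      (algebraMap k[X] K ((C c * (a * D)).comp (g.map (algebraMap (𝓞 k) k))))
      (algebraMap k[X] K ((C (c ^ 2) * (b * D ^ 2)).comp (g.map (algebraMap (𝓞 k) k)))))

/-- **Almost all surfaces, all the monic integral base changes**, in terms of the coordinates. -/
theorem main_monic [NumberField k] (hT : IsTower k k' K F) (B : Module.Basis J ℤ (𝓞 k))
    (hr : 2 ≤ r) (hm : ∀ i, 1 ≤ m i) (hn : ∀ l, 1 ≤ n l) (i0 : Fin s) (hi0 : m i0 ≠ 2)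
    (hM : 2 * r + 2 ≤ ∑ i, m i) :
    D0 {x : Ix r m n × J → ℤ | ¬ TateMonic k' K F (polA (aV (kv B x))) (polP (bV (kv B x)))
      (∏ l, polA (dV (kv B x) l))} := by
  classical
  have h1 := main_allI (n := n) (r := r) hT B hr hm hn i0 hi0
  have h2 := dens_disc (n := n) B hr hm i0
  have h3 := dens_allIrrE (n := n) (r := r) B hm i0 hM
  have h4 : D0 (⋃ i ∈ (Finset.univ : Finset (Fin s)), {x : Ix r m n × J → ℤ |
      ¬ AllIrr (polA (bV (kv B x) i))}) := by
    refine D0.biUnion _ _ fun i _ => ?_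
    exact dens_allIrr' B (fun j => (Sum.inl (Sum.inr ⟨i, j⟩) : Ix r m n)) (by
      intro j j' h
      have h5 := Sum.inr_injective (Sum.inl_injective h)
      exact eq_of_heq (Sigma.mk.inj_iff.1 h5).2) (hm i)
  have h5 : D0 (⋃ l ∈ (Finset.univ : Finset (Fin u)), {x : Ix r m n × J → ℤ |
      ¬ AllIrr (polA (dV (kv B x) l))}) := by
    refine D0.biUnion _ _ fun l _ => ?_
    exact dens_allIrr' B (fun j => (Sum.inr ⟨l, j⟩ : Ix r m n)) (by
      intro j j' h
      have h5 := Sum.inr_injective h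
      exact eq_of_heq (Sigma.mk.inj_iff.1 h5).2) (hn l)
  intro ε hε
  refine (((((h1.union h2).union h3).union h4).union h5) ε hε).mono ?_
  intro x hx
  by_contra hcon
  apply hx
  simp only [Set.mem_union, not_or, Set.mem_iUnion, exists_prop, not_exists, not_and,
    Finset.mem_univ, forall_true_left] at hcon
  obtain ⟨⟨⟨⟨c1, c2⟩, c3⟩, c4⟩, c5⟩ := hcon
  obtain ⟨hin, hall⟩ : InertIn (polA (aV (kv B x))) (polP (bV (kv B x)))
      (∏ l, polA (dV (kv B x) l)) ∧ ∀ D, InertIn (polA (aV (kv B x))) (polP (bV (kv B x))) D →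
        TateTD k' K F (polA (aV (kv B x))) (polP (bV (kv B x))) D := by
    by_contra h
    exact c1 fun h1 h2 => h ⟨h1, h2⟩
  obtain ⟨hirr, -⟩ : Irreducible (polE (aV (kv B x)) (bV (kv B x))) ∧
      NotNorm (polE (aV (kv B x)) (bV (kv B x))) := by
    by_contra h
    exact c2 fun h1 h2 => h ⟨h1, h2⟩
  have c3' : AllIrr (polE (aV (kv B x)) (bV (kv B x))) := by
    by_contra h
    exact c3 ⟨hirr, h⟩
  have c4' : ∀ i : Fin s, AllIrr (polA (bV (kv B x) i)) := by
    intro i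
    by_contra h
    exact c4 i h
  have c5' : ∀ l : Fin u, AllIrr (polA (dV (kv B x) l)) := by
    intro l
    by_contra h
    exact c5 l h
  intro c g hc hg hodd
  have hgd : g.natDegree ≠ 0 := by
    intro h0
    rw [h0] at hodd
    exact absurd hodd (by decide)
  have hdiv : ∀ f π : k[X], AllIrr f → Irreducible π → π ∣ f →
      Irreducible (π.comp (g.map (algebraMap (𝓞 k) k))) := by
    intro f π hf hπ hdv
    obtain ⟨w, hw⟩ := (hπ.associated_of_dvd hf.1 hdv).symm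
    rw [← hw, mul_comp]
    obtain ⟨c0, hc0, hc0'⟩ := Polynomial.isUnit_iff.1 w.isUnit
    rw [← hc0', C_comp]
    exact (irreducible_mul_isUnit (isUnit_C.2 hc0)).2 (hf.2 g hg hgd)
  refine hall _ hin c (g.map (algebraMap (𝓞 k) k)) hc ?_ ?_
  · rw [hg.natDegree_map]
    exact hodd
  · intro π hπ hdv
    rcases hπ.prime.dvd_or_dvd hdv with h8 | h8
    · rcases hπ.prime.dvd_or_dvd h8 with h9 | h9
      · obtain ⟨i, -, hi⟩ := (hπ.prime.dvd_finsetProd_iff _).1 h9
        exact hdiv _ π (c4' i) hπ hi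
      · exact hdiv _ π c3' hπ h9
    · obtain ⟨l, -, hl⟩ := (hπ.prime.dvd_finsetProd_iff _).1 h8
      exact hdiv _ π (c5' l) hπ hl

/-- **Almost all surfaces, all the monic integral base changes.** -/
theorem almost_monic [NumberField k] (hT : IsTower k k' K F) (B : Module.Basis J ℤ (𝓞 k))
    (hr : 2 ≤ r) (hm : ∀ i, 1 ≤ m i) (hn : ∀ l, 1 ≤ n l) (h2 : ∃ i, m i ≠ 2)
    (hM : 2 * r + 2 ≤ ∑ i, m i) {η : ℝ} (hη : 0 < η) :
    ∃ H0 : ℕ, ∀ H : ℕ, H0 ≤ H →
    (({x : (Fin (r + 1) → 𝓞 k) × ((i : Fin s) → Fin (m i + 1) → 𝓞 k) ×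
        ((l : Fin u) → Fin (n l + 1) → 𝓞 k) |
      ((∀ j t, |B.repr (x.1 j) t| ≤ (H : ℤ)) ∧ (∀ i j t, |B.repr (x.2.1 i j) t| ≤ (H : ℤ)) ∧
        ∀ l j t, |B.repr (x.2.2 l j) t| ≤ (H : ℤ)) ∧
      ¬ TateMonic k' K F (polA fun j => algebraMap (𝓞 k) k (x.1 j))
        (polP fun i j => algebraMap (𝓞 k) k (x.2.1 i j))
        (∏ l, polA fun j => algebraMap (𝓞 k) k (x.2.2 l j))}.ncard : ℕ) : ℝ) ≤
      η * (2 * H + 1) ^ (Fintype.card J * (r + 1 + ∑ i, (m i + 1) + ∑ l, (n l + 1))) := by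
  classical
  obtain ⟨i0, hi0⟩ := h2
  obtain ⟨H0, hH⟩ := main_monic (n := n) (r := r) hT B hr hm hn i0 hi0 hM η hη
  refine ⟨H0, fun H hHH => ?_⟩
  have h1 := hH H hHH
  have hcard : Fintype.card (Ix r m n × J) =
      Fintype.card J * (r + 1 + ∑ i, (m i + 1) + ∑ l, (n l + 1)) := by
    rw [Fintype.card_prod, card_Ix, Nat.mul_comm]
  rw [hcard] at h1
  refine le_trans ?_ h1
  let φ : ((Fin (r + 1) → 𝓞 k) × ((i : Fin s) → Fin (m i + 1) → 𝓞 k) ×
        ((l : Fin u) → Fin (n l + 1) → 𝓞 k)) → (Ix r m n × J → ℤ) := fun y o =>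
    B.repr ((mk y.1 y.2.1 y.2.2 : Ix r m n → 𝓞 k) o.1) o.2
  have hkv : ∀ y (o : Ix r m n), kv B (φ y) o =
      algebraMap (𝓞 k) k ((mk y.1 y.2.1 y.2.2 : Ix r m n → 𝓞 k) o) := by
    intro y o
    show algebraMap (𝓞 k) k (elt B fun j => B.repr ((mk y.1 y.2.1 y.2.2 : Ix r m n → 𝓞 k) o) j) = _
    rw [← basis_elt B]
  have hinj : Function.Injective φ := by
    intro y z hyz
    have h3 : ∀ o : Ix r m n, (mk y.1 y.2.1 y.2.2 : Ix r m n → 𝓞 k) o = mk z.1 z.2.1 z.2.2 o := by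
      intro o
      apply FaithfulSMul.algebraMap_injective (𝓞 k) k
      rw [← hkv, ← hkv, hyz]
    refine Prod.ext ?_ (Prod.ext ?_ ?_)
    · funext j
      exact h3 (Sum.inl (Sum.inl j))
    · funext i j
      exact h3 (Sum.inl (Sum.inr ⟨i, j⟩))
    · funext l j
      exact h3 (Sum.inr ⟨l, j⟩)
  have h4 : (Set.ncard {x : (Fin (r + 1) → 𝓞 k) × ((i : Fin s) → Fin (m i + 1) → 𝓞 k) ×
        ((l : Fin u) → Fin (n l + 1) → 𝓞 k) |
      ((∀ j t, |B.repr (x.1 j) t| ≤ (H : ℤ)) ∧ (∀ i j t, |B.repr (x.2.1 i j) t| ≤ (H : ℤ)) ∧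
        ∀ l j t, |B.repr (x.2.2 l j) t| ≤ (H : ℤ)) ∧
      ¬ TateMonic k' K F (polA fun j => algebraMap (𝓞 k) k (x.1 j))
        (polP fun i j => algebraMap (𝓞 k) k (x.2.1 i j))
        (∏ l, polA fun j => algebraMap (𝓞 k) k (x.2.2 l j))}) ≤
      Set.ncard {v : Ix r m n × J → ℤ | v ∈ {x : Ix r m n × J → ℤ | ¬ TateMonic k' K F
        (polA (aV (kv B x))) (polP (bV (kv B x))) (∏ l, polA (dV (kv B x) l))} ∧
        ∀ i, |v i| ≤ (H : ℤ)} := by
    rw [← Set.ncard_image_of_injective _ hinj]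
    refine Set.ncard_le_ncard ?_ (box_fin _ H)
    rintro _ ⟨y, ⟨⟨b1, b2, b3⟩, hbad⟩, rfl⟩
    have ea : aV (kv B (φ y)) = fun j => algebraMap (𝓞 k) k (y.1 j) := by
      funext j
      exact hkv y (Sum.inl (Sum.inl j))
    have eb : bV (kv B (φ y)) = fun i j => algebraMap (𝓞 k) k (y.2.1 i j) := by
      funext i j
      exact hkv y (Sum.inl (Sum.inr ⟨i, j⟩))
    have ed : dV (kv B (φ y)) = fun l j => algebraMap (𝓞 k) k (y.2.2 l j) := by
      funext l j
      exact hkv y (Sum.inr ⟨l, j⟩)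
    refine ⟨?_, ?_⟩
    · rw [Set.mem_setOf_eq, ea, eb, ed]
      exact hbad
    · rintro ⟨(j | ⟨i, j⟩) | ⟨l, j⟩, t⟩
      · exact b1 j t
      · exact b2 i j t
      · exact b3 l j t
  exact_mod_cast h4

end main

end Pool.Agent.R939.PP
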