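import Pool.Agent.R939.HI.Fix

/-!
# Elements which are divisible by a high power of some prime ideal
-/

set_option autoImplicit false
set_option linter.all false

namespace Pool.Agent.R939.PP

open Polynomial NumberField Pool.Agent.R939.EI Pool.Agent.R939.HI Pool.Agent.W275.UB
open Pool.Agent.TH115.GD Finset

section nf

variable {k : Type} [Field k] [NumberField k] {J : Type} [Fintype J] (B : Module.Basis J ℤ (𝓞 k))

/-- integral vectors in a box with `elt x` in an ideal -/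
theorem card_box_ideal (I : Ideal (𝓞 k)) {n : ℕ} (hn : Ideal.absNorm I = n) (hn0 : n ≠ 0) (H : ℕ) :
    ({x : J → ℤ | elt B x ∈ I ∧ ∀ i, |x i| ≤ (H : ℤ)} : Set (J → ℤ)).ncard * n ≤
      (2 * (H + n) + 1) ^ Fintype.card J := by
  classical
  haveI : Finite (𝓞 k ⧸ I) := Ideal.finiteQuotientOfFreeOfNeBot I (by
    intro h0
    rw [h0, Ideal.absNorm_bot] at hn
    exact hn0 hn.symm)
  letI : Fintype (𝓞 k ⧸ I) := Fintype.ofFinite _
  have hcard : Fintype.card (𝓞 k ⧸ I) = n := by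
    rw [← hn, Ideal.absNorm_apply, Submodule.cardQuot_apply, Nat.card_eq_fintype_card]
  have hnI : ((n : ℕ) : 𝓞 k) ∈ I := by
    rw [← hn]
    exact Ideal.absNorm_mem I
  -- representatives
  have hrep : ∀ c : 𝓞 k ⧸ I, ∃ y : J → ℤ, (∀ t, 0 ≤ y t ∧ y t < n) ∧
      Ideal.Quotient.mk I (elt B y) = c := by
    intro c
    obtain ⟨o, rfl⟩ := Ideal.Quotient.mk_surjective c
    refine ⟨fun t => B.repr o t % n, fun t => ⟨Int.emod_nonneg _ (by exact_mod_cast hn0),
      Int.emod_lt_of_pos _ (by exact_mod_cast Nat.pos_of_ne_zero hn0)⟩, ?_⟩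
    rw [Ideal.Quotient.mk_eq_mk_iff_sub_mem]
    have e0 : elt B (fun t => B.repr o t % (n : ℤ)) - o =
        elt B (fun t => B.repr o t % (n : ℤ)) - elt B (fun t => B.repr o t) := by
      rw [← basis_elt B]
    rw [e0, elt, elt, ← sum_sub_distrib]
    refine I.sum_mem fun t _ => ?_
    have h1 := Int.emod_add_mul_ediv (B.repr o t) n
    have h2 : ((B.repr o t % (n : ℤ) : ℤ) : 𝓞 k) * B t - ((B.repr o t : ℤ) : 𝓞 k) * B t =
        ((n : ℕ) : 𝓞 k) * (-((B.repr o t / (n : ℤ) : ℤ) : 𝓞 k) * B t) := by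
      have h3 : ((B.repr o t : ℤ) : 𝓞 k) = ((B.repr o t % (n : ℤ) : ℤ) : 𝓞 k) +
          ((n : ℕ) : 𝓞 k) * ((B.repr o t / (n : ℤ) : ℤ) : 𝓞 k) := by
        conv_lhs => rw [← h1]
        push_cast
        ring
      rw [h3]
      ring
    rw [h2]
    exact I.mul_mem_right _ hnI
  choose rep hrep1 hrep2 using hrep
  set S : Set (J → ℤ) := {x : J → ℤ | elt B x ∈ I ∧ ∀ i, |x i| ≤ (H : ℤ)} with hS
  have hSf : S.Finite := box_fin {x : J → ℤ | elt B x ∈ I} H
  let φ : (J → ℤ) × (𝓞 k ⧸ I) → (J → ℤ) := fun q => q.1 + rep q.2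
  have hadd : ∀ x y : J → ℤ, elt B (x + y) = elt B x + elt B y := by
    intro x y
    rw [elt, elt, elt, ← sum_add_distrib]
    refine sum_congr rfl fun t _ => ?_
    rw [Pi.add_apply]
    push_cast
    ring
  have hinj : Set.InjOn φ (S ×ˢ Set.univ) := by
    rintro ⟨x, c⟩ ⟨hx, -⟩ ⟨y, c'⟩ ⟨hy, -⟩ h
    have h1 : x + rep c = y + rep c' := h
    have h2 : c = c' := by
      have h3 := congrArg (fun z => Ideal.Quotient.mk I (elt B z)) h1
      simp only [hadd, map_add, hrep2] at h3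
      rw [Ideal.Quotient.eq_zero_iff_mem.2 hx.1, Ideal.Quotient.eq_zero_iff_mem.2 hy.1, zero_add,
        zero_add] at h3
      exact h3
    subst h2
    have h3 : x = y := add_right_cancel h1
    rw [h3]
  have hsub : φ '' (S ×ˢ Set.univ) ⊆
      ((Fintype.piFinset fun _ : J => Icc (-((H + n : ℕ) : ℤ)) ((H + n : ℕ) : ℤ) :
        Finset (J → ℤ)) : Set (J → ℤ)) := by
    rintro _ ⟨⟨x, c⟩, ⟨hx, -⟩, rfl⟩
    rw [mem_coe, Fintype.mem_piFinset]
    intro t
    have h1 := abs_le.1 (hx.2 t)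
    have h2 := hrep1 c t
    show x t + rep c t ∈ _
    rw [mem_Icc]
    push_cast
    constructor <;> linarith
  have h1 : (φ '' (S ×ˢ Set.univ)).ncard = S.ncard * n := by
    rw [Set.ncard_image_of_injOn hinj, Set.ncard_prod, Set.ncard_univ, Nat.card_eq_fintype_card,
      hcard]
  rw [← h1]
  refine (Set.ncard_le_ncard hsub (Finset.finite_toSet _)).trans (le_of_eq ?_)
  rw [Set.ncard_coe_finset, Fintype.card_piFinset, prod_const, Int.card_Icc, card_univ]
  congr 1
  omega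

/-- at most `[k : ℚ]` primes have a given norm -/
theorem card_primes (n : ℕ) (hn : 2 ≤ n) (T : Finset (Ideal (𝓞 k)))
    (hT : ∀ P ∈ T, P.IsPrime ∧ Ideal.absNorm P = n) : T.card ≤ Module.finrank ℚ k := by
  have h1 : ∏ P ∈ T, P ∣ Ideal.span {((n : ℕ) : 𝓞 k)} := by
    refine Finset.prod_primes_dvd _ ?_ ?_
    · intro P hP
      obtain ⟨h2, h3⟩ := hT P hP
      refine Ideal.prime_of_isPrime ?_ h2
      rintro rfl
      rw [Ideal.absNorm_bot] at h3
      omega
    · intro P hP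
      rw [Ideal.dvd_span_singleton, ← (hT P hP).2]
      exact Ideal.absNorm_mem P
  have h2 := map_dvd Ideal.absNorm h1
  rw [map_prod, prod_congr rfl fun P hP => (hT P hP).2, prod_const, Ideal.absNorm_span_singleton]
    at h2
  have h3 : (Algebra.norm ℤ ((n : ℕ) : 𝓞 k)).natAbs = n ^ Module.finrank ℚ k := by
    have h4 : ((n : ℕ) : 𝓞 k) = algebraMap ℤ (𝓞 k) (n : ℤ) := by simp
    rw [h4, Algebra.norm_algebraMap, RingOfIntegers.rank, Int.natAbs_pow, Int.natAbs_natCast]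
  rw [h3] at h2
  exact (Nat.pow_dvd_pow_iff_le_right (by omega)).1 h2

end nf

end Pool.Agent.R939.PP
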