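import Pool.Agent.R939.PP.Deep

/-!
# Elements which are divisible by a high power of some prime ideal are rare
-/

set_option autoImplicit false
set_option linter.all false

namespace Pool.Agent.R939.PP

open Polynomial NumberField Pool.Agent.R939.EI Pool.Agent.R939.HI Pool.Agent.W275.UB
open Pool.Agent.TH115.GD Finset

theorem sum_inv_sq (H : ℕ) (hH : 1 ≤ H) : ∑ n ∈ Icc 2 H, (1 : ℝ) / (n : ℝ) ^ 2 ≤ 1 - 1 / H := by
  induction H, hH using Nat.le_induction with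
  | base => simp
  | succ H hH ih =>
    have h0 : (0 : ℝ) < H := by exact_mod_cast hH
    rw [sum_Icc_succ_top (by omega)]
    have h1 : (1 : ℝ) / ((H + 1 : ℕ) : ℝ) ^ 2 ≤ 1 / H - 1 / ((H + 1 : ℕ) : ℝ) := by
      push_cast
      rw [div_sub_div _ _ h0.ne' (by positivity), div_le_div_iff₀ (by positivity) (by positivity)]
      nlinarith
    linarith

theorem sum_inv_pow (H j : ℕ) (hH : 1 ≤ H) :
    ∑ n ∈ Icc 2 H, (1 : ℝ) / (n : ℝ) ^ (j + 2) ≤ 1 / 2 ^ j := by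
  have h1 : ∀ n ∈ Icc 2 H, (1 : ℝ) / (n : ℝ) ^ (j + 2) ≤ 1 / 2 ^ j * (1 / (n : ℝ) ^ 2) := by
    intro n hn
    rw [mem_Icc] at hn
    have h2 : (2 : ℝ) ≤ n := by exact_mod_cast hn.1
    rw [pow_add, one_div_mul_one_div]
    refine one_div_le_one_div_of_le (by positivity) ?_
    exact mul_le_mul_of_nonneg_right (pow_le_pow_left₀ (by norm_num) h2 j) (by positivity)
  refine (sum_le_sum h1).trans ?_
  rw [← mul_sum]
  have h2 := sum_inv_sq H hH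
  have h3 : (0 : ℝ) ≤ 1 / H := by positivity
  have h4 : (0 : ℝ) ≤ 1 / 2 ^ j := by positivity
  nlinarith

section nf

variable {k : Type} [Field k] [NumberField k] {J : Type} [Fintype J] (B : Module.Basis J ℤ (𝓞 k))

theorem norm_bound : ∃ A : ℕ, 1 ≤ A ∧ ∀ (H : ℕ) (x : J → ℤ), (∀ i, |x i| ≤ (H : ℤ)) →
    (Algebra.norm ℤ (elt B x)).natAbs ≤ (A * H) ^ Module.finrank ℚ k := by
  classical
  set A0 : ℝ := ∑ σ : k →ₐ[ℚ] ℂ, ∑ t, ‖σ (B t : k)‖ with hA0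
  obtain ⟨A, hA⟩ := exists_nat_ge (A0 + 1)
  have hA00 : 0 ≤ A0 := sum_nonneg fun _ _ => sum_nonneg fun _ _ => norm_nonneg _
  refine ⟨A, by exact_mod_cast (by linarith : (1 : ℝ) ≤ A), ?_⟩
  intro H x hx
  have h1 : ∀ σ : k →ₐ[ℚ] ℂ, ‖σ ((elt B x : 𝓞 k) : k)‖ ≤ A * H := by
    intro σ
    have e : ((elt B x : 𝓞 k) : k) = ∑ t, (x t : k) * (B t : k) := by
      rw [elt]
      push_cast
      rfl
    rw [e, map_sum]
    refine (norm_sum_le _ _).trans ?_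
    have h2 : ∀ t ∈ (univ : Finset J), ‖σ ((x t : k) * (B t : k))‖ ≤ H * ‖σ (B t : k)‖ := by
      intro t _
      rw [map_mul, norm_mul, map_intCast]
      refine mul_le_mul_of_nonneg_right ?_ (norm_nonneg _)
      rw [Complex.norm_intCast]
      exact_mod_cast hx t
    refine (sum_le_sum h2).trans ?_
    rw [← mul_sum, mul_comm]
    refine mul_le_mul_of_nonneg_right ?_ (Nat.cast_nonneg _)
    have h3 : ∑ t, ‖σ (B t : k)‖ ≤ A0 :=
      single_le_sum (f := fun σ : k →ₐ[ℚ] ℂ => ∑ t, ‖σ (B t : k)‖)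
        (fun _ _ => sum_nonneg fun _ _ => norm_nonneg _) (mem_univ σ)
    linarith
  have h2 : ‖((Algebra.norm ℚ ((elt B x : 𝓞 k) : k) : ℚ) : ℂ)‖ ≤
      (A * H : ℝ) ^ Module.finrank ℚ k := by
    have h3 := Algebra.norm_eq_prod_embeddings ℚ ℂ ((elt B x : 𝓞 k) : k)
    rw [eq_ratCast] at h3
    rw [h3, norm_prod]
    refine (prod_le_prod (fun _ _ => norm_nonneg _) fun σ _ => h1 σ).trans (le_of_eq ?_)
    rw [prod_const, card_univ, AlgHom.card]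
  have h3 : (((Algebra.norm ℤ (elt B x)).natAbs : ℕ) : ℝ) ≤ (A * H : ℝ) ^ Module.finrank ℚ k := by
    refine le_trans (le_of_eq ?_) h2
    rw [← Algebra.coe_norm_int, Rat.cast_intCast, Complex.norm_intCast]
    rw [Nat.cast_natAbs]
    push_cast
    rfl
  exact_mod_cast h3

/-- **Elements divisible by a high power of some prime ideal are rare.** -/
theorem deep {ε : ℝ} (hε : 0 < ε) : ∃ L : ℕ, UD ε {x : J → ℤ | elt B x ≠ 0 ∧
    ∃ P : Ideal (𝓞 k), P.IsPrime ∧ P ≠ ⊥ ∧ elt B x ∈ P ^ L} := by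
  classical
  set d := Module.finrank ℚ k with hd
  have hd0 : 1 ≤ d := Module.finrank_pos
  have hdJ : Fintype.card J = d := card_J B
  obtain ⟨j, hj⟩ : ∃ j : ℕ, d * 2 ^ d * (1 / 2 ^ j : ℝ) ≤ ε := by
    obtain ⟨j, hj⟩ := exists_pow_lt_of_lt_one (show (0 : ℝ) < ε / (d * 2 ^ d) by positivity)
      (show (1 / 2 : ℝ) < 1 by norm_num)
    refine ⟨j, ?_⟩
    rw [lt_div_iff₀ (by positivity)] at hj
    rw [one_div_pow] at hj
    linarith
  obtain ⟨A, hA1, hA⟩ := norm_bound B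
  refine ⟨2 * d * (j + 2), A, fun H hH => ?_⟩
  have hH1 : 1 ≤ H := hA1.trans hH
  let T : ℕ → Finset (Ideal (𝓞 k)) := fun n =>
    (Ideal.finite_setOfPred_absNorm_eq (S := 𝓞 k) n).toFinset.filter fun P => P.IsPrime
  have hT : ∀ n, ∀ P ∈ T n, P.IsPrime ∧ Ideal.absNorm P = n := by
    intro n P hP
    rw [mem_filter, Set.Finite.mem_toFinset] at hP
    exact ⟨hP.2, hP.1⟩
  let S : ℕ → Ideal (𝓞 k) → Set (J → ℤ) := fun n P =>
    {x : J → ℤ | elt B x ∈ P ^ (j + 2) ∧ ∀ i, |x i| ≤ (H : ℤ)}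
  have hsub : ({x : J → ℤ | x ∈ {x : J → ℤ | elt B x ≠ 0 ∧
      ∃ P : Ideal (𝓞 k), P.IsPrime ∧ P ≠ ⊥ ∧ elt B x ∈ P ^ (2 * d * (j + 2))} ∧
        ∀ i, |x i| ≤ (H : ℤ)}) ⊆
      ⋃ n ∈ (Icc 2 H).filter (fun n => n ^ (j + 2) ≤ H), ⋃ P ∈ T n, S n P := by
    rintro x ⟨⟨hx0, P, hP, hP0, hxP⟩, hxH⟩
    have hn1 : Ideal.absNorm P ≠ 1 := by
      rw [Ne, Ideal.absNorm_eq_one_iff]
      exact hP.ne_top
    have hn0 : Ideal.absNorm P ≠ 0 := by
      rw [Ne, Ideal.absNorm_eq_zero_iff]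
      exact hP0
    have h1 : Ideal.absNorm P ^ (2 * d * (j + 2)) ∣ (Algebra.norm ℤ (elt B x)).natAbs := by
      rw [← Ideal.absNorm_span_singleton, ← map_pow]
      exact map_dvd _ ((Ideal.dvd_span_singleton).2 hxP)
    have h2 : (Algebra.norm ℤ (elt B x)).natAbs ≠ 0 := by
      rw [Int.natAbs_ne_zero, Ne, Algebra.norm_eq_zero_iff]
      exact hx0
    have h3 : Ideal.absNorm P ^ (2 * d * (j + 2)) ≤ (A * H) ^ d :=
      (Nat.le_of_dvd (Nat.pos_of_ne_zero h2) h1).trans (hA H x hxH)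
    have h4 : (A * H) ^ d ≤ H ^ (2 * d) := by
      rw [pow_mul]
      refine Nat.pow_le_pow_left ?_ d
      rw [sq]
      exact Nat.mul_le_mul_right _ hH
    have h5 : Ideal.absNorm P ^ (j + 2) ≤ H := by
      have h6 : (Ideal.absNorm P ^ (j + 2)) ^ (2 * d) ≤ H ^ (2 * d) := by
        rw [← pow_mul, mul_comm (j + 2)]
        exact h3.trans h4
      exact (Nat.pow_le_pow_iff_left (by omega)).1 h6
    have h6 : Ideal.absNorm P ≤ Ideal.absNorm P ^ (j + 2) := Nat.le_self_pow (by omega) _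
    simp only [Set.mem_iUnion, exists_prop]
    refine ⟨Ideal.absNorm P, ?_, P, ?_, ?_, hxH⟩
    · rw [mem_filter, mem_Icc]
      exact ⟨⟨by omega, by omega⟩, h5⟩
    · rw [mem_filter, Set.Finite.mem_toFinset]
      exact ⟨rfl, hP⟩
    · refine Ideal.pow_le_pow_right ?_ hxP
      calc j + 2 = 1 * (j + 2) := (one_mul _).symm
        _ ≤ 2 * d * (j + 2) := Nat.mul_le_mul_right _ (by omega)
  have hfin : (⋃ n ∈ (Icc 2 H).filter (fun n => n ^ (j + 2) ≤ H), ⋃ P ∈ T n, S n P).Finite := by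
    refine Set.Finite.biUnion (finite_toSet _) fun n _ => ?_
    refine Set.Finite.biUnion (finite_toSet _) fun P _ => ?_
    exact box_fin {x : J → ℤ | elt B x ∈ P ^ (j + 2)} H
  have hHr : (0 : ℝ) < 2 * H + 1 := by positivity
  have hS : ∀ n ∈ (Icc 2 H).filter (fun n => n ^ (j + 2) ≤ H), ∀ P ∈ T n,
      ((S n P).ncard : ℝ) ≤ 2 ^ d * (2 * H + 1 : ℝ) ^ d * (1 / (n : ℝ) ^ (j + 2)) := by
    intro n hn P hP
    rw [mem_filter, mem_Icc] at hn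
    have h1 := card_box_ideal B (P ^ (j + 2)) (n := n ^ (j + 2)) (by
      rw [map_pow, (hT n P hP).2]) (pow_ne_zero _ (by omega)) H
    rw [hdJ] at h1
    have h2 : (2 * (H + n ^ (j + 2)) + 1) ^ d ≤ (2 * (2 * H + 1)) ^ d :=
      Nat.pow_le_pow_left (by omega) d
    have h3 : (S n P).ncard * n ^ (j + 2) ≤ (2 * (2 * H + 1)) ^ d := h1.trans h2
    have hn0 : (0 : ℝ) < (n : ℝ) ^ (j + 2) := by
      have : (0 : ℝ) < n := by exact_mod_cast (by omega : 0 < n)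
      positivity
    rw [mul_one_div, le_div_iff₀ hn0, ← mul_pow]
    exact_mod_cast h3
  have hc1 : ({x : J → ℤ | x ∈ {x : J → ℤ | elt B x ≠ 0 ∧
      ∃ P : Ideal (𝓞 k), P.IsPrime ∧ P ≠ ⊥ ∧ elt B x ∈ P ^ (2 * d * (j + 2))} ∧
        ∀ i, |x i| ≤ (H : ℤ)}).ncard ≤
      ∑ n ∈ (Icc 2 H).filter (fun n => n ^ (j + 2) ≤ H), ∑ P ∈ T n, (S n P).ncard := by
    refine (Set.ncard_le_ncard hsub hfin).trans ?_
    refine (Finset.set_ncard_biUnion_le _ _).trans ?_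
    exact sum_le_sum fun n _ => Finset.set_ncard_biUnion_le _ _
  have hc2 : (((∑ n ∈ (Icc 2 H).filter (fun n => n ^ (j + 2) ≤ H), ∑ P ∈ T n, (S n P).ncard) : ℕ) :
      ℝ) ≤ ∑ n ∈ Icc 2 H, d * (2 ^ d * (2 * H + 1 : ℝ) ^ d) * (1 / (n : ℝ) ^ (j + 2)) := by
    push_cast
    rw [sum_filter]
    refine sum_le_sum fun n hn => ?_
    split_ifs with h
    · have hn' : n ∈ (Icc 2 H).filter (fun n => n ^ (j + 2) ≤ H) := mem_filter.2 ⟨hn, h⟩
      have h1 := sum_le_sum fun P hP => hS n hn' P hP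
      refine h1.trans ?_
      rw [sum_const, nsmul_eq_mul]
      have h2 : ((T n).card : ℝ) ≤ d := by
        rw [mem_Icc] at hn
        exact_mod_cast card_primes n hn.1 (T n) (hT n)
      calc ((T n).card : ℝ) * (2 ^ d * (2 * H + 1 : ℝ) ^ d * (1 / (n : ℝ) ^ (j + 2))) ≤
          d * (2 ^ d * (2 * H + 1 : ℝ) ^ d * (1 / (n : ℝ) ^ (j + 2))) :=
            mul_le_mul_of_nonneg_right h2 (by positivity)
        _ = _ := by ring
    · positivity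
  rw [hdJ]
  have hc3 : (({x : J → ℤ | x ∈ {x : J → ℤ | elt B x ≠ 0 ∧
      ∃ P : Ideal (𝓞 k), P.IsPrime ∧ P ≠ ⊥ ∧ elt B x ∈ P ^ (2 * d * (j + 2))} ∧
        ∀ i, |x i| ≤ (H : ℤ)}.ncard : ℕ) : ℝ) ≤ ((∑ n ∈ (Icc 2 H).filter
          (fun n => n ^ (j + 2) ≤ H), ∑ P ∈ T n, (S n P).ncard : ℕ) : ℝ) := by
    exact_mod_cast hc1
  refine hc3.trans (hc2.trans ?_)
  rw [← mul_sum]
  have h1 := sum_inv_pow H j hH1
  have h2 : (0 : ℝ) ≤ d * (2 ^ d * (2 * H + 1 : ℝ) ^ d) := by positivity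
  calc d * (2 ^ d * (2 * H + 1 : ℝ) ^ d) * ∑ n ∈ Icc 2 H, (1 / (n : ℝ) ^ (j + 2)) ≤
      d * (2 ^ d * (2 * H + 1 : ℝ) ^ d) * (1 / 2 ^ j) := mul_le_mul_of_nonneg_left h1 h2
    _ = (d * 2 ^ d * (1 / 2 ^ j : ℝ)) * (2 * H + 1 : ℝ) ^ d := by ring
    _ ≤ ε * (2 * H + 1 : ℝ) ^ d := mul_le_mul_of_nonneg_right hj (by positivity)

end nf

end Pool.Agent.R939.PP
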