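import Pool.Agent.R939.PP.Sq

/-!
# Almost all integers of a number field have a large simple prime factor: the densities
-/

set_option autoImplicit false
set_option linter.all false

namespace Pool.Agent.R939.PP

open Polynomial NumberField Pool.Agent.R939.EI Pool.Agent.R939.HI Pool.Agent.W275.UB
open Pool.Agent.TH115.GD Finset

section nf

variable {k : Type} [Field k] [NumberField k] {J : Type} [Fintype J] (B : Module.Basis J ℤ (𝓞 k))

/-- the primes of given norm -/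
noncomputable def prm (k : Type) [Field k] [NumberField k] (n : ℕ) : Finset (Ideal (𝓞 k)) := by
  classical
  exact (Ideal.finite_setOfPred_absNorm_eq (S := 𝓞 k) n).toFinset.filter fun P => P.IsPrime

theorem mem_prm {n : ℕ} {P : Ideal (𝓞 k)} : P ∈ prm k n ↔ P.IsPrime ∧ Ideal.absNorm P = n := by
  classical
  rw [prm, mem_filter, Set.Finite.mem_toFinset]
  exact ⟨fun h => ⟨h.2, h.1⟩, fun h => ⟨h.2, h.1⟩⟩

theorem prm_card {n : ℕ} (hn : 2 ≤ n) : (prm k n).card ≤ Module.finrank ℚ k :=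
  card_primes n hn _ fun P hP => mem_prm.1 hP

theorem absNorm_two {P : Ideal (𝓞 k)} (hP : P.IsPrime) (hP0 : P ≠ ⊥) : 2 ≤ Ideal.absNorm P := by
  have hn1 : Ideal.absNorm P ≠ 1 := by
    rw [Ne, Ideal.absNorm_eq_one_iff]
    exact hP.ne_top
  have hn0 : Ideal.absNorm P ≠ 0 := by
    rw [Ne, Ideal.absNorm_eq_zero_iff]
    exact hP0
  omega

/-- a union bound over the primes of large norm -/
theorem prime_union {α : Type} [Fintype α] (S : Ideal (𝓞 k) → Set (α → ℤ)) (C q : ℕ)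
    (hq : q ≤ Fintype.card α) (D : ℕ → ℕ)
    (hS : ∀ (H n : ℕ) (P : Ideal (𝓞 k)), 1 ≤ H → 2 ≤ n → P ∈ prm k n → n ≤ D H →
      (({v : α → ℤ | v ∈ S P ∧ ∀ i, |v i| ≤ (H : ℤ)} : Set (α → ℤ)).ncard) * n ^ 2 ≤
        C * H ^ Fintype.card α)
    (hD : ∀ (H : ℕ) (P : Ideal (𝓞 k)) (v : α → ℤ), P.IsPrime → P ≠ ⊥ → v ∈ S P →
      (∀ i, |v i| ≤ (H : ℤ)) → Ideal.absNorm P ≤ D H) {ε : ℝ} (hε : 0 < ε) :
    ∃ T0 : ℕ, UD ε {v : α → ℤ | ∃ P : Ideal (𝓞 k), P.IsPrime ∧ P ≠ ⊥ ∧ T0 ≤ Ideal.absNorm P ∧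
      v ∈ S P} := by
  classical
  set d := Module.finrank ℚ k with hd
  obtain ⟨T1, hT1⟩ := exists_nat_ge ((d * C : ℝ) / ε + 1)
  set T0 := max T1 2 with hT0
  have hT2 : 2 ≤ T0 := le_max_right _ _
  have hT3 : (d * C : ℝ) * (1 / ((T0 : ℝ) - 1)) ≤ ε := by
    have h1 : ((T1 : ℕ) : ℝ) ≤ T0 := by exact_mod_cast le_max_left _ _
    have h2 : (d * C : ℝ) / ε ≤ (T0 : ℝ) - 1 := by linarith
    have h3 : (2 : ℝ) ≤ T0 := by exact_mod_cast hT2
    rw [mul_one_div, div_le_iff₀ (by linarith)]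
    rw [div_le_iff₀ hε] at h2
    linarith
  refine ⟨T0, 1, fun H hH => ?_⟩
  have hsub : ({v : α → ℤ | v ∈ {v : α → ℤ | ∃ P : Ideal (𝓞 k), P.IsPrime ∧ P ≠ ⊥ ∧
      T0 ≤ Ideal.absNorm P ∧ v ∈ S P} ∧ ∀ i, |v i| ≤ (H : ℤ)}) ⊆
      ⋃ n ∈ Icc T0 (D H), ⋃ P ∈ prm k n, {v : α → ℤ | v ∈ S P ∧ ∀ i, |v i| ≤ (H : ℤ)} := by
    rintro v ⟨⟨P, hP, hP0, hPT, hvP⟩, hvH⟩
    simp only [Set.mem_iUnion, exists_prop]
    exact ⟨Ideal.absNorm P, mem_Icc.2 ⟨hPT, hD H P v hP hP0 hvP hvH⟩, P, mem_prm.2 ⟨hP, rfl⟩,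
      hvP, hvH⟩
  have hfin : (⋃ n ∈ Icc T0 (D H), ⋃ P ∈ prm k n,
      {v : α → ℤ | v ∈ S P ∧ ∀ i, |v i| ≤ (H : ℤ)}).Finite := by
    refine Set.Finite.biUnion (finite_toSet _) fun n _ => ?_
    refine Set.Finite.biUnion (finite_toSet _) fun P _ => ?_
    exact box_fin (S P) H
  have hc1 := (Set.ncard_le_ncard hsub hfin).trans (Finset.set_ncard_biUnion_le _ _)
  have hc2 := hc1.trans (sum_le_sum fun n _ => Finset.set_ncard_biUnion_le (prm k n) fun P =>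
    {v : α → ℤ | v ∈ S P ∧ ∀ i, |v i| ≤ (H : ℤ)})
  have hc3 : ((∑ n ∈ Icc T0 (D H), ∑ P ∈ prm k n,
      ({v : α → ℤ | v ∈ S P ∧ ∀ i, |v i| ≤ (H : ℤ)}).ncard : ℕ) : ℝ) ≤
      ∑ n ∈ Icc T0 (D H), (d * C * (H : ℝ) ^ Fintype.card α) * (1 / (n : ℝ) ^ 2) := by
    push_cast
    refine sum_le_sum fun n hn => ?_
    rw [mem_Icc] at hn
    have hn2 : 2 ≤ n := hT2.trans hn.1
    have hn0 : (0 : ℝ) < (n : ℝ) ^ 2 := by
      have : (0 : ℝ) < n := by exact_mod_cast (by omega : 0 < n)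
      positivity
    have h1 : ∀ P ∈ prm k n, ((({v : α → ℤ | v ∈ S P ∧ ∀ i, |v i| ≤ (H : ℤ)} :
        Set (α → ℤ)).ncard : ℕ) : ℝ) ≤ (C * (H : ℝ) ^ Fintype.card α) * (1 / (n : ℝ) ^ 2) := by
      intro P hP
      rw [mul_one_div, le_div_iff₀ hn0]
      exact_mod_cast hS H n P hH hn2 hP hn.2
    refine (sum_le_sum h1).trans ?_
    rw [sum_const, nsmul_eq_mul]
    have h2 : ((prm k n).card : ℝ) ≤ d := by exact_mod_cast prm_card hn2
    calc ((prm k n).card : ℝ) * ((C * (H : ℝ) ^ Fintype.card α) * (1 / (n : ℝ) ^ 2)) ≤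
        d * ((C * (H : ℝ) ^ Fintype.card α) * (1 / (n : ℝ) ^ 2)) :=
          mul_le_mul_of_nonneg_right h2 (by positivity)
      _ = _ := by ring
  have hc4 : (({v : α → ℤ | v ∈ {v : α → ℤ | ∃ P : Ideal (𝓞 k), P.IsPrime ∧ P ≠ ⊥ ∧
      T0 ≤ Ideal.absNorm P ∧ v ∈ S P} ∧ ∀ i, |v i| ≤ (H : ℤ)}.ncard : ℕ) : ℝ) ≤
      ((∑ n ∈ Icc T0 (D H), ∑ P ∈ prm k n,
        ({v : α → ℤ | v ∈ S P ∧ ∀ i, |v i| ≤ (H : ℤ)}).ncard : ℕ) : ℝ) := by
    exact_mod_cast hc2
  refine hc4.trans (hc3.trans ?_)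
  rw [← mul_sum]
  have h1 := sum_tail T0 (D H) hT2
  have h2 : (H : ℝ) ^ Fintype.card α ≤ (2 * H + 1 : ℝ) ^ Fintype.card α :=
    pow_le_pow_left₀ (by positivity) (by
      have : (0 : ℝ) ≤ H := by positivity
      linarith) _
  calc (d * C * (H : ℝ) ^ Fintype.card α) * ∑ n ∈ Icc T0 (D H), (1 / (n : ℝ) ^ 2) ≤
      (d * C * (H : ℝ) ^ Fintype.card α) * (1 / ((T0 : ℝ) - 1)) :=
        mul_le_mul_of_nonneg_left h1 (by positivity)
    _ = ((d * C : ℝ) * (1 / ((T0 : ℝ) - 1))) * (H : ℝ) ^ Fintype.card α := by ring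
    _ ≤ ε * (H : ℝ) ^ Fintype.card α := mul_le_mul_of_nonneg_right hT3 (by positivity)
    _ ≤ ε * (2 * H + 1 : ℝ) ^ Fintype.card α := mul_le_mul_of_nonneg_left h2 hε.le

/-- an integer in a prime of large norm -/
theorem norm_le_of_mem {A : ℕ} (hA : ∀ (H : ℕ) (x : J → ℤ), (∀ i, |x i| ≤ (H : ℤ)) →
    (Algebra.norm ℤ (elt B x)).natAbs ≤ (A * H) ^ Module.finrank ℚ k) {I : Ideal (𝓞 k)} {H : ℕ}
    {v : J → ℤ} (hv : elt B v ≠ 0) (hvI : elt B v ∈ I) (hvH : ∀ i, |v i| ≤ (H : ℤ)) :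
    Ideal.absNorm I ≤ (A * H) ^ Module.finrank ℚ k := by
  have h1 : Ideal.absNorm I ∣ (Algebra.norm ℤ (elt B v)).natAbs := by
    rw [← Ideal.absNorm_span_singleton]
    exact map_dvd _ ((Ideal.dvd_span_singleton).2 hvI)
  have h2 : (Algebra.norm ℤ (elt B v)).natAbs ≠ 0 := by
    rw [Int.natAbs_ne_zero, Ne, Algebra.norm_eq_zero_iff]
    exact hv
  exact (Nat.le_of_dvd (Nat.pos_of_ne_zero h2) h1).trans (hA H v hvH)

/-- the square of a prime of large norm rarely divides -/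
theorem bad1 {ε : ℝ} (hε : 0 < ε) : ∃ T0 : ℕ, UD ε {v : J → ℤ | ∃ P : Ideal (𝓞 k),
    P.IsPrime ∧ P ≠ ⊥ ∧ T0 ≤ Ideal.absNorm P ∧ v ∈ {v : J → ℤ | elt B v ≠ 0 ∧ elt B v ∈ P ^ 2}} := by
  classical
  obtain ⟨A, hA1, hA⟩ := norm_bound B
  set d := Module.finrank ℚ k with hd
  have hdJ : Fintype.card J = d := card_J B
  have hn2 : ∀ (H : ℕ) (P : Ideal (𝓞 k)) (v : J → ℤ), P.IsPrime → P ≠ ⊥ →
      (elt B v ≠ 0 ∧ elt B v ∈ P ^ 2) → (∀ i, |v i| ≤ (H : ℤ)) →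
      Ideal.absNorm P ^ 2 ≤ (A * H) ^ d := by
    intro H P v hP hP0 hv hvH
    have h1 := norm_le_of_mem B hA hv.1 hv.2 hvH
    rwa [map_pow] at h1
  refine prime_union (fun P => {v : J → ℤ | elt B v ≠ 0 ∧ elt B v ∈ P ^ 2}) ((4 * A) ^ d)
    0 (Nat.zero_le _) (fun H => (A * H) ^ d) ?_ ?_ hε
  · intro H n P hH hn hP hnD
    rw [hdJ]
    rcases ({v : J → ℤ | v ∈ {v : J → ℤ | elt B v ≠ 0 ∧ elt B v ∈ P ^ 2} ∧
      ∀ i, |v i| ≤ (H : ℤ)}).eq_empty_or_nonempty with he | ⟨v, hv⟩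
    · rw [he, Set.ncard_empty, zero_mul]
      exact Nat.zero_le _
    have hP' := mem_prm.1 hP
    have hP0 : P ≠ ⊥ := by
      rintro rfl
      rw [Ideal.absNorm_bot] at hP'
      omega
    have h1 := hn2 H P v hP'.1 hP0 hv.1 hv.2
    rw [hP'.2] at h1
    have h2 := pack B hA1 hA (P ^ 2) (n := n ^ 2) (by rw [map_pow, hP'.2])
      (Nat.one_le_pow _ _ (by omega)) h1
    refine le_trans (Nat.mul_le_mul_right _ ?_) (h2.trans (le_of_eq (mul_pow _ _ _)))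
    have hf : ({x : J → ℤ | elt B x ∈ P ^ 2 ∧ ∀ i, |x i| ≤ (H : ℤ)} : Set (J → ℤ)).Finite :=
      (box_fin {v : J → ℤ | True} H).subset fun v hv => ⟨trivial, hv.2⟩
    refine Set.ncard_le_ncard ?_ hf
    rintro w ⟨⟨-, hw⟩, hwH⟩
    exact ⟨hw, hwH⟩
  · intro H P v hP hP0 hv hvH
    have h1 := hn2 H P v hP hP0 hv hvH
    have h2 := absNorm_two hP hP0
    exact (Nat.le_self_pow two_ne_zero _).trans h1

/-- two integers rarely have a common prime factor of large norm -/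
theorem bad2 {ε : ℝ} (hε : 0 < ε) : ∃ T0 : ℕ, UD ε {v : Fin 2 × J → ℤ | ∃ P : Ideal (𝓞 k),
    P.IsPrime ∧ P ≠ ⊥ ∧ T0 ≤ Ideal.absNorm P ∧ v ∈ {v : Fin 2 × J → ℤ |
      (elt B fun t => v (0, t)) ≠ 0 ∧ (elt B fun t => v (0, t)) ∈ P ∧
        (elt B fun t => v (1, t)) ∈ P}} := by
  classical
  obtain ⟨A, hA1, hA⟩ := norm_bound B
  set d := Module.finrank ℚ k with hd
  have hdJ : Fintype.card J = d := card_J B
  refine prime_union (fun P => {v : Fin 2 × J → ℤ |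
      (elt B fun t => v (0, t)) ≠ 0 ∧ (elt B fun t => v (0, t)) ∈ P ∧
        (elt B fun t => v (1, t)) ∈ P}) ((4 * A) ^ (2 * d))
    0 (Nat.zero_le _) (fun H => (A * H) ^ d) ?_ ?_ hε
  · intro H n P hH hn hP hnD
    have hP' := mem_prm.1 hP
    have hcard : Fintype.card (Fin 2 × J) = 2 * d := by
      rw [Fintype.card_prod, Fintype.card_fin, hdJ]
    rw [hcard]
    have h1 := pack B hA1 hA P hP'.2 (by omega) hnD
    set Q : Set (J → ℤ) := {x : J → ℤ | elt B x ∈ P ∧ ∀ i, |x i| ≤ (H : ℤ)} with hQ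
    have hQf : Q.Finite := box_fin {x : J → ℤ | elt B x ∈ P} H
    let φ : (Fin 2 × J → ℤ) → (J → ℤ) × (J → ℤ) := fun v => (fun t => v (0, t), fun t => v (1, t))
    have hφ : Function.Injective φ := by
      intro v w hvw
      have e1 := congrArg Prod.fst hvw
      have e2 := congrArg Prod.snd hvw
      funext q
      obtain ⟨i, t⟩ := q
      fin_cases i
      · exact congrFun e1 t
      · exact congrFun e2 t
    have h2 : ({v : Fin 2 × J → ℤ | v ∈ {v : Fin 2 × J → ℤ |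
      (elt B fun t => v (0, t)) ≠ 0 ∧ (elt B fun t => v (0, t)) ∈ P ∧
        (elt B fun t => v (1, t)) ∈ P} ∧ ∀ i, |v i| ≤ (H : ℤ)} : Set (Fin 2 × J → ℤ)).ncard ≤
        Q.ncard * Q.ncard := by
      rw [← Set.ncard_image_of_injective _ hφ, ← Set.ncard_prod]
      refine Set.ncard_le_ncard ?_ (hQf.prod hQf)
      rintro _ ⟨v, ⟨⟨-, h3, h4⟩, h5⟩, rfl⟩
      exact ⟨⟨h3, fun t => h5 (0, t)⟩, ⟨h4, fun t => h5 (1, t)⟩⟩
    calc _ ≤ (Q.ncard * Q.ncard) * n ^ 2 := Nat.mul_le_mul_right _ h2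
      _ = (Q.ncard * n) * (Q.ncard * n) := by ring
      _ ≤ (4 * A * H) ^ d * (4 * A * H) ^ d := Nat.mul_le_mul h1 h1
      _ = (4 * A) ^ (2 * d) * H ^ (2 * d) := by
        rw [← mul_pow (4 * A) H, ← pow_add, ← two_mul]
  · intro H P v hP hP0 hv hvH
    exact norm_le_of_mem B hA hv.1 hv.2.1 fun t => hvH (0, t)

/-- integers without a prime factor of large norm are rare -/
theorem bad4 (T : ℕ) : D0 {v : J → ℤ | elt B v ≠ 0 ∧ ∀ P : Ideal (𝓞 k), P.IsPrime → P ≠ ⊥ →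
    elt B v ∈ P → Ideal.absNorm P < T} := by
  classical
  intro ε hε
  obtain ⟨L, hL⟩ := deep B (show (0 : ℝ) < ε / 2 by positivity)
  set S : Finset (Ideal (𝓞 k)) := (range T).biUnion fun n => prm k n with hS
  set K0 := T ^ (S.card * L) with hK0
  obtain ⟨N, hN⟩ := norm_form B
  have hd1 : 1 ≤ Module.finrank ℚ k := Module.finrank_pos
  have h1 : D0 (⋃ n ∈ range (K0 + 1), {v : J → ℤ | MvPolynomial.eval v (N ^ 2 - MvPolynomial.C
      ((n : ℤ) ^ 2)) = 0}) := by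
    refine D0.biUnion _ _ fun n _ => zero _ ?_
    intro h0
    have h2 : MvPolynomial.eval (fun t => B.repr ((n + 2 : ℕ) : 𝓞 k) t) (N ^ 2 - MvPolynomial.C
      ((n : ℤ) ^ 2)) = 0 := by rw [h0, map_zero]
    rw [map_sub, map_pow, hN, MvPolynomial.eval_C] at h2
    have h3 : (elt B fun t => B.repr ((n + 2 : ℕ) : 𝓞 k) t) = ((n + 2 : ℕ) : 𝓞 k) :=
      (basis_elt B _).symm
    have h4 : Algebra.norm ℤ ((n + 2 : ℕ) : 𝓞 k) = ((n + 2 : ℕ) : ℤ) ^ Module.finrank ℚ k := by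
      have h6 : ((n + 2 : ℕ) : 𝓞 k) = algebraMap ℤ (𝓞 k) ((n + 2 : ℕ) : ℤ) := by simp
      rw [h6, Algebra.norm_algebraMap, RingOfIntegers.rank]
    rw [h3, h4] at h2
    have h5 : ((n + 2 : ℕ) : ℤ) ^ 1 ≤ ((n + 2 : ℕ) : ℤ) ^ Module.finrank ℚ k :=
      pow_le_pow_right₀ (by push_cast; linarith) hd1
    rw [pow_one] at h5
    have h6 : ((n : ℤ)) < ((n + 2 : ℕ) : ℤ) ^ Module.finrank ℚ k := by
      refine lt_of_lt_of_le ?_ h5
      push_cast
      linarith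
    have h7 : (0 : ℤ) ≤ n := by positivity
    nlinarith
  have h2 := hL.union (h1 (ε / 2) (by positivity))
  rw [add_halves] at h2
  refine h2.mono ?_
  rintro v ⟨hv0, hv⟩
  by_contra hcon
  simp only [Set.mem_union, not_or, Set.mem_iUnion, exists_prop, not_exists, not_and] at hcon
  obtain ⟨c1, c2⟩ := hcon
  have c1' : ∀ P : Ideal (𝓞 k), P.IsPrime → P ≠ ⊥ → elt B v ∉ P ^ L := fun P hP hP0 hm =>
    c1 ⟨hv0, P, hP, hP0, hm⟩
  set I := Ideal.span {elt B v} with hI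
  have hI0 : I ≠ ⊥ := by
    rw [hI, Ne, Ideal.span_singleton_eq_bot]
    exact hv0
  set F := UniqueFactorizationMonoid.normalizedFactors I with hF
  have hFp : F.prod = I := Ideal.prod_normalizedFactors_eq_self hI0
  have hmemF : ∀ P ∈ F, P.IsPrime ∧ P ≠ ⊥ ∧ elt B v ∈ P := by
    intro P hP
    have h3 : Prime P := UniqueFactorizationMonoid.prime_of_normalized_factor P hP
    have h4 : P ∣ I := UniqueFactorizationMonoid.dvd_of_mem_normalizedFactors hP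
    exact ⟨Ideal.isPrime_of_prime h3, h3.ne_zero, (Ideal.dvd_span_singleton).1 h4⟩
  have hcount : ∀ P ∈ F.toFinset, F.count P ≤ L := by
    intro P hP
    rw [Multiset.mem_toFinset] at hP
    obtain ⟨p1, p2, p3⟩ := hmemF P hP
    by_contra hcon
    apply c1' P p1 p2
    rw [← Ideal.dvd_span_singleton]
    have h3 : Multiset.replicate L P ≤ F := Multiset.le_count_iff_replicate_le.1 (by omega)
    have h4 := Multiset.prod_dvd_prod_of_le h3
    rw [Multiset.prod_replicate, hFp] at h4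
    exact h4
  have hsub : F.toFinset ⊆ S := by
    intro P hP
    rw [Multiset.mem_toFinset] at hP
    obtain ⟨p1, p2, p3⟩ := hmemF P hP
    rw [hS, mem_biUnion]
    exact ⟨Ideal.absNorm P, mem_range.2 (hv P p1 p2 p3), mem_prm.2 ⟨p1, rfl⟩⟩
  have hcardF : Multiset.card F ≤ S.card * L := by
    rw [← Multiset.toFinset_sum_count_eq]
    refine (sum_le_sum hcount).trans ?_
    rw [sum_const, smul_eq_mul]
    exact Nat.mul_le_mul_right _ (card_le_card hsub)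
  have hT1 : 1 ≤ T := by
    rcases Nat.eq_zero_or_pos T with h | h
    · exfalso
      by_cases hu : IsUnit (elt B v)
      · obtain ⟨P, hP⟩ : ∃ P : Ideal (𝓞 k), P.IsMaximal := Ideal.exists_maximal _
        by_cases hJ : True
        · -- the integer is a unit, its norm is one
          have h3 : (Algebra.norm ℤ (elt B v)).natAbs = 1 := Int.isUnit_iff_natAbs_eq.1 (hu.map _)
          have h4 : (1 : ℕ) ∈ range (K0 + 1) ∨ K0 = 0 := by
            rcases Nat.eq_zero_or_pos K0 with h5 | h5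
            · exact Or.inr h5
            · exact Or.inl (mem_range.2 (by omega))
          have hS0 : S = ∅ := by rw [hS, h, range_zero, biUnion_empty]
          have hK1 : K0 = 1 := by rw [hK0, hS0, card_empty, zero_mul, pow_zero]
          refine c2 1 (by rw [hK1]; norm_num) ?_
          show MvPolynomial.eval v _ = 0
          rw [map_sub, map_pow, hN, MvPolynomial.eval_C]
          rcases Int.natAbs_eq (Algebra.norm ℤ (elt B v)) with h6 | h6 <;> rw [h6, h3] <;> norm_num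
        · exact hJ trivial
      · obtain ⟨P, hP, hPm⟩ := exists_max_ideal_of_mem_nonunits hu
        have h3 := hv P hP.isPrime (by
          rintro rfl
          exact hv0 hPm) hPm
        omega
    · exact h
  have hnorm : Ideal.absNorm I ≤ K0 := by
    rw [← hFp, map_multiset_prod]
    have h3 : ∀ x ∈ F.map Ideal.absNorm, x ≤ T := by
      intro x hx
      rw [Multiset.mem_map] at hx
      obtain ⟨P, hP, rfl⟩ := hx
      obtain ⟨p1, p2, p3⟩ := hmemF P hP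
      exact (hv P p1 p2 p3).le
    refine (Multiset.prod_le_pow_card _ _ h3).trans ?_
    rw [Multiset.card_map]
    exact Nat.pow_le_pow_right hT1 hcardF
  rw [hI, Ideal.absNorm_span_singleton] at hnorm
  refine c2 (Algebra.norm ℤ (elt B v)).natAbs (mem_range.2 (by omega)) ?_
  show MvPolynomial.eval v _ = 0
  rw [map_sub, map_pow, hN, MvPolynomial.eval_C, Int.natAbs_sq, sub_self]

variable {ι : Type} [Fintype ι]

/-- **A simple prime factor.** For almost all pairs of integers the first one has a simple prime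
factor of large norm which does not divide the second one. -/
theorem simple_prime {i1 i2 : ι} (hi : i1 ≠ i2) (T : ℕ) : D0 {x : ι × J → ℤ |
    ¬ ∃ P : Ideal (𝓞 k), P.IsPrime ∧ T ≤ Ideal.absNorm P ∧ (elt B fun t => x (i1, t)) ∈ P ∧
      (elt B fun t => x (i1, t)) ∉ P ^ 2 ∧ (elt B fun t => x (i2, t)) ∉ P} := by
  classical
  obtain ⟨j0⟩ : Nonempty J := by
    rw [← Fintype.card_pos_iff, card_J B]
    exact Module.finrank_pos
  intro ε hε
  obtain ⟨T1, h1⟩ := bad1 B (show (0 : ℝ) < ε / 4 by positivity)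
  obtain ⟨T2, h2⟩ := bad2 B (show (0 : ℝ) < ε / 4 by positivity)
  have g1 := UD_pull (by positivity) h1 (fun t : J => (i1, t)) fun a b h => (Prod.ext_iff.1 h).2
  have g2 := UD_pull (by positivity) h2 (fun q : Fin 2 × J => (((if q.1 = 0 then i1 else i2), q.2) :
    ι × J)) (by
      rintro ⟨a, s⟩ ⟨b, t⟩ h
      have e1 := (Prod.ext_iff.1 h).1
      have e2 : s = t := (Prod.ext_iff.1 h).2
      subst e2
      fin_cases a <;> fin_cases b <;> simp at e1 ⊢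
      · exact hi e1
      · exact hi e1.symm)
  have g3 := D0_pull (bad4 B (max T (max T1 T2))) (fun t : J => (i1, t)) fun a b h =>
    (Prod.ext_iff.1 h).2
  have g4 : D0 {x : ι × J → ℤ | MvPolynomial.eval x (MvPolynomial.X (i1, j0)) = 0} :=
    zero _ (MvPolynomial.X_ne_zero _)
  have g5 := (g1.union g2).union ((g3.union g4) (ε / 2) (by positivity))
  have e : ε / 4 + ε / 4 + ε / 2 = ε := by ring
  rw [e] at g5
  refine g5.mono ?_
  intro x hx
  by_contra hcon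
  apply hx
  simp only [Set.mem_union, not_or, Set.mem_setOf_eq] at hcon
  obtain ⟨⟨k1, k2⟩, k3, k4⟩ := hcon
  have hV : (elt B fun t => x (i1, t)) ≠ 0 := by
    intro h0
    have h3 : kv B x i1 ≠ 0 := kv_ne B (j := j0) (by
      intro h5
      apply k4
      rw [MvPolynomial.eval_X]
      exact h5)
    apply h3
    rw [kv, h0, map_zero]
  obtain ⟨P, hP, hP0, hPm, hPT⟩ : ∃ P : Ideal (𝓞 k), P.IsPrime ∧ P ≠ ⊥ ∧
      (elt B fun t => x (i1, t)) ∈ P ∧ max T (max T1 T2) ≤ Ideal.absNorm P := by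
    by_contra hc
    apply k3
    refine ⟨hV, fun P hP hP0 hPm => ?_⟩
    by_contra h3
    exact hc ⟨P, hP, hP0, hPm, not_lt.1 h3⟩
  refine ⟨P, hP, (le_max_left _ _).trans hPT, hPm, ?_, ?_⟩
  · intro h3
    exact k1 ⟨P, hP, hP0, ((le_max_left _ _).trans (le_max_right _ _)).trans hPT, hV, h3⟩
  · intro h3
    apply k2
    refine ⟨P, hP, hP0, ((le_max_right _ _).trans (le_max_right _ _)).trans hPT, ?_, ?_, ?_⟩
    · simpa using hV
    · simpa using hPm
    · simpa using h3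

end nf

end Pool.Agent.R939.PP
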