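import Pool.Agent.R939.PP.Star
import Pool.Agent.R939.PP.Sq2

/-!
# Almost all twists, all the monic integral base changes at the same time
-/

set_option autoImplicit false
set_option linter.all false

namespace Pool.Agent.R939.PP

open Polynomial NumberField Pool.Agent.R939.EI Pool.Agent.R939.HI Pool.Agent.W275.UB
open Pool.Agent.TH115.GD Finset Pool.Agent.R939.KM

/-- The Tate conjecture at 2 for the quadratic twist by `D` of `y² = x (x² + a x + b)`, for all its
quadratic twists by constants and for all the base changes by polynomials `h` of odd degree such that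
the irreducible divisors of `b (a² - 4 b)` remain irreducible after the substitution `t ↦ h(t)`, and such
that either `h` is monic with integral coefficients or the irreducible divisors of `D` remain
irreducible after `t ↦ h(t)`. -/
def TateTM (k' K F : Type) {k : Type} [Field k] [NumberField k] [Field k'] [Field K]
    [Algebra k[X] K] [Field F] [Algebra k'[X] F] [IsFractionRing k'[X] F] [Algebra K F]
    (a b D : k[X]) : Prop :=
  ∀ (c : k) (h : k[X]), c ≠ 0 → Odd h.natDegree →
    (∀ π : k[X], Irreducible π → π ∣ b * (a ^ 2 - 4 * b) → Irreducible (π.comp h)) →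
    ((∃ g : (𝓞 k)[X], g.Monic ∧ h = g.map (algebraMap (𝓞 k) k)) ∨
      ∀ π : k[X], Irreducible π → π ∣ D → Irreducible (π.comp h)) →
    TateAtTwo (F := F) k' (crvT (algebraMap k[X] K ((C c * (a * D)).comp h))
      (algebraMap k[X] K ((C (c ^ 2) * (b * D ^ 2)).comp h)))

section nf

variable {k : Type} [Field k] [NumberField k] {J : Type} [Fintype J] (B : Module.Basis J ℤ (𝓞 k))
  {u : ℕ} {n : Fin u → ℕ}

/-- All the compositions with a monic integral polynomial are irreducible. -/
def AllIrr (f : k[X]) : Prop := Irreducible f ∧ ∀ g : (𝓞 k)[X], g.Monic → g.natDegree ≠ 0 →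
  Irreducible (f.comp (g.map (algebraMap (𝓞 k) k)))

/-- **Almost all polynomials remain irreducible after all the monic integral substitutions.** -/
theorem dens_allIrr (l : Fin u) (hn : 1 ≤ n l) : D0 {x : (Σ l : Fin u, Fin (n l + 1)) × J → ℤ |
    ¬ AllIrr (polA fun j => kv B x ⟨l, j⟩)} := by
  classical
  obtain ⟨j0⟩ : Nonempty J := by
    rw [← Fintype.card_pos_iff, card_J B]
    exact Module.finrank_pos
  have h1 : D0 (RootSq B (polA fun j => (MvPolynomial.X (⟨l, j⟩ : Σ l : Fin u, Fin (n l + 1)) :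
      MvPolynomial (Σ l : Fin u, Fin (n l + 1)) ℤ)) 0 (n l - 1)) := by
    refine dens_root B hn (k := 1) le_rfl (by omega) (polA_natDegree _) ?_
    intro p hp hp2
    let a : (Σ l : Fin u, Fin (n l + 1)) → ℤ := fun i => (X ^ (n i.1) + C (p : ℤ) : ℤ[X]).coeff (i.2 : ℕ)
    have h1 : (polA fun j => (MvPolynomial.X (⟨l, j⟩ : Σ l : Fin u, Fin (n l + 1)) :
      MvPolynomial (Σ l : Fin u, Fin (n l + 1)) ℤ)).map (av a) = X ^ (n l) + C (p : ℤ) := by
      rw [polA_map]
      simp only [av_X]
      show (polA fun j : Fin (n l + 1) => (X ^ (n l) + C (p : ℤ) : ℤ[X]).coeff (j : ℕ)) = _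
      refine polA_of ?_
      refine (natDegree_add_le _ _).trans (max_le ?_ ?_)
      · exact natDegree_X_pow_le _
      · rw [natDegree_C]
        exact Nat.zero_le _
    refine ⟨a, 1, isCoprime_one_left, ?_, ?_, ?_⟩
    · rw [h1, coeff_add, coeff_X_pow, coeff_C, if_neg (by omega), if_pos rfl]
      ring
    · rw [h1, coeff_add, coeff_X_pow, if_pos rfl, coeff_C, if_neg (by omega), add_zero]
      exact isCoprime_one_left
    · intro j hj0 hjN
      rw [h1, coeff_add, coeff_X_pow, if_neg hjN, coeff_C, if_neg hj0, add_zero]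
  have hne : (⟨l, Fin.last (n l)⟩ : Σ l : Fin u, Fin (n l + 1)) ≠ ⟨l, 0⟩ := by
    intro h
    have h2 := (Sigma.mk.inj_iff.1 h).2
    have h3 := congrArg Fin.val (eq_of_heq h2)
    rw [Fin.val_last] at h3
    simp at h3
    omega
  have h2 := simple_prime B hne 0
  have h3 : D0 {x : (Σ l : Fin u, Fin (n l + 1)) × J → ℤ |
      MvPolynomial.eval x (MvPolynomial.X (⟨l, Fin.last (n l)⟩, j0)) = 0} :=
    zero _ (MvPolynomial.X_ne_zero _)
  intro ε hε
  refine (((h1.union h2).union h3) ε hε).mono ?_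
  intro x hx
  by_contra hcon
  apply hx
  simp only [Set.mem_union, not_or] at hcon
  obtain ⟨⟨k1, k2⟩, k3⟩ := hcon
  have hlead : IsUnit (kv B x ⟨l, Fin.last (n l)⟩) := by
    refine isUnit_iff_ne_zero.2 (kv_ne B (j := j0) ?_)
    intro h0
    apply k3
    show MvPolynomial.eval x (MvPolynomial.X _) = 0
    rw [MvPolynomial.eval_X]
    exact h0
  have hdeg := lead_polA (c := fun j => kv B x ⟨l, j⟩) hlead
  set D := polA fun j => kv B x ⟨l, j⟩ with hD
  have hirr : Irreducible D := by
    refine irr_of_no_small (N := n l - 1) ?_ ?_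
    · rw [hdeg.1]
      omega
    · intro f hf hfd hfdv
      refine not_rootSq B k1 hf hfd ?_ 0 ?_
      · rw [polA_map]
        simp only [av_X]
        exact hfdv
      · rw [Polynomial.map_zero, zero_pow two_ne_zero, sub_zero]
        exact dvd_zero _
  refine ⟨hirr, fun g hg hgd => ?_⟩
  -- the integral model
  set f : (𝓞 k)[X] := polA fun j : Fin (n l + 1) => elt B fun t => x (⟨l, j⟩, t) with hf
  have hfm : f.map (algebraMap (𝓞 k) k) = D := by
    rw [hf, polA_map]
    rfl
  have hinj : Function.Injective (algebraMap (𝓞 k) k) := FaithfulSMul.algebraMap_injective (𝓞 k) k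
  have hfl : f.leadingCoeff = elt B fun t => x (⟨l, Fin.last (n l)⟩, t) := by
    apply hinj
    rw [← leadingCoeff_map_of_injective hinj, hfm, hdeg.2]
    rfl
  have hf0 : f.coeff 0 = elt B fun t => x (⟨l, 0⟩, t) :=
    coeff_polA (fun j : Fin (n l + 1) => elt B fun t => x (⟨l, j⟩, t)) 0
  obtain ⟨P, hP, -, hP1, hP2, hP3⟩ : ∃ P : Ideal (𝓞 k), P.IsPrime ∧ 0 ≤ Ideal.absNorm P ∧
      (elt B fun t => x (⟨l, Fin.last (n l)⟩, t)) ∈ P ∧
      (elt B fun t => x (⟨l, Fin.last (n l)⟩, t)) ∉ P ^ 2 ∧
      (elt B fun t => x (⟨l, 0⟩, t)) ∉ P := by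
    by_contra h
    exact k2 h
  have key := star (f := f) (h := g) (by rw [hfm]; exact hirr) hP (by rw [hfl]; exact hP1)
    (by rw [hfl]; exact hP2) (j := 0) (by rw [hf0]; exact hP3) hg hgd
  rw [hfm] at key
  exact key

end nf

section main

variable {k k' K F : Type} [Field k] [Field k'] [Algebra k k'] [Field K] [Algebra k[X] K]
    [Field F] [Algebra k'[X] F] [IsFractionRing k'[X] F] [Algebra K F]

/-- **Almost all twists, all the monic integral base changes.** -/
theorem mon_twists [NumberField k] (hT : IsTower k k' K F) {J : Type} [Fintype J]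
    (B : Module.Basis J ℤ (𝓞 k)) {a b : k[X]} (hNb : NotNorm b) (hNd : NotNorm (a ^ 2 - 4 * b))
    (hO : OnlyTrivial a b) (hO' : OnlyTrivial (-2 * a) (a ^ 2 - 4 * b)) {u : ℕ} {n : Fin u → ℕ}
    (hn : ∀ l, 1 ≤ n l) {η : ℝ} (hη : 0 < η) :
    ∃ H0 : ℕ, ∀ H : ℕ, H0 ≤ H →
      (({x : (l : Fin u) → Fin (n l + 1) → 𝓞 k | (∀ l j t, |B.repr (x l j) t| ≤ (H : ℤ)) ∧
        ¬ TateTM k' K F a b (∏ l, polA fun j => algebraMap (𝓞 k) k (x l j))}.ncard : ℕ) : ℝ) ≤
        η * (2 * H + 1) ^ (Fintype.card J * ∑ l, (n l + 1)) := by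
  classical
  have hb := HI.ne_sq_of_notNorm hNb
  have hd := HI.ne_sq_of_notNorm hNd
  have hb0 : b ≠ 0 := fun h => hb 0 0 (by rw [h]; simp)
  have hd0 : a ^ 2 - 4 * b ≠ 0 := fun h => hd 0 0 (by rw [h]; simp)
  have g1 : D0 (⋃ l ∈ (Finset.univ : Finset (Fin u)),
      {x : (Σ l : Fin u, Fin (n l + 1)) × J → ℤ | ¬ AllIrr (polA fun j => kv B x ⟨l, j⟩)}) :=
    D0.biUnion _ _ fun l _ => dens_allIrr B l (hn l)
  obtain ⟨H0, hH⟩ := ((dens_inert B hb hd hn).union g1) η hη
  refine ⟨H0, fun H hHH => ?_⟩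
  have h1 := hH H hHH
  have hcard : Fintype.card ((Σ l : Fin u, Fin (n l + 1)) × J) =
      Fintype.card J * ∑ l, (n l + 1) := by
    rw [Fintype.card_prod, Fintype.card_sigma, Nat.mul_comm]
    simp
  rw [hcard] at h1
  refine le_trans ?_ h1
  let φ : ((l : Fin u) → Fin (n l + 1) → 𝓞 k) → ((Σ l : Fin u, Fin (n l + 1)) × J → ℤ) :=
    fun y o => B.repr (y o.1.1 o.1.2) o.2
  have hkv : ∀ y (o : Σ l : Fin u, Fin (n l + 1)), kv B (φ y) o =
      algebraMap (𝓞 k) k (y o.1 o.2) := by
    intro y o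
    show algebraMap (𝓞 k) k (elt B fun j => B.repr (y o.1 o.2) j) = _
    rw [← basis_elt B]
  have hinj : Function.Injective φ := by
    intro y z hyz
    funext l j
    apply FaithfulSMul.algebraMap_injective (𝓞 k) k
    have h3 := hkv y ⟨l, j⟩
    rw [hyz, hkv z ⟨l, j⟩] at h3
    exact h3.symm
  have h4 : (Set.ncard {x : (l : Fin u) → Fin (n l + 1) → 𝓞 k |
      (∀ l j t, |B.repr (x l j) t| ≤ (H : ℤ)) ∧
        ¬ TateTM k' K F a b (∏ l, polA fun j => algebraMap (𝓞 k) k (x l j))}) ≤
      Set.ncard {v : (Σ l : Fin u, Fin (n l + 1)) × J → ℤ |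
        v ∈ ({x : (Σ l : Fin u, Fin (n l + 1)) × J → ℤ |
          ¬ InertIn a b (∏ l, polA fun j => kv B x ⟨l, j⟩)} ∪
          ⋃ l ∈ (Finset.univ : Finset (Fin u)),
            {x : (Σ l : Fin u, Fin (n l + 1)) × J → ℤ |
              ¬ AllIrr (polA fun j => kv B x ⟨l, j⟩)}) ∧ ∀ i, |v i| ≤ (H : ℤ)} := by
    rw [← Set.ncard_image_of_injective _ hinj]
    refine Set.ncard_le_ncard ?_ (box_fin _ H)
    rintro _ ⟨y, ⟨b1, hbad⟩, rfl⟩
    refine ⟨?_, ?_⟩
    · by_contra hcon
      simp only [Set.mem_union, not_or, Set.mem_iUnion, exists_prop, not_exists, not_and,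
        Finset.mem_univ, forall_true_left] at hcon
      obtain ⟨k1, k2⟩ := hcon
      have hin : InertIn a b (∏ l, polA fun j => kv B (φ y) ⟨l, j⟩) := by
        by_contra h5
        exact k1 h5
      have hall : ∀ l : Fin u, AllIrr (polA fun j => kv B (φ y) ⟨l, j⟩) := by
        intro l
        by_contra h5
        exact k2 l h5
      apply hbad
      simp only [hkv] at hin hall
      intro c h hc hodd hi hcase
      refine twist_main hT two_ne_zero hb0 hd0 hNb hNd hO hO' hin hc hodd ?_
      intro π hπ hdv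
      have h3 : Irreducible (π.comp h) := by
        rcases hπ.prime.dvd_or_dvd hdv with h8 | h8
        · exact hi π hπ h8
        · rcases hcase with ⟨g, hg, rfl⟩ | h9
          · obtain ⟨l, -, hl⟩ := (hπ.prime.dvd_finsetProd_iff _).1 h8
            have has : Associated (polA fun j => algebraMap (𝓞 k) k (y l j)) π :=
              (hπ.associated_of_dvd (hall l).1 hl).symm
            have hgd : g.natDegree ≠ 0 := by
              intro h0
              rw [hg.natDegree_map, h0] at hodd
              exact absurd hodd (by decide)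
            have h10 := (hall l).2 g hg hgd
            obtain ⟨w, hw⟩ := has
            rw [← hw, mul_comp]
            obtain ⟨c0, hc0, hc0'⟩ := Polynomial.isUnit_iff.1 w.isUnit
            rw [← hc0', C_comp]
            exact (irreducible_mul_isUnit (isUnit_C.2 hc0)).2 h10
          · exact h9 π hπ h8
      exact ⟨h3, h3.separable⟩
    · rintro ⟨⟨l, j⟩, t⟩
      exact b1 l j t
  exact_mod_cast h4

end main

end Pool.Agent.R939.PP
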