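import Pool.Agent.R939.PP.Mon
import Pool.Agent.R939.PP.All

/-!
# Almost all surfaces, all the monic integral base changes at the same time
-/

set_option autoImplicit false
set_option linter.all false

namespace Pool.Agent.R939.PP

open Polynomial NumberField Pool.Agent.R939.EI Pool.Agent.R939.HI Pool.Agent.W275.UB
open Pool.Agent.TH115.GD Finset Pool.Agent.R939.KM

section nf

variable {k : Type} [Field k] [NumberField k] {J : Type} [Fintype J] (B : Module.Basis J ℤ (𝓞 k))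
  {ι : Type} [Fintype ι]

theorem bad2_all (i1 : ι) (Q : Finset ι) (hQ : i1 ∉ Q) : ∀ {ε : ℝ}, 0 < ε → ∃ T0 : ℕ,
    UD ε {x : ι × J → ℤ | ∃ P : Ideal (𝓞 k), P.IsPrime ∧ P ≠ ⊥ ∧ T0 ≤ Ideal.absNorm P ∧
      (elt B fun t => x (i1, t)) ≠ 0 ∧ (elt B fun t => x (i1, t)) ∈ P ∧
        ∃ j ∈ Q, (elt B fun t => x (j, t)) ∈ P} := by
  classical
  induction Q using Finset.induction_on with
  | empty =>
    intro ε hε
    refine ⟨0, (D0.empty ε hε).mono ?_⟩
    rintro x ⟨P, -, -, -, -, -, j, hj, -⟩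
    exact absurd hj (notMem_empty _)
  | insert j Q hj ih =>
    intro ε hε
    have hne : i1 ≠ j := fun h => hQ (h ▸ mem_insert_self _ _)
    obtain ⟨T1, h1⟩ := ih (fun h => hQ (mem_insert_of_mem h)) (show (0 : ℝ) < ε / 2 by positivity)
    obtain ⟨T2, h2⟩ := bad2 B (show (0 : ℝ) < ε / 2 by positivity)
    have g2 := UD_pull (by positivity) h2 (fun q : Fin 2 × J => (((if q.1 = 0 then i1 else j), q.2) :
      ι × J)) (by
        rintro ⟨a, s⟩ ⟨b, t⟩ h
        have e1 := (Prod.ext_iff.1 h).1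
        have e2 : s = t := (Prod.ext_iff.1 h).2
        subst e2
        fin_cases a <;> fin_cases b <;> simp at e1 ⊢
        · exact hne e1
        · exact hne e1.symm)
    have h3 := h1.union g2
    rw [add_halves] at h3
    refine ⟨max T1 T2, h3.mono ?_⟩
    rintro x ⟨P, hP, hP0, hPT, hV0, hV, i, hi, hiP⟩
    rcases mem_insert.1 hi with rfl | hi
    · right
      refine ⟨P, hP, hP0, (le_max_right _ _).trans hPT, ?_, ?_, ?_⟩
      · simpa using hV0
      · simpa using hV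
      · simpa using hiP
    · exact Or.inl ⟨P, hP, hP0, (le_max_left _ _).trans hPT, hV0, hV, i, hi, hiP⟩

/-- **A simple prime factor** which does not divide finitely many other integers. -/
theorem simple_prime_all (i1 : ι) (Q : Finset ι) (hQ : i1 ∉ Q) (T : ℕ) : D0 {x : ι × J → ℤ |
    ¬ ∃ P : Ideal (𝓞 k), P.IsPrime ∧ T ≤ Ideal.absNorm P ∧ (elt B fun t => x (i1, t)) ∈ P ∧
      (elt B fun t => x (i1, t)) ∉ P ^ 2 ∧ ∀ j ∈ Q, (elt B fun t => x (j, t)) ∉ P} := by
  classical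
  obtain ⟨j0⟩ : Nonempty J := by
    rw [← Fintype.card_pos_iff, card_J B]
    exact Module.finrank_pos
  intro ε hε
  obtain ⟨T1, h1⟩ := bad1 B (show (0 : ℝ) < ε / 4 by positivity)
  obtain ⟨T2, g2⟩ := bad2_all B i1 Q hQ (show (0 : ℝ) < ε / 4 by positivity)
  have g1 := UD_pull (by positivity) h1 (fun t : J => (i1, t)) fun a b h => (Prod.ext_iff.1 h).2
  have g3 := D0_pull (bad4 B (max T (max T1 T2))) (fun t : J => (i1, t)) fun a b h =>
    (Prod.ext_iff.1 h).2
  have g4 : D0 {x : ι × J → ℤ | MvPolynomial.eval x (MvPolynomial.X (i1, j0)) = 0} :=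
    zero _ (MvPolynomial.X_ne_zero _)
  have g5 := (g1.union g2).union ((g3.union g4) (ε / 2) (by positivity))
  have e : ε / 4 + ε / 4 + ε / 2 = ε := by ring
  rw [e] at g5
  refine g5.mono ?_
  intro x hx
  by_contra hcon
  apply hx
  simp only [Set.mem_union, not_or, Set.mem_setOf_eq] at hcon
  obtain ⟨⟨k1, k2⟩, k3, k4⟩ := hcon
  have hV : (elt B fun t => x (i1, t)) ≠ 0 := by
    intro h0
    have h3 : kv B x i1 ≠ 0 := kv_ne B (j := j0) (by
      intro h5
      apply k4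
      rw [MvPolynomial.eval_X]
      exact h5)
    apply h3
    rw [kv, h0, map_zero]
  obtain ⟨P, hP, hP0, hPm, hPT⟩ : ∃ P : Ideal (𝓞 k), P.IsPrime ∧ P ≠ ⊥ ∧
      (elt B fun t => x (i1, t)) ∈ P ∧ max T (max T1 T2) ≤ Ideal.absNorm P := by
    by_contra hc
    apply k3
    refine ⟨hV, fun P hP hP0 hPm => ?_⟩
    by_contra h3
    exact hc ⟨P, hP, hP0, hPm, not_lt.1 h3⟩
  refine ⟨P, hP, (le_max_left _ _).trans hPT, hPm, ?_, ?_⟩
  · intro h3
    exact k1 ⟨P, hP, hP0, ((le_max_left _ _).trans (le_max_right _ _)).trans hPT, hV, h3⟩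
  · intro j hj h3
    exact k2 ⟨P, hP, hP0, ((le_max_right _ _).trans (le_max_right _ _)).trans hPT, hV, hPm, j, hj,
      h3⟩

/-- general index set -/
theorem dens_allIrr' {N : ℕ} (e : Fin (N + 1) → ι) (he : Function.Injective e) (hN : 1 ≤ N) :
    D0 {x : ι × J → ℤ | ¬ AllIrr (polA fun j => kv B x (e j))} := by
  have h := dens_allIrr (u := 1) (n := fun _ => N) B 0 hN
  exact D0_pull h (fun q : (Σ l : Fin 1, Fin (N + 1)) × J => ((e q.1.2, q.2) : ι × J)) (by
    rintro ⟨⟨l, j⟩, t⟩ ⟨⟨l', j'⟩, t'⟩ h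
    have h1 := (Prod.ext_iff.1 h).1
    have h2 : t = t' := (Prod.ext_iff.1 h).2
    have h3 : j = j' := he h1
    have h4 : l = l' := Subsingleton.elim _ _
    subst h2
    subst h3
    subst h4
    rfl)

variable {r s u : ℕ} {m : Fin s → ℕ} {n : Fin u → ℕ}

theorem natDegree_polP_ge {R : Type} [CommRing R] [IsDomain R] (i0 : Fin s)
    (β : (i : Fin s) → Fin (m i + 1) → R) (j0 : Fin (m i0 + 1)) (hj0 : (j0 : ℕ) = m i0 - 1)
    (h0 : β i0 j0 ≠ 0) (h1 : ∀ i, i ≠ i0 → β i (Fin.last (m i)) ≠ 0) :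
    ∑ i, m i - 1 ≤ (polP β).natDegree := by
  classical
  have hne : ∀ i, polA (β i) ≠ 0 := by
    intro i h
    by_cases hi : i = i0
    · subst hi
      apply h0
      rw [← coeff_polA (β i) j0, h, coeff_zero]
    · apply h1 i hi
      rw [← coeff_polA (β i) (Fin.last (m i)), h, coeff_zero]
  unfold polP
  rw [natDegree_prod _ _ fun i _ => hne i]
  rw [← Finset.add_sum_erase _ _ (Finset.mem_univ i0), ← Finset.add_sum_erase _ _
    (Finset.mem_univ i0)]
  have h2 : m i0 - 1 ≤ (polA (β i0)).natDegree := by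
    refine le_natDegree_of_ne_zero ?_
    rw [← hj0, coeff_polA]
    exact h0
  have h3 : ∑ i ∈ Finset.univ.erase i0, m i ≤
      ∑ i ∈ Finset.univ.erase i0, (polA (β i)).natDegree := by
    refine Finset.sum_le_sum fun i hi => le_natDegree_of_ne_zero ?_
    have h4 := coeff_polA (β i) (Fin.last (m i))
    rw [Fin.val_last] at h4
    rw [h4]
    exact h1 i (Finset.mem_erase.1 hi).1
  omega

/-- the discriminant remains irreducible after all the monic integral substitutions -/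
theorem dens_allIrrE (hm : ∀ i, 1 ≤ m i) (i0 : Fin s) (hM : 2 * r + 2 ≤ ∑ i, m i) :
    D0 {x : Ix r m n × J → ℤ | Irreducible (polE (aV (kv B x)) (bV (kv B x))) ∧
      ¬ AllIrr (polE (aV (kv B x)) (bV (kv B x)))} := by
  classical
  have hm0 := hm i0
  let j1 : Fin (m i0 + 1) := ⟨m i0 - 1, by omega⟩
  let iV : Ix r m n := Sum.inl (Sum.inr ⟨i0, Fin.last (m i0)⟩)
  let Q : Finset (Ix r m n) := insert (Sum.inl (Sum.inr ⟨i0, j1⟩))
    ((Finset.univ.erase i0).image fun i => (Sum.inl (Sum.inr ⟨i, Fin.last (m i)⟩) : Ix r m n))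
  have hQ : iV ∉ Q := by
    intro h
    rcases mem_insert.1 h with h | h
    · have h1 := Sum.inr_injective (Sum.inl_injective h)
      have h2 := eq_of_heq (Sigma.mk.inj_iff.1 h1).2
      have h3 := congrArg Fin.val h2
      rw [Fin.val_last] at h3
      have h4 : ((j1 : Fin (m i0 + 1)) : ℕ) = m i0 - 1 := rfl
      omega
    · obtain ⟨i, hi, h1⟩ := mem_image.1 h
      have h2 := Sum.inr_injective (Sum.inl_injective h1)
      exact (mem_erase.1 hi).1 (Sigma.mk.inj_iff.1 h2).1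
  have h1 := simple_prime_all B iV Q hQ (4 ^ Module.finrank ℚ k + 1)
  intro ε hε
  refine (h1 ε hε).mono ?_
  rintro x ⟨hirr, hx⟩ hP
  apply hx
  obtain ⟨P, hP, hPT, hP1, hP2, hP3⟩ := hP
  refine ⟨hirr, fun g hg hgd => ?_⟩
  set α : Fin (r + 1) → 𝓞 k := fun j => elt B fun t => x (Sum.inl (Sum.inl j), t) with hα
  set β : (i : Fin s) → Fin (m i + 1) → 𝓞 k := fun i j =>
    elt B fun t => x (Sum.inl (Sum.inr ⟨i, j⟩), t) with hβ
  have hfm : (polE α β).map (algebraMap (𝓞 k) k) = polE (aV (kv B x)) (bV (kv B x)) := by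
    rw [polE_map]
    rfl
  have h4P : (4 : 𝓞 k) ∉ P := by
    intro h4
    have h5 : Ideal.absNorm P ∣ (Algebra.norm ℤ (4 : 𝓞 k)).natAbs := by
      rw [← Ideal.absNorm_span_singleton]
      exact map_dvd _ ((Ideal.dvd_span_singleton).2 h4)
    have h6 : Algebra.norm ℤ (4 : 𝓞 k) = 4 ^ Module.finrank ℚ k := by
      have h7 : (4 : 𝓞 k) = algebraMap ℤ (𝓞 k) 4 := by simp
      rw [h7, Algebra.norm_algebraMap, RingOfIntegers.rank]
    rw [h6, Int.natAbs_pow] at h5
    have h8 := Nat.le_of_dvd (pow_pos (by norm_num) _) h5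
    have h9 : (4 : ℤ).natAbs = 4 := rfl
    rw [h9] at h8
    omega
  have hb0 : β i0 j1 ∉ P := hP3 _ (mem_insert_self _ _)
  have hb1 : ∀ i, i ≠ i0 → β i (Fin.last (m i)) ∉ P := fun i hi =>
    hP3 _ (mem_insert_of_mem (mem_image.2 ⟨i, mem_erase.2 ⟨hi, mem_univ _⟩, rfl⟩))
  have hVP : β i0 (Fin.last (m i0)) ∈ P := hP1
  have hVP2 : β i0 (Fin.last (m i0)) ∉ P ^ 2 := hP2
  have hrest : (4 : 𝓞 k) * ∏ i ∈ Finset.univ.erase i0, β i (Fin.last (m i)) ∉ P := by
    intro h
    rcases hP.mem_or_mem h with h | h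
    · exact h4P h
    · obtain ⟨i, hi, h2⟩ := (hP.prod_mem_iff).1 h
      exact hb1 i (mem_erase.1 hi).1 h2
  have hcoe : (polE α β).coeff (∑ i, m i) = -((4 * ∏ i ∈ Finset.univ.erase i0,
      β i (Fin.last (m i))) * β i0 (Fin.last (m i0))) := by
    rw [coeff_top3 (by omega), ← Finset.prod_erase_mul _ _ (Finset.mem_univ i0)]
    ring
  have hcP : (polE α β).coeff (∑ i, m i) ∈ P := by
    rw [hcoe]
    exact P.neg_mem (P.mul_mem_left _ hVP)
  have hcP2 : (polE α β).coeff (∑ i, m i) ∉ P ^ 2 := by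
    rw [hcoe]
    intro h
    have h2 := (P ^ 2).neg_mem h
    rw [neg_neg] at h2
    rcases Ideal.IsPrime.mul_mem_pow P h2 with h3 | h3
    · exact hrest h3
    · exact hVP2 h3
  have hne : (polE α β).coeff (∑ i, m i) ≠ 0 := by
    intro h0
    apply hcP2
    rw [h0]
    exact Ideal.zero_mem _
  have hdeg : (polE α β).natDegree = ∑ i, m i :=
    le_antisymm (polE_deg (by omega) le_rfl _ _) (le_natDegree_of_ne_zero hne)
  have hlead : (polE α β).leadingCoeff = (polE α β).coeff (∑ i, m i) := by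
    rw [leadingCoeff, hdeg]
  obtain ⟨j, hj⟩ : ∃ j, (polE α β).coeff j ∉ P := by
    by_contra hc
    have h0 : (polE α β).map (Ideal.Quotient.mk P) = 0 := by
      ext j
      rw [coeff_map, coeff_zero, Ideal.Quotient.eq_zero_iff_mem]
      by_contra h
      exact hc ⟨j, h⟩
    haveI : IsDomain (𝓞 k ⧸ P) := Ideal.Quotient.isDomain P
    rw [polE_map] at h0
    set α' : Fin (r + 1) → 𝓞 k ⧸ P := fun j => Ideal.Quotient.mk P (α j) with hα'
    set β' : (i : Fin s) → Fin (m i + 1) → 𝓞 k ⧸ P := fun i j => Ideal.Quotient.mk P (β i j) with hβ'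
    have h2 := natDegree_polP_ge i0 β' j1 rfl
      (by
        intro h
        exact hb0 (Ideal.Quotient.eq_zero_iff_mem.1 h))
      (fun i hi h => hb1 i hi (Ideal.Quotient.eq_zero_iff_mem.1 h))
    have h3 : polA α' ^ 2 = 4 * polP β' := sub_eq_zero.1 h0
    have e4 : (4 : (𝓞 k ⧸ P)[X]) = C 4 := by rw [map_ofNat]
    have h4 : (4 : 𝓞 k ⧸ P) ≠ 0 := by
      intro h
      apply h4P
      rw [← Ideal.Quotient.eq_zero_iff_mem, map_ofNat]
      exact h
    have h5 := congrArg Polynomial.natDegree h3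
    rw [e4, natDegree_C_mul h4] at h5
    have h6 : (polA α' ^ 2).natDegree ≤ 2 * r :=
      natDegree_pow_le.trans (Nat.mul_le_mul_left 2 (polA_natDegree α'))
    omega
  have key := star (f := polE α β) (h := g) (by rw [hfm]; exact hirr) hP
    (by rw [hlead]; exact hcP) (by rw [hlead]; exact hcP2) hj hg hgd
  rw [hfm] at key
  exact key

end nf

end Pool.Agent.R939.PP
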