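import Pool.Agent.R939.PP.Shal
import Pool.Agent.R939.HI.Asm2

/-!
# Values of two polynomials whose quotient is rarely a perfect power
-/

set_option autoImplicit false
set_option linter.all false

namespace Pool.Agent.R939.PP

open Polynomial NumberField Pool.Agent.R939.EI Pool.Agent.R939.HI Pool.Agent.W275.UB
open Pool.Agent.TH115.GD Finset

section nf

variable {k : Type} [Field k] [NumberField k] {J : Type} [Fintype J] (B : Module.Basis J ℤ (𝓞 k))
  {ι : Type} [Fintype ι]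

theorem val_kv (u : MvPolynomial ι ℤ) (x : ι × J → ℤ) :
    algebraMap (𝓞 k) k (val B u x) = av (kv B x) u := by
  rw [av_aeval, val]
  have h := MvPolynomial.map_aeval (fun i => elt B fun t => x (i, t)) (algebraMap (𝓞 k) k) u
  rw [h]
  rw [MvPolynomial.aeval_def, MvPolynomial.coe_eval₂Hom]
  congr 1

/-- the polynomial `v X ^ ℓ - u` -/
noncomputable def polPow' (u v : MvPolynomial ι ℤ) (ℓ : ℕ) : (MvPolynomial ι ℤ)[X] :=
  C v * X ^ ℓ - C u

theorem polPow'_map {R : Type} [CommRing R] (u v : MvPolynomial ι ℤ) (ℓ : ℕ) (x : ι → R) :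
    (polPow' u v ℓ).map (av x) = C (av x v) * X ^ ℓ - C (av x u) := by
  rw [polPow', Polynomial.map_sub, Polynomial.map_mul, map_C, map_C, Polynomial.map_pow, map_X]

theorem dens_pow' {u v : MvPolynomial ι ℤ}
    (hE : ∀ p : ℕ, p.Prime → p ≠ 2 → ∃ a : ι → ℤ, av a u = (p : ℤ) * (p - 4) ∧
      (av a v = 1 ∨ av a v = -4)) {ℓ : ℕ} (hℓ : 2 ≤ ℓ) :
    D0 (RootSq B (polPow' u v ℓ) 0 1) := by
  classical
  refine dens_root B (N := ℓ) (by omega) (k := 1) le_rfl (by omega) ?_ ?_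
  · rw [polPow']
    refine (natDegree_sub_le _ _).trans (max_le ?_ ?_)
    · exact natDegree_C_mul_X_pow_le _ _
    · rw [natDegree_C]
      exact Nat.zero_le _
  intro p hp hp2
  obtain ⟨a, hu, hv⟩ := hE p hp hp2
  refine ⟨a, 4 - p, ?_, ?_, ?_, ?_⟩
  · obtain ⟨s, t, hst⟩ := cop4 hp hp2
    exact ⟨s, t + s, by linear_combination hst⟩
  · rw [polPow'_map, hu, coeff_sub, coeff_C_mul, coeff_X_pow, if_neg (by omega),
      coeff_C, if_pos rfl]
    ring
  · rw [polPow'_map, coeff_sub, coeff_C_mul, coeff_X_pow, if_pos rfl, coeff_C,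
      if_neg (by omega), sub_zero, mul_one]
    rcases hv with h | h
    · rw [h]
      exact isCoprime_one_left
    · rw [h]
      exact (cop4 hp hp2).neg_left
  · intro j hj0 hjN
    rw [polPow'_map, coeff_sub, coeff_C_mul, coeff_X_pow, if_neg hjN, coeff_C, if_neg hj0]
    ring

/-- **The quotient of the values is rarely a perfect power.** -/
theorem dens_perfect' {u v : MvPolynomial ι ℤ} (hU : Shal (val B u)) (hV : Shal (val B v))
    (hE : ∀ p : ℕ, p.Prime → p ≠ 2 → ∃ a : ι → ℤ, av a u = (p : ℤ) * (p - 4) ∧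
      (av a v = 1 ∨ av a v = -4)) : D0 {x : ι × J → ℤ |
    ∃ ℓ : ℕ, 2 ≤ ℓ ∧ ∃ z : k, algebraMap (𝓞 k) k (val B v x) * z ^ ℓ =
      algebraMap (𝓞 k) k (val B u x)} := by
  classical
  have hd1 : 1 ≤ Module.finrank ℚ k := Module.finrank_pos
  -- a special vector
  obtain ⟨a, hau, hav⟩ := hE 11 (by norm_num) (by norm_num)
  let y : ι × J → ℤ := fun q => B.repr ((a q.1 : ℤ) : 𝓞 k) q.2
  have hy : ∀ c : MvPolynomial ι ℤ, val B c y = ((av a c : ℤ) : 𝓞 k) := by
    intro c
    have h1 : (fun i => elt B fun t => y (i, t)) = fun i => ((a i : ℤ) : 𝓞 k) := by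
      funext i
      exact (basis_elt B ((a i : ℤ) : 𝓞 k)).symm
    rw [val, h1]
    have h2 := MvPolynomial.map_aeval a (Int.castRingHom (𝓞 k)) c
    rw [av_aeval]
    show _ = (Int.castRingHom (𝓞 k)) (MvPolynomial.aeval a c)
    rw [h2, MvPolynomial.aeval_def, MvPolynomial.coe_eval₂Hom]
    congr 1
  have hNI : ∀ z : ℤ, Algebra.norm ℤ ((z : ℤ) : 𝓞 k) = z ^ Module.finrank ℚ k := by
    intro z
    have h6 : ((z : ℤ) : 𝓞 k) = algebraMap ℤ (𝓞 k) z := by simp
    rw [h6, Algebra.norm_algebraMap, RingOfIntegers.rank]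
  have hnorm : (Algebra.norm ℤ (val B u y)) ^ 2 ≠ (Algebra.norm ℤ (val B v y)) ^ 2 := by
    rw [hy, hy, hNI, hNI, ← pow_mul, ← pow_mul, mul_comm _ 2, pow_mul, pow_mul, hau]
    intro h
    rcases hav with h1 | h1
    · rw [h1] at h
      have h2 := (pow_left_inj₀ (sq_nonneg _) (sq_nonneg _) (by omega : Module.finrank ℚ k ≠ 0)).1 h
      norm_num at h2
    · rw [h1] at h
      have h2 := (pow_left_inj₀ (sq_nonneg _) (sq_nonneg _) (by omega : Module.finrank ℚ k ≠ 0)).1 h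
      norm_num at h2
  have hu0 : val B u y ≠ 0 := by
    rw [hy, hau]
    norm_num
  have hv0 : val B v y ≠ 0 := by
    rw [hy]
    rcases hav with h1 | h1 <;> rw [h1] <;> norm_num
  intro ε hε
  obtain ⟨L, hL⟩ := hU (ε / 4) (by positivity)
  obtain ⟨L', hL'⟩ := hV (ε / 4) (by positivity)
  have h3 : D0 (⋃ ℓ ∈ Finset.Ico 2 (max L L'), RootSq B (polPow' u v ℓ) 0 1) :=
    D0.biUnion _ _ fun ℓ hℓ => dens_pow' B hE (Finset.mem_Ico.1 hℓ).1
  have h4 := val_norm B hnorm
  have h5 := val_zero B hu0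
  have h6 := val_zero B hv0
  have h7 := (((h3.union h4).union h5).union h6) (ε / 2) (by positivity)
  have h8 := (hL.union hL').union h7
  have e : ε / 4 + ε / 4 + ε / 2 = ε := by ring
  rw [e] at h8
  refine h8.mono ?_
  rintro x ⟨ℓ, hℓ, z, hz⟩
  by_contra hcon
  simp only [Set.mem_union, not_or, Set.mem_iUnion, exists_prop, not_exists, not_and] at hcon
  obtain ⟨⟨k1, k2⟩, ⟨⟨k3, k4⟩, k5⟩, k6⟩ := hcon
  have hU : val B u x ≠ 0 := k5
  have hV : val B v x ≠ 0 := k6
  rcases Nat.lt_or_ge ℓ (max L L') with hlt | hge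
  · refine not_rootSq B (k3 ℓ (Finset.mem_Ico.2 ⟨hℓ, hlt⟩)) (f := X - C z) (irreducible_X_sub_C z)
      (by rw [natDegree_X_sub_C]) ?_ 0 ?_
    · rw [polPow'_map, dvd_iff_isRoot, IsRoot, eval_sub, eval_mul, eval_C, eval_pow, eval_X, eval_C,
        ← val_kv, ← val_kv, hz, sub_self]
    · rw [Polynomial.map_zero, zero_pow two_ne_zero, sub_zero]
      exact dvd_zero _
  · apply k4
    refine norm_eq_of_pow hU hV hge ?_ ?_ hz
    · intro P hP hP0 hmem
      exact k1 ⟨hU, P, hP, hP0, Ideal.pow_le_pow_right (le_max_left _ _) hmem⟩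
    · intro P hP hP0 hmem
      exact k2 ⟨hV, P, hP, hP0, Ideal.pow_le_pow_right (le_max_right _ _) hmem⟩

/-- **The values of `X² - 4 Y₁ ⋯ Y_s`.** -/
theorem shal_quad {s : ℕ} (i0 : Fin s) (ja : ι) (β : Fin s → ι) (hβ : Function.Injective β)
    (hja : ∀ i, β i ≠ ja) : Shal (val B (MvPolynomial.X ja ^ 2 - 4 *
      ∏ i, (MvPolynomial.X (β i) : MvPolynomial ι ℤ))) := by
  classical
  set c : MvPolynomial ι ℤ := 4 * ∏ i ∈ Finset.univ.erase i0,
    (MvPolynomial.X (β i) : MvPolynomial ι ℤ) with hc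
  have e1 : (MvPolynomial.X ja ^ 2 - 4 * ∏ i, (MvPolynomial.X (β i) : MvPolynomial ι ℤ)) =
      MvPolynomial.X ja ^ 2 - c * MvPolynomial.X (β i0) := by
    rw [← Finset.prod_erase_mul _ _ (Finset.mem_univ i0), hc, mul_assoc]
  have hcv : ∀ x, val B c x = 4 * ∏ i ∈ Finset.univ.erase i0, elt B fun t => x (β i, t) := by
    intro x
    rw [hc, val, map_mul, map_prod, map_ofNat]
    simp only [MvPolynomial.aeval_X]
  have e2 : val B (MvPolynomial.X ja ^ 2 - 4 * ∏ i, (MvPolynomial.X (β i) : MvPolynomial ι ℤ)) =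
      fun x => (elt B fun t => x (ja, t)) ^ 2 - val B c x * elt B fun t => x (β i0, t) := by
    funext x
    rw [e1, val_sub, val_mul, val_X, pow_two, val_mul, val_X, pow_two]
  obtain ⟨C0, S, hb⟩ := normB B (MvPolynomial.X ja ^ 2 - 4 *
      ∏ i, (MvPolynomial.X (β i) : MvPolynomial ι ℤ))
  rw [e2] at hb ⊢
  refine shal_lin B (β i0) (A := fun x => (elt B fun t => x (ja, t)) ^ 2) (C := val B c) ?_ ?_ ?_ ?_
    ⟨C0, S, hb⟩
  · intro x y hxy
    have h1 : (fun t => x (ja, t)) = fun t => y (ja, t) := by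
      funext t
      exact hxy (ja, t) fun h => hja i0 h.symm
    show (elt B fun t => x (ja, t)) ^ 2 = (elt B fun t => y (ja, t)) ^ 2
    rw [h1]
  · intro x y hxy
    rw [hcv, hcv]
    congr 1
    refine prod_congr rfl fun i hi => ?_
    have h1 : (fun t => x (β i, t)) = fun t => y (β i, t) := by
      funext t
      exact hxy (β i, t) fun h => (mem_erase.1 hi).1 (hβ h)
    rw [h1]
  · have h1 : val B c = fun x => (4 : 𝓞 k) * ∏ i ∈ Finset.univ.erase i0, elt B fun t => x (β i, t) :=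
      funext hcv
    rw [h1]
    exact shal_mul (shal_const 4) (shal_prod _ _ fun i _ => shal_coord B (β i))
  · refine val_zero B (y := fun q => B.repr (1 : 𝓞 k) q.2) ?_
    rw [hcv]
    have h1 : (elt B fun t => B.repr (1 : 𝓞 k) t) = 1 := (basis_elt B _).symm
    simp only [h1, prod_const_one, mul_one]
    norm_num

end nf

end Pool.Agent.R939.PP
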