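import Pool.Agent.R939.PP.Pow

/-!
# Values of polynomials at elements of the ring of integers, in coordinates
-/

set_option autoImplicit false
set_option linter.all false

namespace Pool.Agent.R939.PP

open Polynomial NumberField Pool.Agent.R939.EI Pool.Agent.R939.HI Pool.Agent.W275.UB
open Pool.Agent.TH115.GD Finset

section nf

variable {k : Type} [Field k] [NumberField k] {J : Type} [Fintype J] (B : Module.Basis J ℤ (𝓞 k))
  {ι : Type} [Fintype ι]

/-- the value of a polynomial -/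
noncomputable def val (u : MvPolynomial ι ℤ) (x : ι × J → ℤ) : 𝓞 k :=
  MvPolynomial.aeval (fun i => elt B fun t => x (i, t)) u

theorem val_X (i : ι) (x : ι × J → ℤ) : val B (MvPolynomial.X i) x = elt B fun t => x (i, t) := by
  rw [val, MvPolynomial.aeval_X]

theorem val_mul (u v : MvPolynomial ι ℤ) (x : ι × J → ℤ) :
    val B (u * v) x = val B u x * val B v x := by
  rw [val, map_mul]
  rfl

theorem val_sub (u v : MvPolynomial ι ℤ) (x : ι × J → ℤ) :
    val B (u - v) x = val B u x - val B v x := by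
  rw [val, map_sub]
  rfl

/-- the coordinates of the value are polynomials -/
theorem polR (u : MvPolynomial ι ℤ) : ∃ c : J → MvPolynomial (ι × J) ℤ, ∀ x t,
    MvPolynomial.eval x (c t) = B.repr (val B u x) t := by
  classical
  induction u using MvPolynomial.induction_on with
  | C a =>
    refine ⟨fun t => MvPolynomial.C (B.repr (a : 𝓞 k) t), fun x t => ?_⟩
    rw [MvPolynomial.eval_C, val, MvPolynomial.aeval_C]
    simp
  | add p q hp hq =>
    obtain ⟨c, hc⟩ := hp
    obtain ⟨c', hc'⟩ := hq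
    refine ⟨fun t => c t + c' t, fun x t => ?_⟩
    have e : val B (p + q) x = val B p x + val B q x := by
      rw [val, map_add]
      rfl
    rw [map_add, hc, hc', e, map_add, Finsupp.add_apply]
  | mul_X p i hp =>
    obtain ⟨c, hc⟩ := hp
    refine ⟨fun t => ∑ s, ∑ r, c s * MvPolynomial.X (i, r) *
      MvPolynomial.C (B.repr (B s * B r) t), fun x t => ?_⟩
    rw [val_mul, val_X, map_sum]
    have h1 : val B p x = ∑ s, (B.repr (val B p x) s) • B s := (B.sum_repr _).symm
    have h2 : val B p x * (elt B fun t => x (i, t)) =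
        ∑ s, ∑ r, ((B.repr (val B p x) s) * x (i, r)) • (B s * B r) := by
      conv_lhs => rw [h1]
      rw [elt, sum_mul]
      refine sum_congr rfl fun s _ => ?_
      rw [mul_sum]
      refine sum_congr rfl fun r _ => ?_
      rw [zsmul_eq_mul, zsmul_eq_mul]
      push_cast
      ring
    rw [h2, map_sum, Finsupp.finsetSum_apply]
    refine sum_congr rfl fun s _ => ?_
    rw [map_sum, map_sum, Finsupp.finsetSum_apply]
    refine sum_congr rfl fun r _ => ?_
    rw [map_mul, map_mul, MvPolynomial.eval_X, MvPolynomial.eval_C, hc, map_zsmul,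
      Finsupp.smul_apply, smul_eq_mul]

/-- the norm of the value is a polynomial -/
theorem polN (u : MvPolynomial ι ℤ) : ∃ c : MvPolynomial (ι × J) ℤ, ∀ x,
    MvPolynomial.eval x c = Algebra.norm ℤ (val B u x) := by
  classical
  obtain ⟨c, hc⟩ := polR B u
  obtain ⟨N, hN⟩ := norm_form B
  refine ⟨MvPolynomial.bind₁ c N, fun x => ?_⟩
  have h1 : MvPolynomial.eval x (MvPolynomial.bind₁ c N) =
      MvPolynomial.eval (fun t => MvPolynomial.eval x (c t)) N := by
    have h2 := MvPolynomial.eval₂Hom_bind₁ (RingHom.id ℤ) x c N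
    exact h2
  rw [h1, hN]
  congr 1
  simp only [hc]
  exact (basis_elt B _).symm

/-- a bound for the values of a polynomial -/
theorem polB {σ : Type} (c : MvPolynomial σ ℤ) : ∃ C S : ℕ, ∀ H : ℕ, 1 ≤ H → ∀ x : σ → ℤ,
    (∀ i, |x i| ≤ (H : ℤ)) → |MvPolynomial.eval x c| ≤ C * (H : ℤ) ^ S := by
  classical
  induction c using MvPolynomial.induction_on with
  | C a =>
    refine ⟨a.natAbs, 0, fun H hH x hx => ?_⟩
    rw [MvPolynomial.eval_C, pow_zero, mul_one, Int.abs_eq_natAbs]
  | add p q hp hq =>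
    obtain ⟨C, S, h⟩ := hp
    obtain ⟨C', S', h'⟩ := hq
    refine ⟨C + C', S + S', fun H hH x hx => ?_⟩
    rw [map_add]
    have hH1 : (1 : ℤ) ≤ H := by exact_mod_cast hH
    have h1 : (H : ℤ) ^ S ≤ (H : ℤ) ^ (S + S') := pow_le_pow_right₀ hH1 (by omega)
    have h2 : (H : ℤ) ^ S' ≤ (H : ℤ) ^ (S + S') := pow_le_pow_right₀ hH1 (by omega)
    calc |MvPolynomial.eval x p + MvPolynomial.eval x q| ≤
        |MvPolynomial.eval x p| + |MvPolynomial.eval x q| := abs_add_le _ _
      _ ≤ C * (H : ℤ) ^ S + C' * (H : ℤ) ^ S' := add_le_add (h H hH x hx) (h' H hH x hx)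
      _ ≤ C * (H : ℤ) ^ (S + S') + C' * (H : ℤ) ^ (S + S') :=
        add_le_add (mul_le_mul_of_nonneg_left h1 (by positivity))
          (mul_le_mul_of_nonneg_left h2 (by positivity))
      _ = ((C + C' : ℕ) : ℤ) * (H : ℤ) ^ (S + S') := by push_cast; ring
  | mul_X p i hp =>
    obtain ⟨C, S, h⟩ := hp
    refine ⟨C, S + 1, fun H hH x hx => ?_⟩
    rw [map_mul, MvPolynomial.eval_X, abs_mul, pow_succ, ← mul_assoc]
    exact mul_le_mul (h H hH x hx) (hx i) (abs_nonneg _) (by positivity)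

/-- a bound for the norms -/
theorem normB (u : MvPolynomial ι ℤ) : ∃ C S : ℕ, ∀ H : ℕ, 1 ≤ H → ∀ x : ι × J → ℤ,
    (∀ i, |x i| ≤ (H : ℤ)) → (Algebra.norm ℤ (val B u x)).natAbs ≤ C * H ^ S := by
  obtain ⟨c, hc⟩ := polN B u
  obtain ⟨C, S, h⟩ := polB c
  refine ⟨C, S, fun H hH x hx => ?_⟩
  have h1 := h H hH x hx
  rw [hc, Int.abs_eq_natAbs] at h1
  exact_mod_cast h1

/-- the value of a nonzero polynomial is rarely zero -/
theorem val_zero {u : MvPolynomial ι ℤ} {y : ι × J → ℤ} (hy : val B u y ≠ 0) :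
    D0 {x : ι × J → ℤ | val B u x = 0} := by
  obtain ⟨c, hc⟩ := polN B u
  have hc0 : c ≠ 0 := by
    rintro rfl
    have h1 := hc y
    rw [map_zero] at h1
    exact hy (Algebra.norm_eq_zero_iff.1 h1.symm)
  intro ε hε
  refine (zero c hc0 ε hε).mono ?_
  intro x hx
  show MvPolynomial.eval x c = 0
  rw [hc, show val B u x = 0 from hx, Algebra.norm_zero]

/-- the norms of two polynomials are rarely the same -/
theorem val_norm {u v : MvPolynomial ι ℤ} {y : ι × J → ℤ}
    (hy : (Algebra.norm ℤ (val B u y)) ^ 2 ≠ (Algebra.norm ℤ (val B v y)) ^ 2) :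
    D0 {x : ι × J → ℤ | (Algebra.norm ℤ (val B u x)) ^ 2 = (Algebra.norm ℤ (val B v x)) ^ 2} := by
  obtain ⟨c, hc⟩ := polN B u
  obtain ⟨c', hc'⟩ := polN B v
  have hc0 : c ^ 2 - c' ^ 2 ≠ 0 := by
    intro h0
    have h1 : MvPolynomial.eval y (c ^ 2 - c' ^ 2) = 0 := by rw [h0, map_zero]
    rw [map_sub, map_pow, map_pow, hc, hc'] at h1
    exact hy (sub_eq_zero.1 h1)
  intro ε hε
  refine (zero _ hc0 ε hε).mono ?_
  intro x hx
  show MvPolynomial.eval x (c ^ 2 - c' ^ 2) = 0
  rw [map_sub, map_pow, map_pow, hc, hc']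
  exact sub_eq_zero.2 hx

end nf

end Pool.Agent.R939.PP
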