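import Pool.Agent.R939.PP.Deep2

/-!
# The quotient of two coefficients is rarely a perfect power
-/

set_option autoImplicit false
set_option linter.all false

namespace Pool.Agent.R939.PP

open Polynomial NumberField Pool.Agent.R939.EI Pool.Agent.R939.HI Pool.Agent.W275.UB
open Pool.Agent.TH115.GD Finset

section pull

theorem UD_pull {α β : Type} [Fintype α] [Fintype β] {S : Set (α → ℤ)} {ε : ℝ} (hε : 0 ≤ ε)
    (h : UD ε S) (e : α → β) (he : Function.Injective e) :
    UD ε {x : β → ℤ | (fun i => x (e i)) ∈ S} := by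
  classical
  obtain ⟨H0, hH⟩ := h
  refine ⟨H0, fun H hHH => ?_⟩
  have h1 := hH H hHH
  set bad := {v : β → ℤ | v ∈ {x : β → ℤ | (fun i => x (e i)) ∈ S} ∧ ∀ i, |v i| ≤ (H : ℤ)} with hbad
  set A := {v : α → ℤ | v ∈ S ∧ ∀ i, |v i| ≤ (H : ℤ)} with hA
  set B := {z : {b : β // ¬ b ∈ Set.range e} → ℤ | ∀ i, |z i| ≤ (H : ℤ)} with hB
  let φ : (β → ℤ) → (α → ℤ) × ({b : β // ¬ b ∈ Set.range e} → ℤ) :=
    fun x => (fun i => x (e i), fun b => x b)
  have hφ : Function.Injective φ := by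
    intro x y hxy
    funext b
    by_cases hb : b ∈ Set.range e
    · obtain ⟨a, rfl⟩ := hb
      exact congrFun (congrArg Prod.fst hxy) a
    · exact congrFun (congrArg Prod.snd hxy) ⟨b, hb⟩
  have hAf : A.Finite := box_fin S H
  have hBf : B.Finite := by
    refine (box_fin (ι := {b : β // ¬ b ∈ Set.range e}) Set.univ H).subset ?_
    intro z hz
    exact ⟨trivial, hz⟩
  have hsub : φ '' bad ⊆ A ×ˢ B := by
    rintro _ ⟨x, ⟨hx1, hx2⟩, rfl⟩
    exact ⟨⟨hx1, fun i => hx2 (e i)⟩, fun b => hx2 b⟩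
  have h2 : bad.ncard ≤ A.ncard * B.ncard := by
    rw [← Set.ncard_image_of_injective bad hφ, ← Set.ncard_prod]
    exact Set.ncard_le_ncard hsub (hAf.prod hBf)
  have h3 : B.ncard = (2 * H + 1) ^ Fintype.card {b : β // ¬ b ∈ Set.range e} := by
    have := box_ncard {b : β // ¬ b ∈ Set.range e} H
    rw [← this]
  have h4 : Fintype.card α + Fintype.card {b : β // ¬ b ∈ Set.range e} = Fintype.card β := by
    have h5 : Fintype.card {b : β // b ∈ Set.range e} = Fintype.card α :=
      (Fintype.card_congr (Equiv.ofInjective e he)).symm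
    have h6 := Fintype.card_subtype_compl (fun b : β => b ∈ Set.range e)
    have h7 := Fintype.card_subtype_le (fun b : β => b ∈ Set.range e)
    omega
  have h5 : (bad.ncard : ℝ) ≤ A.ncard * B.ncard := by exact_mod_cast h2
  refine h5.trans ?_
  rw [← h4, pow_add, ← mul_assoc]
  refine mul_le_mul h1 (le_of_eq ?_) (Nat.cast_nonneg _) (by positivity)
  rw [h3]
  push_cast
  rfl

end pull

section nf

variable {k : Type} [Field k] [NumberField k] {J : Type} [Fintype J] (B : Module.Basis J ℤ (𝓞 k))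

/-- the norm form -/
theorem norm_form : ∃ N : MvPolynomial J ℤ, ∀ x : J → ℤ,
    MvPolynomial.eval x N = Algebra.norm ℤ (elt B x) := by
  classical
  let M : J → Matrix J J ℤ := fun t => Algebra.leftMulMatrix B (B t)
  refine ⟨Matrix.det (∑ t, (M t).map fun z => MvPolynomial.C z * MvPolynomial.X t), fun x => ?_⟩
  rw [Algebra.norm_eq_matrix_det B, RingHom.map_det]
  congr 1
  rw [elt, map_sum, map_sum]
  ext i j
  rw [Matrix.sum_apply, Matrix.sum_apply]
  refine sum_congr rfl fun t _ => ?_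
  rw [RingHom.mapMatrix_apply, Matrix.map_apply, Matrix.map_apply, map_mul]
  have h1 : ((x t : ℤ) : 𝓞 k) * B t = x t • B t := (zsmul_eq_mul _ _).symm
  rw [h1, map_zsmul, Matrix.smul_apply]
  simp [M, mul_comm]

variable {ι : Type} [Fintype ι]

theorem dens_norm {i0 i1 : ι} (hi : i0 ≠ i1) : D0 {x : ι × J → ℤ |
    (Algebra.norm ℤ (elt B fun t => x (i0, t))) ^ 2 =
      (Algebra.norm ℤ (elt B fun t => x (i1, t))) ^ 2} := by
  classical
  obtain ⟨N, hN⟩ := norm_form B
  set c : MvPolynomial (ι × J) ℤ := (MvPolynomial.rename (fun t => (i0, t)) N) ^ 2 -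
    (MvPolynomial.rename (fun t => (i1, t)) N) ^ 2 with hc
  have hev : ∀ x : ι × J → ℤ, MvPolynomial.eval x c =
      (Algebra.norm ℤ (elt B fun t => x (i0, t))) ^ 2 -
        (Algebra.norm ℤ (elt B fun t => x (i1, t))) ^ 2 := by
    intro x
    rw [hc, map_sub, map_pow, map_pow, MvPolynomial.eval_rename, MvPolynomial.eval_rename,
      ← hN, ← hN]
    rfl
  have hc0 : c ≠ 0 := by
    intro h0
    have h1 := hev fun q => if q.1 = i0 then B.repr 2 q.2 else B.repr 1 q.2
    rw [h0, map_zero] at h1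
    simp only [if_pos, if_neg hi.symm] at h1
    have h2 : (elt B fun t => B.repr (2 : 𝓞 k) t) = 2 := (basis_elt B _).symm
    have h3 : (elt B fun t => B.repr (1 : 𝓞 k) t) = 1 := (basis_elt B _).symm
    rw [h2, h3, map_one] at h1
    have h5 : Algebra.norm ℤ (2 : 𝓞 k) = 2 ^ Module.finrank ℚ k := by
      have h6 : (2 : 𝓞 k) = algebraMap ℤ (𝓞 k) 2 := by simp
      rw [h6, Algebra.norm_algebraMap, RingOfIntegers.rank]
    rw [h5] at h1
    have h7 : 1 ≤ Module.finrank ℚ k := Module.finrank_pos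
    have h8 : (2 : ℤ) ^ 1 ≤ 2 ^ Module.finrank ℚ k := pow_le_pow_right₀ (by norm_num) h7
    nlinarith
  intro ε hε
  refine (zero c hc0 ε hε).mono ?_
  intro x hx
  show MvPolynomial.eval x c = 0
  rw [hev, hx, sub_self]

/-- the polynomial `v X ^ ℓ - u` -/
noncomputable def polPow (i0 i1 : ι) (ℓ : ℕ) : (MvPolynomial ι ℤ)[X] :=
  C (MvPolynomial.X i1) * X ^ ℓ - C (MvPolynomial.X i0)

theorem polPow_map {R : Type} [CommRing R] (i0 i1 : ι) (ℓ : ℕ) (v : ι → R) :
    (polPow i0 i1 ℓ).map (av v) = C (v i1) * X ^ ℓ - C (v i0) := by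
  rw [polPow, Polynomial.map_sub, Polynomial.map_mul, map_C, map_C, Polynomial.map_pow, map_X,
    av_X, av_X]

theorem dens_pow {i0 i1 : ι} (hi : i0 ≠ i1) {ℓ : ℕ} (hℓ : 2 ≤ ℓ) :
    D0 (RootSq B (polPow i0 i1 ℓ) 0 1) := by
  classical
  refine dens_root B (N := ℓ) (by omega) (k := 1) le_rfl (by omega) ?_ ?_
  · rw [polPow]
    refine (natDegree_sub_le _ _).trans (max_le ?_ ?_)
    · exact natDegree_C_mul_X_pow_le _ _
    · rw [natDegree_C]
      exact Nat.zero_le _
  intro p hp hp2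
  refine ⟨fun i => if i = i1 then 1 else (p : ℤ), -1, ?_, ?_, ?_, ?_⟩
  · exact (isCoprime_one_left).neg_left
  · rw [polPow_map, if_pos rfl, if_neg hi, coeff_sub, coeff_C_mul, coeff_X_pow, if_neg (by omega),
      coeff_C, if_pos rfl]
    ring
  · rw [polPow_map, if_pos rfl, coeff_sub, coeff_C_mul, coeff_X_pow, if_pos rfl, coeff_C,
      if_neg (by omega), sub_zero, mul_one]
    exact isCoprime_one_left
  · intro j hj0 hjN
    rw [polPow_map, coeff_sub, coeff_C_mul, coeff_X_pow, if_neg hjN, coeff_C, if_neg hj0]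
    ring

/-- the algebra for large exponents -/
theorem norm_eq_of_pow {U V : 𝓞 k} (hU : U ≠ 0) (hV : V ≠ 0) {L ℓ : ℕ} (hL : L ≤ ℓ)
    (hU' : ∀ P : Ideal (𝓞 k), P.IsPrime → P ≠ ⊥ → U ∉ P ^ L)
    (hV' : ∀ P : Ideal (𝓞 k), P.IsPrime → P ≠ ⊥ → V ∉ P ^ L) {z : k}
    (hz : algebraMap (𝓞 k) k V * z ^ ℓ = algebraMap (𝓞 k) k U) :
    (Algebra.norm ℤ U) ^ 2 = (Algebra.norm ℤ V) ^ 2 := by
  classical
  obtain ⟨S, T, hT, rfl⟩ := IsFractionRing.div_surjective (A := 𝓞 k) z
  have hT0 : T ≠ 0 := nonZeroDivisors.ne_zero hT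
  have hTk : algebraMap (𝓞 k) k T ≠ 0 := by
    rw [Ne, FaithfulSMul.algebraMap_eq_zero_iff]
    exact hT0
  have e : V * S ^ ℓ = U * T ^ ℓ := by
    apply FaithfulSMul.algebraMap_injective (𝓞 k) k
    rw [map_mul, map_mul, map_pow, map_pow, ← hz, div_pow]
    field_simp
  have hSℓ : S ^ ℓ ≠ 0 := by
    intro h0
    rw [h0, mul_zero] at e
    exact mul_ne_zero hU (pow_ne_zero _ hT0) e.symm
  set IU := Ideal.span {U} with hIU
  set IV := Ideal.span {V} with hIV
  set IS := Ideal.span {S ^ ℓ} with hIS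
  have hIU0 : IU ≠ 0 := by
    rw [hIU, Ne, Ideal.zero_eq_bot, Ideal.span_singleton_eq_bot]
    exact hU
  have hIV0 : IV ≠ 0 := by
    rw [hIV, Ne, Ideal.zero_eq_bot, Ideal.span_singleton_eq_bot]
    exact hV
  have hsp : ∀ W : 𝓞 k, Ideal.span {W ^ ℓ} = Ideal.span {W} ^ ℓ := fun W =>
    (Ideal.span_singleton_pow W ℓ).symm
  have hmul : IV * Ideal.span {S} ^ ℓ = IU * Ideal.span {T} ^ ℓ := by
    rw [← hsp, ← hsp, hIU, hIV, Ideal.span_singleton_mul_span_singleton,
      Ideal.span_singleton_mul_span_singleton, e]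
  have hSp0 : Ideal.span {S} ^ ℓ ≠ 0 := by
    rw [← hsp, Ne, Ideal.zero_eq_bot, Ideal.span_singleton_eq_bot]
    exact hSℓ
  have hTp0 : Ideal.span {T} ^ ℓ ≠ 0 := by
    rw [← hsp, Ne, Ideal.zero_eq_bot, Ideal.span_singleton_eq_bot]
    exact pow_ne_zero _ hT0
  have hnf := congrArg UniqueFactorizationMonoid.normalizedFactors hmul
  rw [UniqueFactorizationMonoid.normalizedFactors_mul hIV0 hSp0,
    UniqueFactorizationMonoid.normalizedFactors_mul hIU0 hTp0,
    UniqueFactorizationMonoid.normalizedFactors_pow,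
    UniqueFactorizationMonoid.normalizedFactors_pow] at hnf
  have hlt : ∀ (W : 𝓞 k), W ≠ 0 → (∀ P : Ideal (𝓞 k), P.IsPrime → P ≠ ⊥ → W ∉ P ^ L) →
      ∀ P : Ideal (𝓞 k), Irreducible P →
        (UniqueFactorizationMonoid.normalizedFactors (Ideal.span {W})).count P < L := by
    intro W hW hW' P hP
    by_contra hcon
    have hPp : Prime P := hP.prime
    have h0 : Ideal.span {W} ≠ 0 := by
      rw [Ne, Ideal.zero_eq_bot, Ideal.span_singleton_eq_bot]
      exact hW
    have h1 := UniqueFactorizationMonoid.emultiplicity_eq_count_normalizedFactors hP h0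
    rw [normalize_eq] at h1
    have h2 : P ^ L ∣ Ideal.span {W} := by
      rw [pow_dvd_iff_le_emultiplicity, h1]
      exact_mod_cast not_lt.1 hcon
    exact hW' P (Ideal.isPrime_of_prime hPp) hPp.ne_zero (Ideal.dvd_span_singleton.1 h2)
  have hEq : UniqueFactorizationMonoid.normalizedFactors IU =
      UniqueFactorizationMonoid.normalizedFactors IV := by
    ext P
    by_cases hP : Irreducible P
    · have h1 := congrArg (Multiset.count P) hnf
      rw [Multiset.count_add, Multiset.count_add, Multiset.count_nsmul, Multiset.count_nsmul] at h1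
      have h2 := hlt U hU hU' P hP
      have h3 := hlt V hV hV' P hP
      rw [← hIU] at h2
      rw [← hIV] at h3
      have h4 : (UniqueFactorizationMonoid.normalizedFactors IU).count P ≡
          (UniqueFactorizationMonoid.normalizedFactors IV).count P [MOD ℓ] := by
        have h5 := congrArg (fun n => n % ℓ) h1
        simp only [Nat.add_mul_mod_self_left] at h5
        exact h5.symm
      exact Nat.ModEq.eq_of_lt_of_lt h4 (by omega) (by omega)
    · have h0 : ∀ I : Ideal (𝓞 k), (UniqueFactorizationMonoid.normalizedFactors I).count P = 0 := by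
        intro I
        rw [Multiset.count_eq_zero]
        intro hmem
        exact hP (UniqueFactorizationMonoid.irreducible_of_normalized_factor P hmem)
      rw [h0, h0]
  have hI : IU = IV := by
    have h1 := UniqueFactorizationMonoid.prod_normalizedFactors hIU0
    have h2 := UniqueFactorizationMonoid.prod_normalizedFactors hIV0
    rw [hEq] at h1
    exact associated_iff_eq.1 (h1.symm.trans h2)
  have h1 := congrArg Ideal.absNorm hI
  rw [hIU, hIV, Ideal.absNorm_span_singleton, Ideal.absNorm_span_singleton] at h1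
  exact Int.natAbs_eq_natAbs_iff.1 h1 |>.elim (fun h => by rw [h]) (fun h => by rw [h]; ring)

/-- **The quotient of two coefficients is rarely a perfect power.** -/
theorem dens_perfect {i0 i1 : ι} (hi : i0 ≠ i1) : D0 {x : ι × J → ℤ |
    ∃ ℓ : ℕ, 2 ≤ ℓ ∧ ∃ z : k, kv B x i1 * z ^ ℓ = kv B x i0} := by
  classical
  obtain ⟨j0⟩ : Nonempty J := by
    rw [← Fintype.card_pos_iff, card_J B]
    exact Module.finrank_pos
  intro ε hε
  obtain ⟨L, hL⟩ := deep B (show (0 : ℝ) < ε / 4 by positivity)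
  have hinj : ∀ i : ι, Function.Injective fun t : J => (i, t) := fun i a b h =>
    (Prod.ext_iff.1 h).2
  have h1 := UD_pull (by positivity) hL (fun t : J => (i0, t)) (hinj i0)
  have h2 := UD_pull (by positivity) hL (fun t : J => (i1, t)) (hinj i1)
  have h3 : D0 (⋃ ℓ ∈ Finset.Ico 2 L, RootSq B (polPow i0 i1 ℓ) 0 1) :=
    D0.biUnion _ _ fun ℓ hℓ => dens_pow B hi (Finset.mem_Ico.1 hℓ).1
  have h4 := dens_norm B hi
  have h5 : D0 {x : ι × J → ℤ | MvPolynomial.eval x (MvPolynomial.X (i0, j0)) = 0} :=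
    zero _ (MvPolynomial.X_ne_zero _)
  have h6 : D0 {x : ι × J → ℤ | MvPolynomial.eval x (MvPolynomial.X (i1, j0)) = 0} :=
    zero _ (MvPolynomial.X_ne_zero _)
  have h7 := (((h3.union h4).union h5).union h6) (ε / 2) (by positivity)
  have h8 := (h1.union h2).union h7
  have e : ε / 4 + ε / 4 + ε / 2 = ε := by ring
  rw [e] at h8
  refine h8.mono ?_
  rintro x ⟨ℓ, hℓ, z, hz⟩
  by_contra hcon
  simp only [Set.mem_union, not_or, Set.mem_iUnion, exists_prop, not_exists, not_and] at hcon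
  obtain ⟨⟨k1, k2⟩, ⟨⟨k3, k4⟩, k5⟩, k6⟩ := hcon
  have hu : kv B x i0 ≠ 0 := by
    refine kv_ne B (j := j0) ?_
    intro h0
    apply k5
    show MvPolynomial.eval x (MvPolynomial.X _) = 0
    rw [MvPolynomial.eval_X]
    exact h0
  have hv : kv B x i1 ≠ 0 := by
    refine kv_ne B (j := j0) ?_
    intro h0
    apply k6
    show MvPolynomial.eval x (MvPolynomial.X _) = 0
    rw [MvPolynomial.eval_X]
    exact h0
  have hU : (elt B fun t => x (i0, t)) ≠ 0 := by
    intro h0
    apply hu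
    rw [kv, h0, map_zero]
  have hV : (elt B fun t => x (i1, t)) ≠ 0 := by
    intro h0
    apply hv
    rw [kv, h0, map_zero]
  rcases Nat.lt_or_ge ℓ L with hlt | hge
  · refine not_rootSq B (k3 ℓ (Finset.mem_Ico.2 ⟨hℓ, hlt⟩)) (f := X - C z) (irreducible_X_sub_C z)
      (by rw [natDegree_X_sub_C]) ?_ 0 ?_
    · rw [polPow_map, dvd_iff_isRoot, IsRoot, eval_sub, eval_mul, eval_C, eval_pow, eval_X, eval_C,
        hz, sub_self]
    · rw [Polynomial.map_zero, zero_pow two_ne_zero, sub_zero]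
      exact dvd_zero _
  · apply k4
    refine norm_eq_of_pow hU hV hge ?_ ?_ hz
    · intro P hP hP0 hmem
      exact k1 ⟨hU, P, hP, hP0, hmem⟩
    · intro P hP hP0 hmem
      exact k2 ⟨hV, P, hP, hP0, hmem⟩

end nf

end Pool.Agent.R939.PP
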