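import Pool.Agent.R939.PP.PolR

/-!
# Functions whose values are rarely divisible by a high power of some prime ideal
-/

set_option autoImplicit false
set_option linter.all false

namespace Pool.Agent.R939.PP

open Polynomial NumberField Pool.Agent.R939.EI Pool.Agent.R939.HI Pool.Agent.W275.UB
open Pool.Agent.TH115.GD Finset

section fib

variable {J ι : Type} [Fintype J] [Fintype ι]

/-- a bound along the fibres -/
theorem UD_fib (i0 : ι) {S : Set (ι × J → ℤ)} {ε : ℝ} (hε : 0 ≤ ε)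
    (h : ∃ H0 : ℕ, ∀ H : ℕ, H0 ≤ H → ∀ x : ι × J → ℤ, (∀ q, |x q| ≤ (H : ℤ)) →
      ((({v : ι × J → ℤ | (v ∈ S ∧ ∀ q, |v q| ≤ (H : ℤ)) ∧ ∀ q, q.1 ≠ i0 → v q = x q} :
        Set (ι × J → ℤ)).ncard : ℕ) : ℝ) ≤ ε * (2 * H + 1) ^ Fintype.card J) : UD ε S := by
  classical
  obtain ⟨H0, h⟩ := h
  refine ⟨H0, fun H hH => ?_⟩
  have hfin := box_fin S H
  set T := hfin.toFinset with hT
  have hTm : ∀ v, v ∈ T ↔ (v ∈ S ∧ ∀ q, |v q| ≤ (H : ℤ)) := by
    intro v
    rw [hT, Set.Finite.mem_toFinset]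
    rfl
  rw [Set.ncard_eq_toFinset_card _ hfin]
  let f : (ι × J → ℤ) → ({q : ι × J // ¬ q.1 = i0} → ℤ) := fun v q => v q
  have h1 := card_eq_sum_card_image f T
  have h2 : ∀ z ∈ T.image f, (((T.filter fun v => f v = z).card : ℕ) : ℝ) ≤
      ε * (2 * H + 1) ^ Fintype.card J := by
    intro z hz
    obtain ⟨x, hx, rfl⟩ := mem_image.1 hz
    refine le_trans (le_of_eq ?_) (h H hH x ((hTm x).1 hx).2)
    congr 1
    rw [← Set.ncard_coe_finset]
    congr 1
    ext v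
    rw [mem_coe, mem_filter, hTm]
    refine and_congr_right fun _ => ?_
    constructor
    · intro e q hq
      exact congrFun e ⟨q, hq⟩
    · intro e
      funext q
      exact e q q.2
  have h3 : (T.image f).card ≤ (2 * H + 1) ^ Fintype.card {q : ι × J // ¬ q.1 = i0} := by
    have h4 : T.image f ⊆ Fintype.piFinset fun _ => Icc (-(H : ℤ)) H := by
      intro z hz
      obtain ⟨x, hx, rfl⟩ := mem_image.1 hz
      rw [Fintype.mem_piFinset]
      intro q
      rw [mem_Icc]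
      exact abs_le.1 (((hTm x).1 hx).2 q)
    refine (card_le_card h4).trans (le_of_eq ?_)
    rw [Fintype.card_piFinset, prod_const, Int.card_Icc, card_univ]
    congr 1
    omega
  have h4 : Fintype.card J + Fintype.card {q : ι × J // ¬ q.1 = i0} = Fintype.card (ι × J) := by
    have h5 : Fintype.card {q : ι × J // q.1 = i0} = Fintype.card J := by
      refine Fintype.card_congr ⟨fun q => q.1.2, fun t => ⟨(i0, t), rfl⟩, ?_, ?_⟩
      · rintro ⟨⟨i, t⟩, hi⟩
        have : i = i0 := hi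
        subst this
        rfl
      · intro t
        rfl
    have h6 := Fintype.card_subtype_compl (fun q : ι × J => q.1 = i0)
    have h7 := Fintype.card_subtype_le (fun q : ι × J => q.1 = i0)
    omega
  have h5 : ((T.card : ℕ) : ℝ) ≤ (T.image f).card * (ε * (2 * H + 1) ^ Fintype.card J) := by
    rw [h1]
    push_cast
    refine (sum_le_sum h2).trans (le_of_eq ?_)
    rw [sum_const, nsmul_eq_mul]
  refine h5.trans ?_
  rw [← h4, pow_add]
  have h6 : (((T.image f).card : ℕ) : ℝ) ≤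
      (2 * H + 1 : ℝ) ^ Fintype.card {q : ι × J // ¬ q.1 = i0} := by exact_mod_cast h3
  calc ((T.image f).card : ℝ) * (ε * (2 * H + 1) ^ Fintype.card J) ≤
      (2 * H + 1 : ℝ) ^ Fintype.card {q : ι × J // ¬ q.1 = i0} *
        (ε * (2 * H + 1) ^ Fintype.card J) := mul_le_mul_of_nonneg_right h6 (by positivity)
    _ = _ := by ring

end fib

section nf

variable {k : Type} [Field k] [NumberField k] {J : Type} [Fintype J] (B : Module.Basis J ℤ (𝓞 k))
  {ι : Type} [Fintype ι]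

/-- the values are rarely divisible by a high power of some prime ideal -/
def Shal (W : (ι × J → ℤ) → 𝓞 k) : Prop := ∀ ε : ℝ, 0 < ε → ∃ L : ℕ, UD ε {x : ι × J → ℤ |
  W x ≠ 0 ∧ ∃ P : Ideal (𝓞 k), P.IsPrime ∧ P ≠ ⊥ ∧ W x ∈ P ^ L}

theorem shal_coord (i : ι) : Shal fun x : ι × J → ℤ => elt B fun t => x (i, t) := by
  intro ε hε
  obtain ⟨L, hL⟩ := deep B hε
  exact ⟨L, UD_pull hε.le hL (fun t : J => (i, t)) fun a b h => (Prod.ext_iff.1 h).2⟩

theorem mem_mul {P : Ideal (𝓞 k)} (hP : P.IsPrime) (hP0 : P ≠ ⊥) {a b : 𝓞 k} {m n : ℕ}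
    (h : a * b ∈ P ^ (m + n)) : a ∈ P ^ m ∨ b ∈ P ^ n := by
  have hp : Prime P := Ideal.prime_of_isPrime hP0 hP
  by_contra hcon
  rw [not_or, ← Ideal.dvd_span_singleton, ← Ideal.dvd_span_singleton,
    pow_dvd_iff_le_emultiplicity, pow_dvd_iff_le_emultiplicity, not_le, not_le] at hcon
  rw [← Ideal.dvd_span_singleton, ← Ideal.span_singleton_mul_span_singleton,
    pow_dvd_iff_le_emultiplicity, emultiplicity_mul hp] at h
  push_cast at h
  exact absurd (ENat.add_lt_add hcon.1 hcon.2) (not_lt.2 h)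

theorem shal_mul {W W' : (ι × J → ℤ) → 𝓞 k} (h : Shal W) (h' : Shal W') :
    Shal fun x => W x * W' x := by
  intro ε hε
  obtain ⟨L, hL⟩ := h (ε / 2) (by positivity)
  obtain ⟨L', hL'⟩ := h' (ε / 2) (by positivity)
  refine ⟨L + L', ?_⟩
  have h1 := hL.union hL'
  rw [add_halves] at h1
  refine h1.mono ?_
  rintro x ⟨h2, P, hP, hP0, hm⟩
  rcases mem_mul hP hP0 hm with h3 | h3
  · exact Or.inl ⟨left_ne_zero_of_mul h2, P, hP, hP0, h3⟩
  · exact Or.inr ⟨right_ne_zero_of_mul h2, P, hP, hP0, h3⟩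

theorem shal_const (c : 𝓞 k) : Shal fun _ : ι × J → ℤ => c := by
  intro ε hε
  refine ⟨(Algebra.norm ℤ c).natAbs, (D0.empty ε hε).mono ?_⟩
  rintro x ⟨h2, P, hP, hP0, hm⟩
  exfalso
  have hn1 : Ideal.absNorm P ≠ 1 := by
    rw [Ne, Ideal.absNorm_eq_one_iff]
    exact hP.ne_top
  have hn0 : Ideal.absNorm P ≠ 0 := by
    rw [Ne, Ideal.absNorm_eq_zero_iff]
    exact hP0
  have h1 : Ideal.absNorm P ^ (Algebra.norm ℤ c).natAbs ∣ (Algebra.norm ℤ c).natAbs := by
    conv_rhs => rw [← Ideal.absNorm_span_singleton]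
    rw [← map_pow]
    exact map_dvd _ ((Ideal.dvd_span_singleton).2 hm)
  have h3 : (Algebra.norm ℤ c).natAbs ≠ 0 := by
    rw [Int.natAbs_ne_zero, Ne, Algebra.norm_eq_zero_iff]
    exact h2
  have h4 := Nat.le_of_dvd (Nat.pos_of_ne_zero h3) h1
  have h5 : (Algebra.norm ℤ c).natAbs < Ideal.absNorm P ^ (Algebra.norm ℤ c).natAbs :=
    Nat.lt_pow_self (by omega)
  omega

theorem shal_prod {α : Type} (s : Finset α) (W : α → (ι × J → ℤ) → 𝓞 k) (h : ∀ i ∈ s, Shal (W i)) :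
    Shal fun x => ∏ i ∈ s, W i x := by
  classical
  induction s using Finset.induction_on with
  | empty =>
    simp only [prod_empty]
    exact shal_const 1
  | insert a s ha ih =>
    simp only [prod_insert ha]
    exact shal_mul (h a (mem_insert_self _ _)) (ih fun i hi => h i (mem_insert_of_mem hi))

theorem elt_sub (x y : J → ℤ) : elt B (fun t => x t - y t) = elt B x - elt B y := by
  rw [elt, elt, elt, ← sum_sub_distrib]
  refine sum_congr rfl fun t _ => ?_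
  push_cast
  ring

/-- **Functions which are linear in one variable.** -/
theorem shal_lin (i0 : ι) {A C : (ι × J → ℤ) → 𝓞 k}
    (hA : ∀ x y : ι × J → ℤ, (∀ q, q.1 ≠ i0 → x q = y q) → A x = A y)
    (hC : ∀ x y : ι × J → ℤ, (∀ q, q.1 ≠ i0 → x q = y q) → C x = C y)
    (hCs : Shal C) (hC0 : D0 {x : ι × J → ℤ | C x = 0})
    (hb : ∃ C0 S : ℕ, ∀ H : ℕ, 1 ≤ H → ∀ x : ι × J → ℤ, (∀ i, |x i| ≤ (H : ℤ)) →
      (Algebra.norm ℤ (A x - C x * elt B fun t => x (i0, t))).natAbs ≤ C0 * H ^ S) :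
    Shal fun x : ι × J → ℤ => A x - C x * elt B fun t => x (i0, t) := by
  classical
  intro ε hε
  obtain ⟨L1, hL1⟩ := hCs (ε / 4) (by positivity)
  obtain ⟨C0, S, hb⟩ := hb
  set d := Module.finrank ℚ k with hd
  have hd0 : 1 ≤ d := Module.finrank_pos
  have hdJ : Fintype.card J = d := card_J B
  obtain ⟨j, hj⟩ : ∃ j : ℕ, d * 3 ^ d * (1 / 2 ^ j : ℝ) ≤ ε / 2 := by
    obtain ⟨j, hj⟩ := exists_pow_lt_of_lt_one
      (show (0 : ℝ) < (ε / 2) / (d * 3 ^ d) by positivity) (show (1 / 2 : ℝ) < 1 by norm_num)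
    refine ⟨j, ?_⟩
    rw [lt_div_iff₀ (by positivity)] at hj
    rw [one_div_pow] at hj
    linarith
  set L := L1 + (j + 2) * (S + 1) with hL
  refine ⟨L, ?_⟩
  set bad1 : Set (ι × J → ℤ) := {x | C x ≠ 0 ∧ ∃ P : Ideal (𝓞 k), P.IsPrime ∧ P ≠ ⊥ ∧
    C x ∈ P ^ L1} with hbad1
  set W : (ι × J → ℤ) → 𝓞 k := fun x => A x - C x * elt B fun t => x (i0, t) with hW
  set R : Set (ι × J → ℤ) := {x | (W x ≠ 0 ∧ ∃ P : Ideal (𝓞 k), P.IsPrime ∧ P ≠ ⊥ ∧
    W x ∈ P ^ L) ∧ C x ≠ 0 ∧ ∀ P : Ideal (𝓞 k), P.IsPrime → P ≠ ⊥ → C x ∉ P ^ L1} with hR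
  have key : UD (ε / 2) R := by
    refine UD_fib i0 (by positivity) ⟨C0 + 1, fun H hH x hx => ?_⟩
    have hH1 : 1 ≤ H := le_trans (by omega) hH
    let T : ℕ → Finset (Ideal (𝓞 k)) := fun n =>
      (Ideal.finite_setOfPred_absNorm_eq (S := 𝓞 k) n).toFinset.filter fun P => P.IsPrime
    have hT : ∀ n, ∀ P ∈ T n, P.IsPrime ∧ Ideal.absNorm P = n := by
      intro n P hP
      rw [mem_filter, Set.Finite.mem_toFinset] at hP
      exact ⟨hP.2, hP.1⟩
    let F : Ideal (𝓞 k) → Set (ι × J → ℤ) := fun P =>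
      {v : ι × J → ℤ | (P ≠ ⊥ ∧ W v ∈ P ^ L ∧ C v ∉ P ^ L1) ∧ (∀ q, |v q| ≤ (H : ℤ)) ∧
        ∀ q, q.1 ≠ i0 → v q = x q}
    have hFfin : ∀ P, (F P).Finite := fun P =>
      (box_fin {v : ι × J → ℤ | True} H).subset fun v hv => ⟨trivial, hv.2.1⟩
    have hsub : ({v : ι × J → ℤ | (v ∈ R ∧ ∀ q, |v q| ≤ (H : ℤ)) ∧ ∀ q, q.1 ≠ i0 → v q = x q}) ⊆
        ⋃ n ∈ (Icc 2 H).filter (fun n => n ^ (j + 2) ≤ H), ⋃ P ∈ T n, F P := by
      rintro v ⟨⟨⟨⟨hx0, P, hP, hP0, hxP⟩, hc0, hcP⟩, hvH⟩, hvx⟩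
      have hn1 : Ideal.absNorm P ≠ 1 := by
        rw [Ne, Ideal.absNorm_eq_one_iff]
        exact hP.ne_top
      have hn0 : Ideal.absNorm P ≠ 0 := by
        rw [Ne, Ideal.absNorm_eq_zero_iff]
        exact hP0
      have h1 : Ideal.absNorm P ^ L ∣ (Algebra.norm ℤ (W v)).natAbs := by
        rw [← Ideal.absNorm_span_singleton, ← map_pow]
        exact map_dvd _ ((Ideal.dvd_span_singleton).2 hxP)
      have h2 : (Algebra.norm ℤ (W v)).natAbs ≠ 0 := by
        rw [Int.natAbs_ne_zero, Ne, Algebra.norm_eq_zero_iff]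
        exact hx0
      have h3 : Ideal.absNorm P ^ L ≤ C0 * H ^ S :=
        (Nat.le_of_dvd (Nat.pos_of_ne_zero h2) h1).trans (hb H hH1 v hvH)
      have h4 : C0 * H ^ S ≤ H ^ (S + 1) := by
        rw [pow_succ, mul_comm]
        exact Nat.mul_le_mul_left _ (le_trans (by omega) hH)
      have h5 : Ideal.absNorm P ^ (j + 2) ≤ H := by
        have h6 : (Ideal.absNorm P ^ (j + 2)) ^ (S + 1) ≤ H ^ (S + 1) := by
          rw [← pow_mul]
          refine le_trans (Nat.pow_le_pow_right (by omega) ?_) (h3.trans h4)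
          rw [hL]
          omega
        exact (Nat.pow_le_pow_iff_left (by omega)).1 h6
      have h6 : Ideal.absNorm P ≤ Ideal.absNorm P ^ (j + 2) := Nat.le_self_pow (by omega) _
      simp only [Set.mem_iUnion, exists_prop]
      refine ⟨Ideal.absNorm P, ?_, P, ?_, ⟨hP0, hxP, hcP P hP hP0⟩, hvH, hvx⟩
      · rw [mem_filter, mem_Icc]
        exact ⟨⟨by omega, by omega⟩, h5⟩
      · rw [mem_filter, Set.Finite.mem_toFinset]
        exact ⟨rfl, hP⟩
    have hfin : (⋃ n ∈ (Icc 2 H).filter (fun n => n ^ (j + 2) ≤ H), ⋃ P ∈ T n, F P).Finite := by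
      refine Set.Finite.biUnion (finite_toSet _) fun n _ => ?_
      exact Set.Finite.biUnion (finite_toSet _) fun P _ => hFfin P
    have hHr : (0 : ℝ) < 2 * H + 1 := by positivity
    have hF : ∀ n ∈ (Icc 2 H).filter (fun n => n ^ (j + 2) ≤ H), ∀ P ∈ T n,
        ((F P).ncard : ℝ) ≤ 3 ^ d * (2 * H + 1 : ℝ) ^ d * (1 / (n : ℝ) ^ (j + 2)) := by
      intro n hn P hP
      rw [mem_filter, mem_Icc] at hn
      have hn0 : (0 : ℝ) < (n : ℝ) ^ (j + 2) := by
        have : (0 : ℝ) < n := by exact_mod_cast (by omega : 0 < n)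
        positivity
      rcases (F P).eq_empty_or_nonempty with hemp | ⟨v0, hv0⟩
      · rw [hemp, Set.ncard_empty]
        push_cast
        positivity
      have hP1 := (hT n P hP).1
      have hP0 : P ≠ ⊥ := hv0.1.1
      let φ : (ι × J → ℤ) → (J → ℤ) := fun v t => v (i0, t) - v0 (i0, t)
      have hinj : Set.InjOn φ (F P) := by
        intro v hv w hw hvw
        funext q
        by_cases hq : q.1 = i0
        · obtain ⟨i, t⟩ := q
          have hq' : i = i0 := hq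
          subst hq'
          have h1 : v (i, t) - v0 (i, t) = w (i, t) - v0 (i, t) := congrFun hvw t
          linarith
        · rw [hv.2.2 q hq, hw.2.2 q hq]
      have himg : φ '' (F P) ⊆ {z : J → ℤ | elt B z ∈ P ^ (j + 2) ∧ ∀ i, |z i| ≤ ((2 * H : ℕ) : ℤ)} := by
        rintro _ ⟨v, hv, rfl⟩
        refine ⟨?_, ?_⟩
        · have e1 : ∀ q : ι × J, q.1 ≠ i0 → v q = v0 q := fun q hq => by
            rw [hv.2.2 q hq, hv0.2.2 q hq]
          have e2 : elt B (φ v) = (elt B fun t => v (i0, t)) - elt B fun t => v0 (i0, t) :=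
            elt_sub B _ _
          have e3 : W v0 - W v = C v0 * elt B (φ v) := by
            rw [e2]
            show (A v0 - C v0 * elt B fun t => v0 (i0, t)) - (A v - C v * elt B fun t => v (i0, t)) = _
            rw [hA v v0 e1, hC v v0 e1]
            ring
          have e4 : C v0 * elt B (φ v) ∈ P ^ (L1 + (j + 2)) := by
            rw [← e3]
            refine Ideal.pow_le_pow_right ?_ ((P ^ L).sub_mem hv0.1.2.1 hv.1.2.1)
            rw [hL]
            refine Nat.add_le_add_left ?_ _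
            exact Nat.le_mul_of_pos_right _ (by omega)
          rcases mem_mul hP1 hP0 e4 with h | h
          · exact absurd h hv0.1.2.2
          · exact h
        · intro t
          have h1 := abs_le.1 (hv.2.1 (i0, t))
          have h2 := abs_le.1 (hv0.2.1 (i0, t))
          show |v (i0, t) - v0 (i0, t)| ≤ _
          rw [abs_le]
          push_cast
          constructor <;> linarith
      have h1 := card_box_ideal B (P ^ (j + 2)) (n := n ^ (j + 2)) (by
        rw [map_pow, (hT n P hP).2]) (pow_ne_zero _ (by omega)) (2 * H)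
      rw [hdJ] at h1
      have h2 : (F P).ncard ≤ ({z : J → ℤ | elt B z ∈ P ^ (j + 2) ∧
          ∀ i, |z i| ≤ ((2 * H : ℕ) : ℤ)} : Set (J → ℤ)).ncard := by
        rw [← Set.ncard_image_of_injOn hinj]
        exact Set.ncard_le_ncard himg (box_fin {z : J → ℤ | elt B z ∈ P ^ (j + 2)} (2 * H))
      have h3 : (2 * (2 * H + n ^ (j + 2)) + 1) ^ d ≤ (3 * (2 * H + 1)) ^ d :=
        Nat.pow_le_pow_left (by omega) d
      have h4 : (F P).ncard * n ^ (j + 2) ≤ (3 * (2 * H + 1)) ^ d :=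
        (Nat.mul_le_mul_right _ h2).trans (h1.trans h3)
      rw [mul_one_div, le_div_iff₀ hn0, ← mul_pow]
      exact_mod_cast h4
    have hc1 : ({v : ι × J → ℤ | (v ∈ R ∧ ∀ q, |v q| ≤ (H : ℤ)) ∧
        ∀ q, q.1 ≠ i0 → v q = x q}).ncard ≤
        ∑ n ∈ (Icc 2 H).filter (fun n => n ^ (j + 2) ≤ H), ∑ P ∈ T n, (F P).ncard := by
      refine (Set.ncard_le_ncard hsub hfin).trans ?_
      refine (Finset.set_ncard_biUnion_le _ _).trans ?_
      exact sum_le_sum fun n _ => Finset.set_ncard_biUnion_le _ _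
    have hc2 : (((∑ n ∈ (Icc 2 H).filter (fun n => n ^ (j + 2) ≤ H), ∑ P ∈ T n, (F P).ncard) : ℕ) :
        ℝ) ≤ ∑ n ∈ Icc 2 H, d * (3 ^ d * (2 * H + 1 : ℝ) ^ d) * (1 / (n : ℝ) ^ (j + 2)) := by
      push_cast
      rw [sum_filter]
      refine sum_le_sum fun n hn => ?_
      split_ifs with h
      · have hn' : n ∈ (Icc 2 H).filter (fun n => n ^ (j + 2) ≤ H) := mem_filter.2 ⟨hn, h⟩
        have h1 := sum_le_sum fun P hP => hF n hn' P hP
        refine h1.trans ?_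
        rw [sum_const, nsmul_eq_mul]
        have h2 : ((T n).card : ℝ) ≤ d := by
          rw [mem_Icc] at hn
          exact_mod_cast card_primes n hn.1 (T n) (hT n)
        calc ((T n).card : ℝ) * (3 ^ d * (2 * H + 1 : ℝ) ^ d * (1 / (n : ℝ) ^ (j + 2))) ≤
            d * (3 ^ d * (2 * H + 1 : ℝ) ^ d * (1 / (n : ℝ) ^ (j + 2))) :=
              mul_le_mul_of_nonneg_right h2 (by positivity)
          _ = _ := by ring
      · positivity
    rw [hdJ]
    have hc3 : (({v : ι × J → ℤ | (v ∈ R ∧ ∀ q, |v q| ≤ (H : ℤ)) ∧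
        ∀ q, q.1 ≠ i0 → v q = x q}.ncard : ℕ) : ℝ) ≤ ((∑ n ∈ (Icc 2 H).filter
          (fun n => n ^ (j + 2) ≤ H), ∑ P ∈ T n, (F P).ncard : ℕ) : ℝ) := by
      exact_mod_cast hc1
    refine hc3.trans (hc2.trans ?_)
    rw [← mul_sum]
    have h1 := sum_inv_pow H j hH1
    have h2 : (0 : ℝ) ≤ d * (3 ^ d * (2 * H + 1 : ℝ) ^ d) := by positivity
    calc d * (3 ^ d * (2 * H + 1 : ℝ) ^ d) * ∑ n ∈ Icc 2 H, (1 / (n : ℝ) ^ (j + 2)) ≤
        d * (3 ^ d * (2 * H + 1 : ℝ) ^ d) * (1 / 2 ^ j) := mul_le_mul_of_nonneg_left h1 h2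
      _ = (d * 3 ^ d * (1 / 2 ^ j : ℝ)) * (2 * H + 1 : ℝ) ^ d := by ring
      _ ≤ ε / 2 * (2 * H + 1 : ℝ) ^ d := mul_le_mul_of_nonneg_right hj (by positivity)
  have h1 := (hL1.union (hC0 (ε / 4) (by positivity))).union key
  have e : ε / 4 + ε / 4 + ε / 2 = ε := by ring
  rw [e] at h1
  refine h1.mono ?_
  intro x hx
  by_cases hc : C x = 0
  · exact Or.inl (Or.inr hc)
  by_cases hc1 : x ∈ bad1
  · exact Or.inl (Or.inl hc1)
  · refine Or.inr ⟨hx, hc, ?_⟩
    intro P hP hP0 hm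
    exact hc1 ⟨hc, P, hP, hP0, hm⟩

end nf

end Pool.Agent.R939.PP
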