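import Pool.Agent.R939.PP.Shal

/-!
# Almost all integers of a number field have a large simple prime factor
-/

set_option autoImplicit false
set_option linter.all false

namespace Pool.Agent.R939.PP

open Polynomial NumberField Pool.Agent.R939.EI Pool.Agent.R939.HI Pool.Agent.W275.UB
open Pool.Agent.TH115.GD Finset

theorem sum_tail (T N : ℕ) (hT : 2 ≤ T) :
    ∑ n ∈ Icc T N, (1 : ℝ) / (n : ℝ) ^ 2 ≤ 1 / ((T : ℝ) - 1) := by
  have key : ∀ N : ℕ, T ≤ N → ∑ n ∈ Icc T N, (1 : ℝ) / (n : ℝ) ^ 2 ≤ 1 / ((T : ℝ) - 1) - 1 / N := by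
    intro N hN
    induction N, hN using Nat.le_induction with
    | base =>
      have hT2 : (2 : ℝ) ≤ T := by exact_mod_cast hT
      rw [Icc_self, sum_singleton, div_sub_div _ _ (by linarith) (by linarith),
        div_le_div_iff₀ (by positivity) (by nlinarith)]
      nlinarith
    | succ N hN ih =>
      have hN2 : (2 : ℝ) ≤ N := by exact_mod_cast hT.trans hN
      rw [sum_Icc_succ_top (by omega)]
      have h1 : (1 : ℝ) / ((N + 1 : ℕ) : ℝ) ^ 2 ≤ 1 / N - 1 / ((N + 1 : ℕ) : ℝ) := by
        push_cast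
        rw [div_sub_div _ _ (by linarith) (by positivity), div_le_div_iff₀ (by positivity)
          (by positivity)]
        nlinarith
      linarith
  rcases le_or_gt T N with h | h
  · have h1 := key N h
    have h2 : (0 : ℝ) ≤ 1 / N := by positivity
    linarith
  · rw [Icc_eq_empty (by omega), sum_empty]
    have hT2 : (2 : ℝ) ≤ T := by exact_mod_cast hT
    exact one_div_nonneg.2 (by linarith)

section nf

variable {k : Type} [Field k] [NumberField k] {J : Type} [Fintype J] (B : Module.Basis J ℤ (𝓞 k))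

/-- **Packing.** The elements of an ideal in a box. -/
theorem pack {A : ℕ} (hA1 : 1 ≤ A) (hA : ∀ (H : ℕ) (x : J → ℤ), (∀ i, |x i| ≤ (H : ℤ)) →
    (Algebra.norm ℤ (elt B x)).natAbs ≤ (A * H) ^ Module.finrank ℚ k) (I : Ideal (𝓞 k)) {n : ℕ}
    (hn : Ideal.absNorm I = n) (hn0 : 1 ≤ n) {H : ℕ} (hH : n ≤ (A * H) ^ Module.finrank ℚ k) :
    ({x : J → ℤ | elt B x ∈ I ∧ ∀ i, |x i| ≤ (H : ℤ)} : Set (J → ℤ)).ncard * n ≤
      (4 * A * H) ^ Module.finrank ℚ k := by
  classical
  set d := Module.finrank ℚ k with hd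
  have hd0 : 1 ≤ d := Module.finrank_pos
  have hdJ : Fintype.card J = d := card_J B
  -- the side of the cells
  have hex : ∃ s : ℕ, n ≤ (A * (s + 1)) ^ d := by
    rcases Nat.eq_zero_or_pos H with h | h
    · rw [h, mul_zero, zero_pow (by omega)] at hH
      omega
    · exact ⟨H - 1, by rw [Nat.sub_add_cancel h]; exact hH⟩
  set s := Nat.find hex with hs
  have hs1 : n ≤ (A * (s + 1)) ^ d := Nat.find_spec hex
  have hs2 : (A * s) ^ d < n := by
    rcases Nat.eq_zero_or_pos s with h | h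
    · rw [h, mul_zero, zero_pow (by omega)]
      omega
    · have h1 := Nat.find_min hex (m := s - 1) (by omega)
      rw [Nat.sub_add_cancel h] at h1
      omega
  have hsH : s + 1 ≤ H := by
    by_contra hcon
    have h1 : H ≤ s := by omega
    have h2 : (A * H) ^ d ≤ (A * s) ^ d := Nat.pow_le_pow_left (Nat.mul_le_mul_left _ h1) d
    omega
  set S : Set (J → ℤ) := {x : J → ℤ | elt B x ∈ I ∧ ∀ i, |x i| ≤ (H : ℤ)} with hS
  let φ : (J → ℤ) → (J → ℤ) := fun x t => (x t + H) / ((s + 1 : ℕ) : ℤ)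
  have hpos : (0 : ℤ) < ((s + 1 : ℕ) : ℤ) := by exact_mod_cast Nat.succ_pos s
  have hinj : Set.InjOn φ S := by
    intro x hx y hy hxy
    by_contra hne
    have h1 : ∀ t, |x t - y t| ≤ (s : ℤ) := by
      intro t
      have h2 : (x t + H) / ((s + 1 : ℕ) : ℤ) = (y t + H) / ((s + 1 : ℕ) : ℤ) := congrFun hxy t
      have h3 := Int.emod_add_mul_ediv (x t + H) ((s + 1 : ℕ) : ℤ)
      have h4 := Int.emod_add_mul_ediv (y t + H) ((s + 1 : ℕ) : ℤ)
      have h5 := Int.emod_nonneg (x t + H) hpos.ne'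
      have h6 := Int.emod_lt_of_pos (x t + H) hpos
      have h7 := Int.emod_nonneg (y t + H) hpos.ne'
      have h8 := Int.emod_lt_of_pos (y t + H) hpos
      rw [h2] at h3
      push_cast at *
      rw [abs_le]
      constructor <;> linarith
    have h2 : elt B (fun t => x t - y t) ∈ I := by
      rw [elt_sub]
      exact I.sub_mem hx.1 hy.1
    have h3 := hA s _ h1
    have h4 : elt B (fun t => x t - y t) ≠ 0 := by
      intro h0
      apply hne
      have h5 : elt B x = elt B y := by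
        rw [elt_sub] at h0
        exact sub_eq_zero.1 h0
      have h6 : ∀ z : J → ℤ, ⇑(B.repr (elt B z)) = z := by
        intro z
        have h7 : elt B z = ∑ t, z t • B t := by
          rw [elt]
          exact sum_congr rfl fun t _ => (zsmul_eq_mul _ _).symm
        rw [h7]
        exact B.repr_sum_self z
      rw [← h6 x, ← h6 y, h5]
    have h5 : (Algebra.norm ℤ (elt B fun t => x t - y t)).natAbs ≠ 0 := by
      rw [Int.natAbs_ne_zero, Ne, Algebra.norm_eq_zero_iff]
      exact h4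
    have h6 : n ∣ (Algebra.norm ℤ (elt B fun t => x t - y t)).natAbs := by
      rw [← Ideal.absNorm_span_singleton, ← hn]
      exact map_dvd _ ((Ideal.dvd_span_singleton).2 h2)
    have h7 := Nat.le_of_dvd (Nat.pos_of_ne_zero h5) h6
    omega
  have hsub : φ '' S ⊆ ((Fintype.piFinset fun _ : J => Icc (0 : ℤ) ((2 * H / (s + 1) : ℕ) : ℤ) :
        Finset (J → ℤ)) : Set (J → ℤ)) := by
    rintro _ ⟨x, hx, rfl⟩
    rw [mem_coe, Fintype.mem_piFinset]
    intro t
    have h1 := abs_le.1 (hx.2 t)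
    rw [mem_Icc]
    constructor
    · exact Int.ediv_nonneg (by linarith) hpos.le
    · push_cast
      exact Int.ediv_le_ediv (by exact_mod_cast hpos) (by linarith)
  have h1 : S.ncard ≤ (2 * H / (s + 1) + 1) ^ d := by
    rw [← Set.ncard_image_of_injOn hinj]
    refine (Set.ncard_le_ncard hsub (Finset.finite_toSet _)).trans (le_of_eq ?_)
    rw [Set.ncard_coe_finset, Fintype.card_piFinset, prod_const, Int.card_Icc, card_univ, hdJ]
    congr 1
  calc S.ncard * n ≤ (2 * H / (s + 1) + 1) ^ d * (A * (s + 1)) ^ d := Nat.mul_le_mul h1 hs1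
    _ = ((2 * H / (s + 1) + 1) * (A * (s + 1))) ^ d := (mul_pow _ _ _).symm
    _ ≤ (4 * A * H) ^ d := by
      refine Nat.pow_le_pow_left ?_ d
      have h2 : (2 * H / (s + 1)) * (s + 1) ≤ 2 * H := Nat.div_mul_le_self _ _
      calc (2 * H / (s + 1) + 1) * (A * (s + 1)) = A * ((2 * H / (s + 1)) * (s + 1) + (s + 1)) := by
            ring
        _ ≤ A * (2 * H + H) := Nat.mul_le_mul_left _ (by omega)
        _ ≤ 4 * A * H := by nlinarith

end nf

end Pool.Agent.R939.PP
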