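import Pool.Agent.R939.PP.Tow

/-!
# Irreducible compositions with all the monic integral polynomials at the same time
-/

set_option autoImplicit false
set_option linter.all false

namespace Pool.Agent.R939.PP

open Polynomial NumberField IsLocalRing

section dvr

variable {R K : Type} [CommRing R] [IsDomain R] [IsDiscreteValuationRing R] [Field K] [Algebra R K]
  [IsFractionRing R K]

/-- a factor with unit leading coefficient leads to an integral root -/
theorem no_unit_factor {f h G G' : R[X]} (hirr : Irreducible (f.map (algebraMap R K)))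
    (h1 : f.leadingCoeff ∈ maximalIdeal R) {j : ℕ} (h3 : f.coeff j ∉ maximalIdeal R)
    (hFG : f.comp h = G * G') (hG : IsUnit G.leadingCoeff) (hd : G.natDegree ≠ 0) : False := by
  obtain ⟨u, hu⟩ := hG
  set G1 := C ((u⁻¹ : Rˣ) : R) * G with hG1
  have hmon : G1.Monic := by
    rw [Monic, hG1, leadingCoeff_mul, leadingCoeff_C, ← hu, Units.inv_mul]
  let Ω := AlgebraicClosure K
  have hdeg : (G1.map (algebraMap R Ω)).degree ≠ 0 := by
    rw [hmon.degree_map]
    intro h0
    have h4 := natDegree_eq_of_degree_eq_some h0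
    rw [hG1, natDegree_C_mul (Units.ne_zero _)] at h4
    exact hd h4
  obtain ⟨x, hx⟩ := IsAlgClosed.exists_root (G1.map (algebraMap R Ω)) hdeg
  have hxint : IsIntegral R x := ⟨G1, hmon, by rw [IsRoot, eval_map] at hx; exact hx⟩
  have hθ : IsIntegral R (aeval x h) := by
    rw [aeval_eq_sum_range]
    exact IsIntegral.sum _ fun i _ => (hxint.pow i).smul _
  have hG0 : aeval x G = 0 := by
    have h5 : aeval x G1 = 0 := by rw [aeval_def, ← eval_map]; exact hx
    have h6 : G = C (u : R) * G1 := by
      rw [hG1, ← mul_assoc, ← C_mul, Units.mul_inv, C_1, one_mul]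
    rw [h6, map_mul, h5, mul_zero]
  have hf0 : aeval (aeval x h) f = 0 := by
    rw [← aeval_comp, hFG, map_mul, hG0, zero_mul]
  have hf1 : aeval (aeval x h) (f.map (algebraMap R K)) = 0 := by
    rw [aeval_map_algebraMap]
    exact hf0
  have h6 := minpoly.eq_of_irreducible hirr hf1
  have h7 := minpoly.isIntegrallyClosed_eq_field_fractions' K hθ
  have hinj := IsFractionRing.injective R K
  have hl : (f.map (algebraMap R K)).leadingCoeff = algebraMap R K f.leadingCoeff :=
    leadingCoeff_map_of_injective hinj f
  have hl0 : algebraMap R K f.leadingCoeff ≠ 0 := by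
    rw [← hl, Ne, leadingCoeff_eq_zero]
    exact hirr.ne_zero
  have h8 : f.map (algebraMap R K) =
      (C f.leadingCoeff * minpoly R (aeval x h)).map (algebraMap R K) := by
    rw [Polynomial.map_mul, map_C, ← h7, ← h6, hl, mul_comm, mul_assoc, ← C_mul,
      inv_mul_cancel₀ hl0, C_1, mul_one]
  have h9 := map_injective _ hinj h8
  apply h3
  rw [h9, coeff_C_mul]
  exact Ideal.mul_mem_right _ _ h1

theorem star_dvr {f h : R[X]} (hirr : Irreducible (f.map (algebraMap R K)))
    (h1 : f.leadingCoeff ∈ maximalIdeal R) (h2 : f.leadingCoeff ∉ (maximalIdeal R) ^ 2) {j : ℕ}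
    (h3 : f.coeff j ∉ maximalIdeal R) (hh : h.Monic) (hd : h.natDegree ≠ 0) :
    Irreducible ((f.comp h).map (algebraMap R K)) := by
  have hinj := IsFractionRing.injective R K
  have hfd : f.natDegree ≠ 0 := by
    intro h0
    have h4 : (f.map (algebraMap R K)).natDegree = 0 := by
      rw [natDegree_map_eq_of_injective hinj, h0]
    have h5 := Irreducible.natDegree_pos hirr
    omega
  have hlead : (f.comp h).leadingCoeff = f.leadingCoeff := by
    rw [leadingCoeff_comp hd, hh.leadingCoeff, one_pow, mul_one]
  have hprim : (f.comp h).IsPrimitive := by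
    intro r hr
    by_contra hcon
    have hr1 : r ∈ maximalIdeal R := (mem_maximalIdeal r).2 hcon
    have h4 : (f.comp h).map (residue R) = 0 := by
      obtain ⟨q, hq⟩ := hr
      rw [hq, Polynomial.map_mul, map_C, (residue_eq_zero_iff r).2 hr1, C_0, zero_mul]
    rw [map_comp] at h4
    have h5 : (f.map (residue R)) ≠ 0 := by
      intro h0
      have h6 := congrArg (fun q => q.coeff j) h0
      simp only [coeff_map, coeff_zero] at h6
      exact h3 ((residue_eq_zero_iff _).1 h6)
    have h6 := hh.map (residue R)
    have h7 : (h.map (residue R)).natDegree ≠ 0 := by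
      rw [hh.natDegree_map]
      exact hd
    have h8 : ((f.map (residue R)).comp (h.map (residue R))).leadingCoeff ≠ 0 := by
      rw [leadingCoeff_comp h7, h6.leadingCoeff, one_pow, mul_one, Ne, leadingCoeff_eq_zero]
      exact h5
    apply h8
    rw [h4, leadingCoeff_zero]
  rw [← hprim.irreducible_iff_irreducible_map_fraction_map]
  refine ⟨?_, ?_⟩
  · intro hu
    have h4 := natDegree_eq_zero_of_isUnit hu
    rw [natDegree_comp] at h4
    exact (mul_ne_zero hfd hd) h4
  · intro G G' hGG
    have h4 : G.leadingCoeff * G'.leadingCoeff = f.leadingCoeff := by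
      rw [← leadingCoeff_mul, ← hGG, hlead]
    have hcst : ∀ q : R[X], IsUnit q.leadingCoeff → q.natDegree = 0 → IsUnit q := by
      intro q hq hq0
      rw [eq_C_of_natDegree_eq_zero hq0]
      rw [leadingCoeff, hq0] at hq
      exact isUnit_C.2 hq
    by_cases hG : IsUnit G.leadingCoeff
    · left
      by_contra hcon
      exact no_unit_factor hirr h1 h3 hGG hG fun h0 => hcon (hcst G hG h0)
    · right
      have hG' : IsUnit G'.leadingCoeff := by
        by_contra hcon
        apply h2
        rw [← h4, sq]
        exact Ideal.mul_mem_mul ((mem_maximalIdeal _).2 hG) ((mem_maximalIdeal _).2 hcon)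
      by_contra hcon
      exact no_unit_factor hirr h1 h3 (hGG.trans (mul_comm _ _)) hG' fun h0 =>
        hcon (hcst G' hG' h0)

end dvr

section nf

variable {k : Type} [Field k] [NumberField k]

/-- **The criterion.** -/
theorem star {f h : (𝓞 k)[X]} (hirr : Irreducible (f.map (algebraMap (𝓞 k) k)))
    {P : Ideal (𝓞 k)} (hP : P.IsPrime) (h1 : f.leadingCoeff ∈ P) (h2 : f.leadingCoeff ∉ P ^ 2)
    {j : ℕ} (h3 : f.coeff j ∉ P) (hh : h.Monic) (hd : h.natDegree ≠ 0) :
    Irreducible ((f.map (algebraMap (𝓞 k) k)).comp (h.map (algebraMap (𝓞 k) k))) := by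
  have hP0 : P ≠ ⊥ := by
    rintro rfl
    have : f.leadingCoeff = 0 := h1
    apply h2
    rw [this]
    exact Ideal.zero_mem _
  letI : Algebra (Localization.AtPrime P) k :=
    IsLocalization.localizationAlgebraOfSubmonoidLe (Localization.AtPrime P) k P.primeCompl
      (nonZeroDivisors (𝓞 k)) P.primeCompl_le_nonZeroDivisors
  haveI : IsScalarTower (𝓞 k) (Localization.AtPrime P) k :=
    IsLocalization.localization_isScalarTower_of_submonoid_le (Localization.AtPrime P) k
      P.primeCompl (nonZeroDivisors (𝓞 k)) P.primeCompl_le_nonZeroDivisors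
  haveI : IsFractionRing (Localization.AtPrime P) k :=
    IsFractionRing.isFractionRing_of_isDomain_of_isLocalization P.primeCompl
      (Localization.AtPrime P) k
  haveI : IsDiscreteValuationRing (Localization.AtPrime P) :=
    IsLocalization.AtPrime.isDiscreteValuationRing_of_dedekind_domain (𝓞 k) hP0 _
  set φ := algebraMap (𝓞 k) (Localization.AtPrime P) with hφ
  have hφi : Function.Injective φ :=
    IsLocalization.injective (Localization.AtPrime P) P.primeCompl_le_nonZeroDivisors
  have hmem : ∀ z : 𝓞 k, φ z ∈ maximalIdeal (Localization.AtPrime P) ↔ z ∈ P := fun z =>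
    IsLocalization.AtPrime.to_map_mem_maximal_iff (Localization.AtPrime P) P z
  have hmap : ∀ q : (𝓞 k)[X], (q.map φ).map (algebraMap (Localization.AtPrime P) k) =
      q.map (algebraMap (𝓞 k) k) := by
    intro q
    rw [Polynomial.map_map, ← IsScalarTower.algebraMap_eq]
  have hl : (f.map φ).leadingCoeff = φ f.leadingCoeff := leadingCoeff_map_of_injective hφi f
  have key := star_dvr (R := Localization.AtPrime P) (K := k) (f := f.map φ) (h := h.map φ) (j := j)
    (by rw [hmap]; exact hirr) (by rw [hl, hmem]; exact h1) ?_ (by rw [coeff_map, hmem]; exact h3)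
    (hh.map φ) (by rw [hh.natDegree_map]; exact hd)
  · rw [map_comp, hmap, hmap] at key
    exact key
  · rw [hl]
    intro h4
    have h5 : maximalIdeal (Localization.AtPrime P) = P.map φ :=
      (Localization.AtPrime.map_eq_maximalIdeal).symm
    rw [h5, ← Ideal.map_pow, IsLocalization.mem_map_algebraMap_iff P.primeCompl] at h4
    obtain ⟨⟨⟨a, ha⟩, ⟨s, hs⟩⟩, h6⟩ := h4
    have h7 : f.leadingCoeff * s = a := hφi (by rw [map_mul]; exact h6)
    have h8 : s * f.leadingCoeff ∈ P ^ 2 := by
      rw [mul_comm, h7]
      exact ha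
    rcases Ideal.IsPrime.mul_mem_pow P h8 with h9 | h9
    · exact hs h9
    · exact h2 h9

end nf

end Pool.Agent.R939.PP
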