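import Pool.Agent.R939.PP.Pow
import Pool.Agent.R939.KM.Km2

/-!
# Almost all twists, all the covers `t ↦ tᵐ` at the same time
-/

set_option autoImplicit false
set_option linter.all false

namespace Pool.Agent.R939.PP

open Polynomial NumberField Pool.Agent.R939.EI Pool.Agent.R939.HI Pool.Agent.W275.UB
open Pool.Agent.TH115.GD Finset Pool.Agent.R939.KM

/-- if the root of an irreducible polynomial is an `ℓ`-th power, `ℓ` odd, then so is the quotient of
the last and the first coefficient -/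
theorem power_of_root {k : Type} [Field k] {D : k[X]} (hD : Irreducible D) {ℓ : ℕ} (hℓ : Odd ℓ)
    {y : AdjoinRoot D} (hy : y ^ ℓ = AdjoinRoot.root D) :
    ∃ z : k, D.leadingCoeff * z ^ ℓ = D.coeff 0 := by
  haveI : Fact (Irreducible D) := ⟨hD⟩
  have hl : D.leadingCoeff ≠ 0 := leadingCoeff_ne_zero.2 hD.ne_zero
  have h1 := Algebra.PowerBasis.norm_gen_eq_coeff_zero_minpoly (AdjoinRoot.powerBasis hD.ne_zero)
  rw [AdjoinRoot.minpoly_powerBasis_gen, AdjoinRoot.powerBasis_gen, AdjoinRoot.powerBasis_dim,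
    mul_comm D, coeff_C_mul] at h1
  rw [← hy, map_pow] at h1
  refine ⟨(-1) ^ D.natDegree * Algebra.norm k y, ?_⟩
  rw [mul_pow, h1]
  have h2 : ((-1 : k) ^ D.natDegree) ^ ℓ = (-1) ^ D.natDegree := by
    rw [← pow_mul, mul_comm, pow_mul, hℓ.neg_one_pow]
  have h3 : ((-1 : k) ^ D.natDegree) * (-1) ^ D.natDegree = 1 := by
    rw [← mul_pow]
    simp
  rw [h2]
  calc D.leadingCoeff * ((-1) ^ D.natDegree * ((-1) ^ D.natDegree * (D.leadingCoeff⁻¹ * D.coeff 0)))
      = (((-1 : k) ^ D.natDegree) * (-1) ^ D.natDegree) * (D.leadingCoeff * D.leadingCoeff⁻¹) *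
        D.coeff 0 := by ring
    _ = D.coeff 0 := by rw [h3, mul_inv_cancel₀ hl, one_mul, one_mul]

section nf

variable {k : Type} [Field k] [NumberField k] {J : Type} [Fintype J] (B : Module.Basis J ℤ (𝓞 k))
  {u : ℕ} {n : Fin u → ℕ}

theorem coeff_polA {R : Type} [CommRing R] {m : ℕ} (c : Fin (m + 1) → R) (i : Fin (m + 1)) :
    (polA c).coeff i = c i := by
  unfold polA
  rw [finset_sum_coeff, Finset.sum_eq_single i]
  · simp
  · intro j _ hj
    rw [coeff_C_mul, coeff_X_pow, if_neg, mul_zero]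
    intro h
    exact hj (Fin.ext h.symm)
  · intro h
    exact absurd (Finset.mem_univ _) h

/-- **The roots of almost all polynomials are not powers.** -/
theorem dens_nopow (l : Fin u) (hn : 1 ≤ n l) : D0 {x : (Σ l : Fin u, Fin (n l + 1)) × J → ℤ |
    ∃ ℓ : ℕ, ℓ.Prime ∧ ℓ ≠ 2 ∧ ¬ NoPowerRoot (polA fun j => kv B x ⟨l, j⟩) ℓ} := by
  classical
  obtain ⟨j0⟩ : Nonempty J := by
    rw [← Fintype.card_pos_iff, card_J B]
    exact Module.finrank_pos
  have h1 : D0 (RootSq B (polA fun j => (MvPolynomial.X (⟨l, j⟩ : Σ l : Fin u, Fin (n l + 1)) :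
      MvPolynomial (Σ l : Fin u, Fin (n l + 1)) ℤ)) 0 (n l - 1)) := by
    refine dens_root B hn (k := 1) le_rfl (by omega) (polA_natDegree _) ?_
    intro p hp hp2
    let a : (Σ l : Fin u, Fin (n l + 1)) → ℤ := fun i => (X ^ (n i.1) + C (p : ℤ) : ℤ[X]).coeff (i.2 : ℕ)
    have h1 : (polA fun j => (MvPolynomial.X (⟨l, j⟩ : Σ l : Fin u, Fin (n l + 1)) :
      MvPolynomial (Σ l : Fin u, Fin (n l + 1)) ℤ)).map (av a) = X ^ (n l) + C (p : ℤ) := by
      rw [polA_map]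
      simp only [av_X]
      show (polA fun j : Fin (n l + 1) => (X ^ (n l) + C (p : ℤ) : ℤ[X]).coeff (j : ℕ)) = _
      refine polA_of ?_
      refine (natDegree_add_le _ _).trans (max_le ?_ ?_)
      · exact natDegree_X_pow_le _
      · rw [natDegree_C]
        exact Nat.zero_le _
    refine ⟨a, 1, isCoprime_one_left, ?_, ?_, ?_⟩
    · rw [h1, coeff_add, coeff_X_pow, coeff_C, if_neg (by omega), if_pos rfl]
      ring
    · rw [h1, coeff_add, coeff_X_pow, if_pos rfl, coeff_C, if_neg (by omega), add_zero]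
      exact isCoprime_one_left
    · intro j hj0 hjN
      rw [h1, coeff_add, coeff_X_pow, if_neg hjN, coeff_C, if_neg hj0, add_zero]
  have hne : (⟨l, 0⟩ : Σ l : Fin u, Fin (n l + 1)) ≠ ⟨l, Fin.last (n l)⟩ := by
    intro h
    have h2 := (Sigma.mk.inj_iff.1 h).2
    have h3 := congrArg Fin.val (eq_of_heq h2)
    rw [Fin.val_last] at h3
    simp at h3
    omega
  have h2 := dens_perfect B hne
  have h3 : D0 {x : (Σ l : Fin u, Fin (n l + 1)) × J → ℤ |
      MvPolynomial.eval x (MvPolynomial.X (⟨l, Fin.last (n l)⟩, j0)) = 0} :=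
    zero _ (MvPolynomial.X_ne_zero _)
  intro ε hε
  refine (((h1.union h2).union h3) ε hε).mono ?_
  rintro x ⟨ℓ, hℓ, hℓ2, hx⟩
  by_contra hcon
  simp only [Set.mem_union, not_or] at hcon
  obtain ⟨⟨k1, k2⟩, k3⟩ := hcon
  have hlead : IsUnit (kv B x ⟨l, Fin.last (n l)⟩) := by
    refine isUnit_iff_ne_zero.2 (kv_ne B (j := j0) ?_)
    intro h0
    apply k3
    show MvPolynomial.eval x (MvPolynomial.X _) = 0
    rw [MvPolynomial.eval_X]
    exact h0
  have hdeg := lead_polA (c := fun j => kv B x ⟨l, j⟩) hlead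
  set D := polA fun j => kv B x ⟨l, j⟩ with hD
  have hirr : Irreducible D := by
    refine irr_of_no_small (N := n l - 1) ?_ ?_
    · rw [hdeg.1]
      omega
    · intro f hf hfd hfdv
      refine not_rootSq B k1 hf hfd ?_ 0 ?_
      · rw [polA_map]
        simp only [av_X]
        exact hfdv
      · rw [Polynomial.map_zero, zero_pow two_ne_zero, sub_zero]
        exact dvd_zero _
  apply hx
  intro π hπ hdv
  have has : Associated π D := hπ.associated_of_dvd hirr hdv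
  refine no_power_assoc has.symm.dvd ?_
  intro y hy
  obtain ⟨z, hz⟩ := power_of_root hirr (hℓ.odd_of_ne_two hℓ2) hy
  apply k2
  refine ⟨ℓ, hℓ.two_le, z, ?_⟩
  rw [hdeg.2] at hz
  have h4 : D.coeff 0 = kv B x ⟨l, 0⟩ := coeff_polA (fun j => kv B x ⟨l, j⟩) 0
  rw [h4] at hz
  exact hz

end nf

section main

variable {k k' K F : Type} [Field k] [Field k'] [Algebra k k'] [Field K] [Algebra k[X] K]
    [Field F] [Algebra k'[X] F] [IsFractionRing k'[X] F] [Algebra K F]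

/-- **Almost all twists, all layers.** -/
theorem all_layers [NumberField k] (hT : IsTower k k' K F) {J : Type} [Fintype J]
    (B : Module.Basis J ℤ (𝓞 k)) {a b : k[X]} (hNb : NotNorm b) (hNd : NotNorm (a ^ 2 - 4 * b))
    (hO : OnlyTrivial a b) (hO' : OnlyTrivial (-2 * a) (a ^ 2 - 4 * b))
    (h0 : ∀ n : ℕ, 0 < n → IsCoprime (b * (a ^ 2 - 4 * b)) (X * (X ^ n - 1))) :
    ∃ N : ℕ, N ≠ 0 ∧ ∀ (u : ℕ) (n : Fin u → ℕ) (_ : ∀ l, 1 ≤ n l) (η : ℝ) (_ : 0 < η),
    ∃ H0 : ℕ, ∀ H : ℕ, H0 ≤ H →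
      (({x : (l : Fin u) → Fin (n l + 1) → 𝓞 k | (∀ l j t, |B.repr (x l j) t| ≤ (H : ℤ)) ∧
        ¬ ∀ m : ℕ, Nat.Coprime m N → ∀ c : k, c ≠ 0 →
          TateAtTwo (F := F) k' (crvT (algebraMap k[X] K ((C c *
            (a * ∏ l, polA fun j => algebraMap (𝓞 k) k (x l j))).comp (X ^ m)))
            (algebraMap k[X] K ((C (c ^ 2) *
              (b * (∏ l, polA fun j => algebraMap (𝓞 k) k (x l j)) ^ 2)).comp
                (X ^ m))))}.ncard : ℕ) : ℝ) ≤
        η * (2 * H + 1) ^ (Fintype.card J * ∑ l, (n l + 1)) := by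
  classical
  have hb := HI.ne_sq_of_notNorm hNb
  have hd := HI.ne_sq_of_notNorm hNd
  have hb0 : b ≠ 0 := fun h => hb 0 0 (by rw [h]; simp)
  have hd0 : a ^ 2 - 4 * b ≠ 0 := fun h => hd 0 0 (by rw [h]; simp)
  obtain ⟨N, hN, hN'⟩ := no_power_all (mul_ne_zero hb0 hd0) h0
  refine ⟨2 * N, mul_ne_zero two_ne_zero hN, ?_⟩
  intro u n hn η hη
  have h1 : D0 (⋃ l ∈ (Finset.univ : Finset (Fin u)),
      {x : (Σ l : Fin u, Fin (n l + 1)) × J → ℤ |
        ∃ ℓ : ℕ, ℓ.Prime ∧ ℓ ≠ 2 ∧ ¬ NoPowerRoot (polA fun j => kv B x ⟨l, j⟩) ℓ}) :=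
    D0.biUnion _ _ fun l _ => dens_nopow B l (hn l)
  obtain ⟨H0, hH⟩ := ((dens_inert B hb hd hn).union h1) η hη
  refine ⟨H0, fun H hHH => ?_⟩
  have h1 := hH H hHH
  have hcard : Fintype.card ((Σ l : Fin u, Fin (n l + 1)) × J) =
      Fintype.card J * ∑ l, (n l + 1) := by
    rw [Fintype.card_prod, Fintype.card_sigma, Nat.mul_comm]
    simp
  rw [hcard] at h1
  refine le_trans ?_ h1
  let φ : ((l : Fin u) → Fin (n l + 1) → 𝓞 k) → ((Σ l : Fin u, Fin (n l + 1)) × J → ℤ) :=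
    fun y o => B.repr (y o.1.1 o.1.2) o.2
  have hkv : ∀ y (o : Σ l : Fin u, Fin (n l + 1)), kv B (φ y) o =
      algebraMap (𝓞 k) k (y o.1 o.2) := by
    intro y o
    show algebraMap (𝓞 k) k (elt B fun j => B.repr (y o.1 o.2) j) = _
    rw [← basis_elt B]
  have hinj : Function.Injective φ := by
    intro y z hyz
    funext l j
    apply FaithfulSMul.algebraMap_injective (𝓞 k) k
    have h3 := hkv y ⟨l, j⟩
    rw [hyz, hkv z ⟨l, j⟩] at h3
    exact h3.symm
  have h4 : (Set.ncard {x : (l : Fin u) → Fin (n l + 1) → 𝓞 k |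
        (∀ l j t, |B.repr (x l j) t| ≤ (H : ℤ)) ∧
        ¬ ∀ m : ℕ, Nat.Coprime m (2 * N) → ∀ c : k, c ≠ 0 →
          TateAtTwo (F := F) k' (crvT (algebraMap k[X] K ((C c *
            (a * ∏ l, polA fun j => algebraMap (𝓞 k) k (x l j))).comp (X ^ m)))
            (algebraMap k[X] K ((C (c ^ 2) *
              (b * (∏ l, polA fun j => algebraMap (𝓞 k) k (x l j)) ^ 2)).comp
                (X ^ m))))}) ≤
      Set.ncard {v : (Σ l : Fin u, Fin (n l + 1)) × J → ℤ |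
        v ∈ ({x : (Σ l : Fin u, Fin (n l + 1)) × J → ℤ |
          ¬ InertIn a b (∏ l, polA fun j => kv B x ⟨l, j⟩)} ∪
          ⋃ l ∈ (Finset.univ : Finset (Fin u)),
            {x : (Σ l : Fin u, Fin (n l + 1)) × J → ℤ |
              ∃ ℓ : ℕ, ℓ.Prime ∧ ℓ ≠ 2 ∧ ¬ NoPowerRoot (polA fun j => kv B x ⟨l, j⟩) ℓ}) ∧
        ∀ i, |v i| ≤ (H : ℤ)} := by
    rw [← Set.ncard_image_of_injective _ hinj]
    refine Set.ncard_le_ncard ?_ (box_fin _ H)
    rintro _ ⟨y, ⟨b1, hbad⟩, rfl⟩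
    refine ⟨?_, ?_⟩
    · by_contra hcon
      simp only [Set.mem_union, not_or, Set.mem_iUnion, exists_prop, not_exists, not_and,
        Finset.mem_univ, forall_true_left] at hcon
      obtain ⟨k1, k2⟩ := hcon
      have hin : InertIn a b (∏ l, polA fun j => kv B (φ y) ⟨l, j⟩) := by
        by_contra h5
        exact k1 h5
      have hnp : ∀ (l : Fin u) (ℓ : ℕ), ℓ.Prime → ℓ ≠ 2 →
          NoPowerRoot (polA fun j => kv B (φ y) ⟨l, j⟩) ℓ := by
        intro l ℓ hℓ hℓ2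
        by_contra h5
        exact k2 l ⟨ℓ, hℓ, hℓ2, h5⟩
      apply hbad
      simp only [hkv] at hin hnp
      intro m hm c hc
      have hm2 : Nat.Coprime m 2 := hm.coprime_mul_right_right
      have hmN : Nat.Coprime m N := hm.coprime_mul_left_right
      refine kummer hT two_ne_zero hNb hNd hO hO' hin hc (Nat.coprime_two_right.1 hm2) ?_
      intro ℓ hℓ hℓm
      have hℓ2 : ℓ ≠ 2 := by
        rintro rfl
        exact Nat.not_coprime_of_dvd_of_dvd (by norm_num) hℓm (dvd_refl 2) hm2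
      have hℓN : ¬ ℓ ∣ N := fun hℓN => Nat.not_coprime_of_dvd_of_dvd hℓ.one_lt hℓm hℓN hmN
      intro π hπ hdv
      rcases hπ.prime.dvd_or_dvd hdv with h8 | h8
      · exact hN' ℓ hℓ hℓN π hπ h8
      · obtain ⟨l, -, hl⟩ := (hπ.prime.dvd_finsetProd_iff _).1 h8
        exact hnp l ℓ hℓ hℓ2 π hπ hl
    · rintro ⟨⟨l, j⟩, t⟩
      exact b1 l j t
  exact_mod_cast h4

end main

end Pool.Agent.R939.PP
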