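import Pool.Agent.R939.PP.Perf
import Pool.Agent.R939.PP.Tow
import Pool.Agent.R939.HI.Main

/-!
# Almost all surfaces, all the covers `t ↦ tᵐ` at the same time
-/

set_option autoImplicit false
set_option linter.all false

namespace Pool.Agent.R939.PP

open Polynomial NumberField Pool.Agent.R939.EI Pool.Agent.R939.HI Pool.Agent.W275.UB
open Pool.Agent.TH115.GD Finset Pool.Agent.R939.KM

section coeffs

variable {R : Type} [CommRing R] {r s : ℕ} {m : Fin s → ℕ}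

theorem coeff_zero_polE (a : Fin (r + 1) → R) (β : (i : Fin s) → Fin (m i + 1) → R) :
    (polE a β).coeff 0 = a 0 ^ 2 - 4 * ∏ i, β i 0 := by
  have h : ∀ {n : ℕ} (c : Fin (n + 1) → R), (polA c).eval 0 = c 0 := fun c => by
    rw [← coeff_zero_eq_eval_zero]
    exact coeff_polA c 0
  unfold polE polP
  rw [coeff_zero_eq_eval_zero, eval_sub, eval_pow, eval_mul, eval_prod, eval_ofNat]
  simp only [h]

theorem coeff_top_prod (β : (i : Fin s) → Fin (m i + 1) → R) (S : Finset (Fin s)) :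
    (∏ i ∈ S, polA (β i)).coeff (∑ i ∈ S, m i) = ∏ i ∈ S, β i (Fin.last (m i)) := by
  classical
  induction S using Finset.induction_on with
  | empty => simp
  | insert a S ha ih =>
    rw [prod_insert ha, prod_insert ha, sum_insert ha]
    rw [coeff_mul_add_eq_of_natDegree_le (polA_natDegree _)
      ((natDegree_prod_le _ _).trans (sum_le_sum fun i _ => polA_natDegree _)), ih]
    congr 1
    exact coeff_polA (β a) (Fin.last (m a))

theorem coeff_sq_top (a : Fin (r + 1) → R) : (polA a ^ 2).coeff (2 * r) = a (Fin.last r) ^ 2 := by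
  rw [coeff_pow_of_natDegree_le (polA_natDegree a)]
  congr 1
  exact coeff_polA a (Fin.last r)

theorem coeff_top1 (h : ∑ i, m i < 2 * r) (a : Fin (r + 1) → R)
    (β : (i : Fin s) → Fin (m i + 1) → R) : (polE a β).coeff (2 * r) = a (Fin.last r) ^ 2 := by
  have e4 : (4 : R[X]) = C 4 := by rw [map_ofNat]
  unfold polE
  rw [coeff_sub, coeff_sq_top, e4, coeff_C_mul,
    coeff_eq_zero_of_natDegree_lt ((polP_natDegree β).trans_lt h), mul_zero, sub_zero]

theorem coeff_top2 (h : ∑ i, m i = 2 * r) (a : Fin (r + 1) → R)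
    (β : (i : Fin s) → Fin (m i + 1) → R) : (polE a β).coeff (2 * r) =
      a (Fin.last r) ^ 2 - 4 * ∏ i, β i (Fin.last (m i)) := by
  have e4 : (4 : R[X]) = C 4 := by rw [map_ofNat]
  unfold polE polP
  rw [coeff_sub, coeff_sq_top, e4, coeff_C_mul, ← h, coeff_top_prod]

theorem coeff_top3 (h : 2 * r < ∑ i, m i) (a : Fin (r + 1) → R)
    (β : (i : Fin s) → Fin (m i + 1) → R) : (polE a β).coeff (∑ i, m i) =
      - (4 * ∏ i, β i (Fin.last (m i))) := by
  have e4 : (4 : R[X]) = C 4 := by rw [map_ofNat]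
  unfold polE polP
  rw [coeff_sub, coeff_eq_zero_of_natDegree_lt ((natDegree_pow_le.trans
    (Nat.mul_le_mul_left 2 (polA_natDegree a))).trans_lt h), e4, coeff_C_mul, coeff_top_prod,
    zero_sub]

end coeffs

section nf

variable {k : Type} [Field k] [NumberField k] {J : Type} [Fintype J] (B : Module.Basis J ℤ (𝓞 k))

/-- the roots of almost all polynomials are not powers; general index set -/
theorem dens_nopow' {ι : Type} [Fintype ι] {N : ℕ} (e : Fin (N + 1) → ι)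
    (he : Function.Injective e) (hN : 1 ≤ N) : D0 {x : ι × J → ℤ |
      ∃ ℓ : ℕ, ℓ.Prime ∧ ℓ ≠ 2 ∧ ¬ NoPowerRoot (polA fun j => kv B x (e j)) ℓ} := by
  have h := dens_nopow (u := 1) (n := fun _ => N) B 0 hN
  exact D0_pull h (fun q : (Σ l : Fin 1, Fin (N + 1)) × J => ((e q.1.2, q.2) : ι × J)) (by
    rintro ⟨⟨l, j⟩, t⟩ ⟨⟨l', j'⟩, t'⟩ h
    have h1 := (Prod.ext_iff.1 h).1
    have h2 : t = t' := (Prod.ext_iff.1 h).2
    have h3 : j = j' := he h1
    have h4 : l = l' := Subsingleton.elim _ _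
    subst h2
    subst h3
    subst h4
    rfl)

variable {r s u : ℕ} {m : Fin s → ℕ} {n : Fin u → ℕ}

/-- no root of the discriminant is a power -/
theorem noE_of {N : ℕ} (h1 : 2 * r ≤ N) (h2 : ∑ i, m i ≤ N) {U V : MvPolynomial (Ix r m n) ℤ}
    (hU : (polE (aV (XX r m n)) (bV (XX r m n))).coeff 0 = U)
    (hV : (polE (aV (XX r m n)) (bV (XX r m n))).coeff N = V)
    (hsU : Shal (val B U)) (hsV : Shal (val B V))
    (hE : ∀ p : ℕ, p.Prime → p ≠ 2 → ∃ a : Ix r m n → ℤ, av a U = (p : ℤ) * (p - 4) ∧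
      (av a V = 1 ∨ av a V = -4)) :
    D0 {x : Ix r m n × J → ℤ | Irreducible (polE (aV (kv B x)) (bV (kv B x))) ∧
      ∃ ℓ : ℕ, ℓ.Prime ∧ ℓ ≠ 2 ∧ ¬ NoPowerRoot (polE (aV (kv B x)) (bV (kv B x))) ℓ} := by
  have h3 := dens_perfect' B hsU hsV hE
  have h4 : D0 {x : Ix r m n × J → ℤ |
      ((polE (aV (XX r m n)) (bV (XX r m n))).map (av (kv B x))).coeff N = 0} := by
    refine dens_lead B ?_
    rw [hV]
    rintro rfl
    obtain ⟨a, -, ha⟩ := hE 3 Nat.prime_three (by norm_num)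
    rw [map_zero] at ha
    norm_num at ha
  intro ε hε
  refine ((h3.union h4) ε hε).mono ?_
  rintro x ⟨hirr, ℓ, hℓ, hℓ2, hx⟩
  by_contra hcon
  simp only [Set.mem_union, not_or] at hcon
  obtain ⟨k1, k2⟩ := hcon
  have k2' : (polE (aV (kv B x)) (bV (kv B x))).coeff N ≠ 0 := by
    rw [← map_E]
    exact k2
  set D := polE (aV (kv B x)) (bV (kv B x)) with hD
  have hdeg : D.natDegree = N :=
    le_antisymm (polE_deg h1 h2 _ _) (le_natDegree_of_ne_zero k2')
  have hc : ∀ j, D.coeff j = av (kv B x) ((polE (aV (XX r m n)) (bV (XX r m n))).coeff j) := by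
    intro j
    rw [hD, ← map_E, coeff_map]
  apply hx
  intro π hπ hdv
  have has : Associated π D := hπ.associated_of_dvd hirr hdv
  refine no_power_assoc has.symm.dvd ?_
  intro y hy
  obtain ⟨z, hz⟩ := power_of_root hirr (hℓ.odd_of_ne_two hℓ2) hy
  apply k1
  refine ⟨ℓ, hℓ.two_le, z, ?_⟩
  rw [leadingCoeff, hdeg, hc, hc, hU, hV, ← val_kv, ← val_kv] at hz
  exact hz

/-- the target -/
theorem target_zero (hr : 1 ≤ r) (hm : ∀ i, 1 ≤ m i) (i0 : Fin s) (p e : ℤ) :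
    ∃ a : Ix r m n → ℤ, aV a 0 = p ∧ (∏ i, bV a i 0 = p) ∧ aV a (Fin.last r) = 1 ∧
      ∏ i, bV a i (Fin.last (m i)) = e := by
  classical
  have h0r : (Fin.last r) ≠ 0 := by
    intro h
    have := congrArg Fin.val h
    simp at this
    omega
  have h0m : ∀ i, (Fin.last (m i)) ≠ 0 := by
    intro i h
    have h1 := congrArg Fin.val h
    have h2 := hm i
    simp at h1
    omega
  refine ⟨mk (fun j => if j = 0 then p else 1)
    (fun i j => if i = i0 then (if j = 0 then p else e) else 1) (fun _ _ => 0), ?_, ?_, ?_, ?_⟩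
  · rw [aV_mk, if_pos rfl]
  · rw [bV_mk]
    simp only [if_true]
    rw [Finset.prod_ite_eq' Finset.univ i0 fun _ => p, if_pos (Finset.mem_univ _)]
  · rw [aV_mk, if_neg h0r]
  · rw [bV_mk]
    have : ∀ i, (if i = i0 then (if Fin.last (m i) = 0 then p else e) else 1) =
        if i = i0 then e else 1 := by
      intro i
      rw [if_neg (h0m i)]
    simp only [this]
    rw [Finset.prod_ite_eq' Finset.univ i0 fun _ => e, if_pos (Finset.mem_univ _)]

theorem inj_b (f : (i : Fin s) → Fin (m i + 1)) : Function.Injective fun i : Fin s =>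
    (Sum.inl (Sum.inr ⟨i, f i⟩) : Ix r m n) := by
  intro i j h
  have h1 := Sum.inr_injective (Sum.inl_injective h)
  exact (Sigma.mk.inj_iff.1 h1).1

theorem ne_ab (f : (i : Fin s) → Fin (m i + 1)) (j : Fin (r + 1)) (i : Fin s) :
    (Sum.inl (Sum.inr ⟨i, f i⟩) : Ix r m n) ≠ Sum.inl (Sum.inl j) := by
  intro h
  exact absurd (Sum.inl_injective h) Sum.inr_ne_inl

theorem shal_q (i0 : Fin s) (j : Fin (r + 1)) (f : (i : Fin s) → Fin (m i + 1)) :
    Shal (val B (aV (XX r m n) j ^ 2 - 4 * ∏ i, bV (XX r m n) i (f i))) :=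
  shal_quad B i0 (Sum.inl (Sum.inl j) : Ix r m n) (fun i => Sum.inl (Sum.inr ⟨i, f i⟩))
    (inj_b f) (ne_ab f j)

theorem shal_sq (j : Fin (r + 1)) : Shal (val B (aV (XX r m n) j ^ 2)) := by
  have h0 : Shal (val B (aV (XX r m n) j)) := by
    have h2 : val B (aV (XX r m n) j) = fun x : Ix r m n × J → ℤ =>
        elt B fun t => x (Sum.inl (Sum.inl j), t) :=
      funext fun x => val_X B (Sum.inl (Sum.inl j) : Ix r m n) x
    rw [h2]
    exact shal_coord B (Sum.inl (Sum.inl j) : Ix r m n)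
  have h1 : val B (aV (XX r m n) j ^ 2) = fun x =>
      val B (aV (XX r m n) j) x * val B (aV (XX r m n) j) x := by
    funext x
    rw [pow_two, val_mul]
  rw [h1]
  exact shal_mul h0 h0

theorem shal_pr (f : (i : Fin s) → Fin (m i + 1)) :
    Shal (val B (-(4 * ∏ i, bV (XX r m n) i (f i)))) := by
  have h0 : ∀ i, Shal (val B (bV (XX r m n) i (f i))) := by
    intro i
    have h2 : val B (bV (XX r m n) i (f i)) = fun x : Ix r m n × J → ℤ =>
        elt B fun t => x (Sum.inl (Sum.inr ⟨i, f i⟩), t) :=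
      funext fun x => val_X B (Sum.inl (Sum.inr ⟨i, f i⟩) : Ix r m n) x
    rw [h2]
    exact shal_coord B (Sum.inl (Sum.inr ⟨i, f i⟩) : Ix r m n)
  have h1 : val B (-(4 * ∏ i, bV (XX r m n) i (f i))) = fun x =>
      (-4 : 𝓞 k) * ∏ i, val B (bV (XX r m n) i (f i)) x := by
    funext x
    rw [val, map_neg, map_mul, map_prod, map_ofNat, neg_mul]
    rfl
  rw [h1]
  exact shal_mul (shal_const _) (shal_prod _ _ fun i _ => h0 i)

theorem av_q (a : Ix r m n → ℤ) (j : Fin (r + 1)) (f : (i : Fin s) → Fin (m i + 1)) :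
    av a (aV (XX r m n) j ^ 2 - 4 * ∏ i, bV (XX r m n) i (f i)) =
      aV a j ^ 2 - 4 * ∏ i, bV a i (f i) := by
  rw [map_sub, map_pow, map_mul, map_prod, map_ofNat]
  have e1 : av a (aV (XX r m n) j) = aV a j := av_X _ _
  have e2 : ∀ i, av a (bV (XX r m n) i (f i)) = bV a i (f i) := fun i => av_X _ _
  simp only [e1, e2]

/-- no root of the discriminant is a power -/
theorem dens_noE1 (hr : 1 ≤ r) (hm : ∀ i, 1 ≤ m i) (i0 : Fin s) (h : ∑ i, m i < 2 * r) :
    D0 {x : Ix r m n × J → ℤ | Irreducible (polE (aV (kv B x)) (bV (kv B x))) ∧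
      ∃ ℓ : ℕ, ℓ.Prime ∧ ℓ ≠ 2 ∧ ¬ NoPowerRoot (polE (aV (kv B x)) (bV (kv B x))) ℓ} := by
  refine noE_of B le_rfl h.le (coeff_zero_polE (aV (XX r m n)) (bV (XX r m n)))
    (coeff_top1 h _ _) (shal_q B i0 0 fun _ => 0) (shal_sq B (Fin.last r)) ?_
  intro p hp hp2
  obtain ⟨a, ha1, ha2, ha3, ha4⟩ := target_zero (n := n) hr hm i0 (p : ℤ) 1
  refine ⟨a, ?_, Or.inl ?_⟩
  · rw [av_q a 0 fun _ => 0, ha1, ha2]
    ring
  · rw [map_pow]
    have e1 : av a (aV (XX r m n) (Fin.last r)) = aV a (Fin.last r) := av_X _ _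
    rw [e1, ha3, one_pow]

theorem dens_noE2 (hr : 1 ≤ r) (hm : ∀ i, 1 ≤ m i) (i0 : Fin s) (h : ∑ i, m i = 2 * r) :
    D0 {x : Ix r m n × J → ℤ | Irreducible (polE (aV (kv B x)) (bV (kv B x))) ∧
      ∃ ℓ : ℕ, ℓ.Prime ∧ ℓ ≠ 2 ∧ ¬ NoPowerRoot (polE (aV (kv B x)) (bV (kv B x))) ℓ} := by
  refine noE_of B le_rfl h.le (coeff_zero_polE (aV (XX r m n)) (bV (XX r m n)))
    (coeff_top2 h _ _) (shal_q B i0 0 fun _ => 0) (shal_q B i0 (Fin.last r) fun i => Fin.last (m i))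
    ?_
  intro p hp hp2
  obtain ⟨a, ha1, ha2, ha3, ha4⟩ := target_zero (n := n) hr hm i0 (p : ℤ) 0
  refine ⟨a, ?_, Or.inl ?_⟩
  · rw [av_q a 0 fun _ => 0, ha1, ha2]
    ring
  · rw [av_q a (Fin.last r) fun i => Fin.last (m i), ha3, ha4]
    norm_num

theorem dens_noE3 (hr : 1 ≤ r) (hm : ∀ i, 1 ≤ m i) (i0 : Fin s) (h : 2 * r < ∑ i, m i) :
    D0 {x : Ix r m n × J → ℤ | Irreducible (polE (aV (kv B x)) (bV (kv B x))) ∧
      ∃ ℓ : ℕ, ℓ.Prime ∧ ℓ ≠ 2 ∧ ¬ NoPowerRoot (polE (aV (kv B x)) (bV (kv B x))) ℓ} := by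
  refine noE_of B h.le le_rfl (coeff_zero_polE (aV (XX r m n)) (bV (XX r m n)))
    (coeff_top3 h _ _) (shal_q B i0 0 fun _ => 0) (shal_pr B fun i => Fin.last (m i)) ?_
  intro p hp hp2
  obtain ⟨a, ha1, ha2, ha3, ha4⟩ := target_zero (n := n) hr hm i0 (p : ℤ) 1
  refine ⟨a, ?_, Or.inr ?_⟩
  · rw [av_q a 0 fun _ => 0, ha1, ha2]
    ring
  · rw [map_neg, map_mul, map_prod, map_ofNat]
    have e2 : ∀ i, av a (bV (XX r m n) i (Fin.last (m i))) = bV a i (Fin.last (m i)) :=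
      fun i => av_X _ _
    simp only [e2, ha4]
    norm_num

theorem dens_noE (hr : 1 ≤ r) (hm : ∀ i, 1 ≤ m i) (i0 : Fin s) :
    D0 {x : Ix r m n × J → ℤ | Irreducible (polE (aV (kv B x)) (bV (kv B x))) ∧
      ∃ ℓ : ℕ, ℓ.Prime ∧ ℓ ≠ 2 ∧ ¬ NoPowerRoot (polE (aV (kv B x)) (bV (kv B x))) ℓ} := by
  rcases lt_trichotomy (∑ i, m i) (2 * r) with h | h | h
  · exact dens_noE1 B hr hm i0 h
  · exact dens_noE2 B hr hm i0 h
  · exact dens_noE3 B hr hm i0 h

end nf

end Pool.Agent.R939.PP
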